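import Pool.Agent.T2H27.Law.Asm

/-!
# The number of all curves
-/

set_option autoImplicit false

namespace Pool.Agent.T2H27.Law

open Finset Filter Topology Pool.Agent.T2H27.Szp

open Pool.Agent.H328R2.ABC (rad)
open Pool.Agent.H328R2.ABC.RadSumAux (ff ff_nonneg)

theorem CN_zero (A X : ℝ) : CN 0 A X = ∅ := by
  ext q
  simp only [Set.mem_empty_iff_false, iff_false]
  rintro ⟨W, h1, -, -, -, h2, -⟩
  rw [zero_mul] at h2
  exact h1 (Int.natAbs_eq_zero.1 h2)

theorem wt_zero : wt 0 = 0 := by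
  unfold wt
  rw [Nat.cast_zero, Real.zero_rpow (by norm_num), zero_mul]

theorem CN_tendsto_all (n : ℕ) {A : ℝ} (h1 : 1 < A) (h2 : A < 5 / 3) :
    Tendsto (fun X : ℝ => ((CN n A X).ncard : ℝ) / X ^ ((5 : ℝ) / 6)) atTop (𝓝 (kap * wt n)) := by
  rcases Nat.eq_zero_or_pos n with h | h
  · subst h
    rw [wt_zero, mul_zero]
    refine tendsto_const_nhds.congr (fun X => ?_)
    rw [CN_zero, Set.ncard_empty, Nat.cast_zero, zero_div]
  · exact CN_tendsto' (by omega) h1 h2

theorem CN_disj {n n' : ℕ} {A X : ℝ} {q : ℤ × ℤ} (h : q ∈ CN n A X) (h' : q ∈ CN n' A X) :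
    n = n' := by
  obtain ⟨W, hΔ, -, rfl, -, h2, -⟩ := h
  obtain ⟨W', -, -, hq, -, h2', -⟩ := h'
  rw [Prod.mk.injEq] at hq
  have hrel : 1728 * W.Δ = W.c₄ ^ 3 - W.c₆ ^ 2 := W.c_relation
  have hrel' : 1728 * W'.Δ = W'.c₄ ^ 3 - W'.c₆ ^ 2 := W'.c_relation
  rw [← hq.1, ← hq.2, ← hrel] at hrel'
  have hD : W'.Δ = W.Δ := by omega
  rw [hD] at h2'
  have h3 : n * rad W.Δ.natAbs = n' * rad W.Δ.natAbs := by rw [← h2, ← h2']
  exact Nat.eq_of_mul_eq_mul_right (rad_pos _) h3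

theorem mem_CN_bounds {n : ℕ} {A X : ℝ} (hX : 0 ≤ X) {q : ℤ × ℤ} (hq : q ∈ CN n A X) :
    |(q.1 : ℝ)| ≤ X ^ (A / 3) ∧ |(q.1 : ℝ) ^ 3 - (q.2 : ℝ) ^ 2| ≤ 1728 * n * X ∧
      IsCoprime q.1 ((n * rad n : ℕ) : ℤ) ∧ ((n * rad n : ℕ) : ℤ) ∣ q.1 ^ 3 - q.2 ^ 2 := by
  obtain ⟨W, hΔ, hc, rfl, hN, h2, h4, h6⟩ := hq
  have hrel : 1728 * W.Δ = W.c₄ ^ 3 - W.c₆ ^ 2 := W.c_relation
  have hrelR : 1728 * (W.Δ : ℝ) = (W.c₄ : ℝ) ^ 3 - (W.c₆ : ℝ) ^ 2 := by exact_mod_cast hrel
  have h8 : ((W.Δ.natAbs : ℕ) : ℝ) = |(W.Δ : ℝ)| := by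
    rw [Nat.cast_natAbs]; push_cast; rfl
  have hP : ((n * rad n : ℕ) : ℤ) ∣ W.Δ :=
    Int.natCast_dvd.2 (P_dvd (Int.natAbs_ne_zero.2 hΔ) h2)
  refine ⟨Y_root hX h4, ?_, hc.of_isCoprime_of_dvd_right hP, ?_⟩
  · simp only
    rw [← hrelR, abs_mul, abs_of_pos (by norm_num : (0 : ℝ) < 1728), ← h8, h2]
    push_cast
    have : (n : ℝ) * (rad W.Δ.natAbs : ℝ) ≤ n * X :=
      mul_le_mul_of_nonneg_left hN (Nat.cast_nonneg _)
    linarith
  · simp only
    rw [← hrel]
    exact Dvd.dvd.mul_left hP _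

/-- semistable curves with `N ≤ X`, height at most `X ^ A`, `|Δ| / N ∈ S` -/
def CSt (S : Set ℕ) (A X : ℝ) : Set (ℤ × ℤ) := {q | ∃ n ∈ S, q ∈ CN n A X}

theorem CSt_sub (S : Set ℕ) (A X : ℝ) : CSt S A X ⊆ CT A X := by
  rintro q ⟨n, _, hq⟩
  exact CN_sub n A X hq

open Classical in
/-- **The number of the curves with `|Δ| / N` in a given set.** -/
theorem CSt_tendsto (Sf : Set ℕ) {A : ℝ} (h1 : 1 < A) (h2 : A < 5 / 3) :
    Tendsto (fun X : ℝ => ((CSt Sf A X).ncard : ℝ) / X ^ ((5 : ℝ) / 6)) atTop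
      (𝓝 (kap * ∑' n, if n ∈ Sf then wt n else 0)) := by
  obtain ⟨C, a, hC, ha, hup⟩ := upperT h1 h2
  obtain ⟨C₃, hC₃, ht3⟩ := tail3
  set tl : ℕ → ℝ := fun K => ∑' n : ℕ, ff (1 / 12) (n + (K + 1)) with htl
  have hsumm : Summable (fun n => if n ∈ Sf then wt n else 0) := by
    refine Summable.of_nonneg_of_le (fun n => ?_) (fun n => ?_) wt_summable
    · split_ifs
      · exact wt_nonneg n
      · exact le_rfl
    · split_ifs
      · exact le_rfl
      · exact wt_nonneg n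
  refine final_lim
    (S := fun K X => ∑ n ∈ range (K + 1),
      (if n ∈ Sf then ((CN n A X).ncard : ℝ) / X ^ ((5 : ℝ) / 6) else 0))
    (s := fun K => ∑ n ∈ range (K + 1), kap * (if n ∈ Sf then wt n else 0))
    (B := fun K X => C₃ * tl K + (4 * C₃ * X ^ (-(1 / 6 : ℝ)) + C * X ^ (-(5 / 6 - a))))
    (b := fun K => C₃ * tl K) ?_ ?_ ?_ ?_ ?_
  · refine Eventually.of_forall (fun K => ?_)
    refine tendsto_finsetSum _ (fun n _ => ?_)
    split_ifs with h
    · exact CN_tendsto_all n h1 h2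
    · rw [mul_zero]
      exact tendsto_const_nhds
  · have h3 := (hsumm.mul_left kap).hasSum.tendsto_sum_nat
    rw [tsum_mul_left] at h3
    exact h3.comp (tendsto_add_atTop_nat 1)
  · refine Eventually.of_forall (fun K => ?_)
    have e1 := (tendsto_rpow_neg' (b := 1 / 6) (by norm_num)).const_mul (4 * C₃)
    have e2 := (tendsto_rpow_neg' (b := 5 / 6 - a) (by linarith)).const_mul C
    have e3 := (e1.add e2).const_add (C₃ * tl K)
    rw [mul_zero, mul_zero, add_zero, add_zero] at e3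
    exact e3
  · have h3 := (ff_tail_tendsto (1 / 12)).const_mul C₃
    rwa [mul_zero] at h3
  · refine Eventually.of_forall (fun K => ?_)
    filter_upwards [eventually_ge_atTop 1] with X hX
    have hX0 : 0 < X := by linarith
    have hXp : 0 < X ^ ((5 : ℝ) / 6) := Real.rpow_pos_of_pos hX0 _
    have hfin : (CSt Sf A X).Finite := (CT_finite A X hX).subset (CSt_sub Sf A X)
    set TS := hfin.toFinset with hTS
    have hTScard : ((CSt Sf A X).ncard : ℝ) = TS.card := by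
      rw [Set.ncard_eq_toFinset_card _ hfin]
    have hYle : X ^ (A / 3) ≤ X ^ ((5 : ℝ) / 9) :=
      Real.rpow_le_rpow_of_exponent_le hX (by linarith)
    have hY0 : 0 ≤ X ^ (A / 3) := Real.rpow_nonneg hX0.le _
    set Z : ℝ := X ^ ((1 : ℝ) / 100) with hZdef
    have hZ0 : 0 < Z := Real.rpow_pos_of_pos hX0 _
    set M : ℕ := ⌊Z⌋₊ with hM
    have hMZ : (M : ℝ) ≤ Z := Nat.floor_le hZ0.le
    -- the main part
    have hpart : ∀ n, (TS.filter (fun q => q ∈ CN n A X)).card =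
        if n ∈ Sf then (CN n A X).ncard else 0 := by
      intro n
      split_ifs with hn
      · rw [← Set.ncard_coe_finset]
        congr 1
        ext q
        rw [mem_coe, mem_filter, hTS, Set.Finite.mem_toFinset]
        exact ⟨fun h => h.2, fun h => ⟨⟨n, hn, h⟩, h⟩⟩
      · rw [card_eq_zero, filter_eq_empty_iff]
        intro q hq hq2
        rw [hTS, Set.Finite.mem_toFinset] at hq
        obtain ⟨n', hn', hq'⟩ := hq
        rw [CN_disj hq2 hq'] at hn
        exact hn hn'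
    set U := (range (K + 1)).biUnion (fun n => TS.filter (fun q => q ∈ CN n A X)) with hU
    have hUcard : U.card = ∑ n ∈ range (K + 1), if n ∈ Sf then (CN n A X).ncard else 0 := by
      rw [hU, card_biUnion]
      · exact sum_congr rfl (fun n _ => hpart n)
      · intro n _ n' _ hne
        rw [Function.onFun, disjoint_left]
        intro q hq hq'
        rw [mem_filter] at hq hq'
        exact hne (CN_disj hq.2 hq'.2)
    have hUsub : U ⊆ TS := by
      intro q hq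
      rw [hU, mem_biUnion] at hq
      obtain ⟨n, _, hq⟩ := hq
      exact (mem_filter.1 hq).1
    set Rs := TS \ U with hRs
    have hcard : TS.card = U.card + Rs.card := by
      rw [hRs, card_sdiff_of_subset hUsub]
      have := card_le_card hUsub
      omega
    set R1 := Rs.filter (fun q => ∃ n ∈ Ioc K M, q ∈ CN n A X) with hR1
    set R2 := Rs.filter (fun q => q ∈ Crv (1 + 1 / 100) A X) with hR2
    have hsub : Rs ⊆ R1 ∪ R2 := by
      intro q hq
      have hq' := hq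
      rw [hRs, Finset.mem_sdiff, hTS, Set.Finite.mem_toFinset] at hq'
      obtain ⟨hq1, hq2⟩ := hq'
      have hq1' := hq1
      obtain ⟨n, hnS, hmem⟩ := hq1
      have hmem' := hmem
      obtain ⟨W, hΔ, hc, rfl, hN, hn', h4, h6⟩ := hmem
      have hnK : K < n := by
        by_contra hcon
        apply hq2
        rw [hU, mem_biUnion]
        refine ⟨n, mem_range.2 (by omega), ?_⟩
        rw [mem_filter, hTS, Set.Finite.mem_toFinset]
        exact ⟨hq1', hmem'⟩
      rcases le_or_gt n M with hnM | hnM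
      · exact mem_union_left _ (mem_filter.2 ⟨hq, n, mem_Ioc.2 ⟨hnK, hnM⟩, hmem'⟩)
      · refine mem_union_right _ (mem_filter.2 ⟨hq, ?_⟩)
        have hZn : Z < n := by
          have : M + 1 ≤ n := hnM
          calc Z < (M : ℝ) + 1 := Nat.lt_floor_add_one Z
            _ ≤ n := by exact_mod_cast this
        have hr0 : (0 : ℝ) < rad W.Δ.natAbs := by exact_mod_cast rad_pos _
        have h8 : ((W.Δ.natAbs : ℕ) : ℝ) = |(W.Δ : ℝ)| := by
          rw [Nat.cast_natAbs]; push_cast; rfl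
        have h9 : |(W.Δ : ℝ)| = n * rad W.Δ.natAbs := by
          rw [← h8]
          exact_mod_cast hn'
        refine ⟨W, hΔ, hc, rfl, hN, ?_, h4, h6⟩
        rw [h9, Real.rpow_add hr0, Real.rpow_one, mul_comm]
        apply mul_le_mul_of_nonneg_right _ hr0.le
        refine le_trans ?_ hZn.le
        exact Real.rpow_le_rpow hr0.le hN (by norm_num)
    have c1 : (R1.card : ℝ) ≤ ∑ n ∈ Ioc K M,
        C₃ * (X ^ ((5 : ℝ) / 6) * ff (1 / 12) n + √X + n * (2 * X ^ (A / 3) + 1)) := by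
      apply card_le_cover R1 (Ioc K M) (fun n q => q ∈ CN n A X)
      · intro q hq
        rw [hR1, mem_filter] at hq
        exact hq.2
      · intro n hn T _ hT
        rw [mem_Ioc] at hn
        exact ht3 X (X ^ (A / 3)) hX hY0 n (by omega) T (fun q hq => mem_CN_bounds hX0.le (hT q hq))
    have c3 : (R2.card : ℝ) ≤ C * X ^ a := by
      refine le_trans ?_ (hup X hX)
      have : R2.card ≤ (Crv (1 + 1 / 100) A X).ncard := by
        rw [← Set.ncard_coe_finset]
        apply Set.ncard_le_ncard _ (crv_finite _ A X hX)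
        intro q hq
        rw [mem_coe, hR2, mem_filter] at hq
        exact hq.2
      exact_mod_cast this
    have c4 : (Rs.card : ℝ) ≤ R1.card + R2.card := by
      exact_mod_cast (card_le_card hsub).trans (card_union_le _ _)
    have c5 : ∑ n ∈ Ioc K M,
        C₃ * (X ^ ((5 : ℝ) / 6) * ff (1 / 12) n + √X + n * (2 * X ^ (A / 3) + 1)) ≤
        C₃ * tl K * X ^ ((5 : ℝ) / 6) + 4 * C₃ * X ^ ((2 : ℝ) / 3) := by
      rw [← mul_sum, sum_add_distrib, sum_add_distrib, ← mul_sum, sum_const, ← sum_mul,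
        nsmul_eq_mul]
      have d1 : X ^ ((5 : ℝ) / 6) * ∑ n ∈ Ioc K M, ff (1 / 12) n ≤ X ^ ((5 : ℝ) / 6) * tl K :=
        mul_le_mul_of_nonneg_left (ff_tail (1 / 12) (by norm_num) K M) hXp.le
      have hcM : ((Ioc K M).card : ℝ) ≤ Z := by
        rw [Nat.card_Ioc]
        calc ((M - K : ℕ) : ℝ) ≤ (M : ℝ) := by exact_mod_cast Nat.sub_le _ _
          _ ≤ Z := hMZ
      have d2 : ((Ioc K M).card : ℝ) * √X ≤ X ^ ((2 : ℝ) / 3) := by
        calc ((Ioc K M).card : ℝ) * √X ≤ Z * √X := mul_le_mul_of_nonneg_right hcM (Real.sqrt_nonneg _)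
          _ = X ^ ((1 : ℝ) / 100 + 1 / 2) := by
            rw [hZdef, Real.sqrt_eq_rpow, ← Real.rpow_add hX0]
          _ ≤ _ := Real.rpow_le_rpow_of_exponent_le hX (by norm_num)
      have d3 : ∑ n ∈ Ioc K M, (n : ℝ) ≤ Z * Z := by
        calc ∑ n ∈ Ioc K M, (n : ℝ) ≤ ∑ n ∈ Ioc K M, Z := by
              refine sum_le_sum (fun n hn => ?_)
              rw [mem_Ioc] at hn
              exact le_trans (by exact_mod_cast hn.2) hMZ
          _ = ((Ioc K M).card : ℝ) * Z := by rw [sum_const, nsmul_eq_mul]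
          _ ≤ Z * Z := mul_le_mul_of_nonneg_right hcM hZ0.le
      have d4 : (∑ n ∈ Ioc K M, (n : ℝ)) * (2 * X ^ (A / 3) + 1) ≤ 3 * X ^ ((2 : ℝ) / 3) := by
        have hone : 1 ≤ X ^ ((5 : ℝ) / 9) := Real.one_le_rpow hX (by norm_num)
        calc (∑ n ∈ Ioc K M, (n : ℝ)) * (2 * X ^ (A / 3) + 1)
            ≤ (Z * Z) * (3 * X ^ ((5 : ℝ) / 9)) := by
              apply mul_le_mul d3 (by linarith) (by positivity) (by positivity)
          _ = 3 * (X ^ ((1 : ℝ) / 100) * X ^ ((1 : ℝ) / 100) * X ^ ((5 : ℝ) / 9)) := by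
              rw [hZdef]; ring
          _ = 3 * X ^ ((1 : ℝ) / 100 + 1 / 100 + 5 / 9) := by
              rw [← Real.rpow_add hX0, ← Real.rpow_add hX0]
          _ ≤ _ := by
              have : X ^ ((1 : ℝ) / 100 + 1 / 100 + 5 / 9) ≤ X ^ ((2 : ℝ) / 3) :=
                Real.rpow_le_rpow_of_exponent_le hX (by norm_num)
              linarith
      calc C₃ * (X ^ ((5 : ℝ) / 6) * ∑ n ∈ Ioc K M, ff (1 / 12) n + ((Ioc K M).card : ℝ) * √X +
            (∑ n ∈ Ioc K M, (n : ℝ)) * (2 * X ^ (A / 3) + 1))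
          ≤ C₃ * (X ^ ((5 : ℝ) / 6) * tl K + X ^ ((2 : ℝ) / 3) + 3 * X ^ ((2 : ℝ) / 3)) := by
            apply mul_le_mul_of_nonneg_left _ hC₃.le
            linarith
        _ = _ := by ring
    have c6 : |((CSt Sf A X).ncard : ℝ) - ∑ n ∈ range (K + 1),
        (if n ∈ Sf then ((CN n A X).ncard : ℝ) else 0)| ≤
        C₃ * tl K * X ^ ((5 : ℝ) / 6) + 4 * C₃ * X ^ ((2 : ℝ) / 3) + C * X ^ a := by
      have g1 : ((CSt Sf A X).ncard : ℝ) = ∑ n ∈ range (K + 1),
          (if n ∈ Sf then ((CN n A X).ncard : ℝ) else 0) + Rs.card := by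
        rw [hTScard, hcard, hUcard]
        push_cast
        ring
      rw [g1, add_sub_cancel_left, abs_of_nonneg (Nat.cast_nonneg _)]
      linarith
    have c7 : ∑ n ∈ range (K + 1),
        (if n ∈ Sf then ((CN n A X).ncard : ℝ) / X ^ ((5 : ℝ) / 6) else 0) =
        (∑ n ∈ range (K + 1), (if n ∈ Sf then ((CN n A X).ncard : ℝ) else 0)) /
          X ^ ((5 : ℝ) / 6) := by
      rw [sum_div]
      refine sum_congr rfl (fun n _ => ?_)
      split_ifs
      · rfl
      · rw [zero_div]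
    rw [c7, ← sub_div, abs_div, abs_of_pos hXp, div_le_iff₀ hXp]
    refine c6.trans (le_of_eq ?_)
    have e4 : X ^ (-(1 / 6 : ℝ)) * X ^ ((5 : ℝ) / 6) = X ^ ((2 : ℝ) / 3) := by
      rw [← Real.rpow_add hX0]
      norm_num
    have e5 : X ^ (-(5 / 6 - a)) * X ^ ((5 : ℝ) / 6) = X ^ a := by
      rw [← Real.rpow_add hX0]
      congr 1
      ring
    rw [← e4, ← e5]
    ring

/-! ### The constants are positive -/

theorem I0_pos : 0 < I0 := by
  have h1 := int_g1_le 1 (by norm_num)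
  have h2 : (1 : ℝ) ≤ ∫ x in (-1 : ℝ)..1, g 1 x := by
    have h3 : ∫ x in (0 : ℝ)..1, (1 : ℝ) ≤ ∫ x in (0 : ℝ)..1, g 1 x := by
      apply intervalIntegral.integral_mono_on (by norm_num)
      · exact intervalIntegrable_const
      · exact (g_cont 1).intervalIntegrable _ _
      · intro x hx
        unfold g gam
        have hx3 : 0 ≤ x ^ 3 := pow_nonneg hx.1 3
        have hx4 : x ^ 3 ≤ 1 := pow_le_one₀ hx.1 hx.2
        rw [Real.sqrt_eq_zero_of_nonpos (by linarith : x ^ 3 - 1 ≤ 0), sub_zero]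
        rw [show (1 : ℝ) = √1 by simp]
        apply Real.sqrt_le_sqrt
        simp
        exact hx3
    have h4 : 0 ≤ ∫ x in (-1 : ℝ)..0, g 1 x :=
      intervalIntegral.integral_nonneg (by norm_num) (fun x _ => g_nonneg zero_le_one x)
    have h5 : (∫ x in (-1 : ℝ)..0, g 1 x) + ∫ x in (0 : ℝ)..1, g 1 x = ∫ x in (-1 : ℝ)..1, g 1 x :=
      intervalIntegral.integral_add_adjacent_intervals ((g_cont 1).intervalIntegrable _ _)
        ((g_cont 1).intervalIntegrable _ _)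
    rw [intervalIntegral.integral_const] at h3
    norm_num at h3
    linarith
  linarith

theorem kap_pos : 0 < kap := by
  unfold kap
  have := I0_pos
  have := E0_pos
  positivity

theorem kap_eq : kap = 1 / √12 * I0 * E0 := by
  unfold kap
  have e : (1728 : ℝ) ^ (-(1 / 6 : ℝ)) = 1 / √12 := by
    have e2 : 1 / √(12 : ℝ) = (12 : ℝ) ^ (-(1 / 2 : ℝ)) := by
      rw [Real.rpow_neg (by norm_num), Real.sqrt_eq_rpow, ← one_div]
    rw [e2, show (1728 : ℝ) = (12 : ℝ) ^ (3 : ℝ) by norm_num, ← Real.rpow_mul (by norm_num)]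
    norm_num
  rw [e]

theorem wt_pos {n : ℕ} (hn : n ≠ 0) : 0 < wt n := by
  unfold wt w0
  have h0 : (0 : ℝ) < n := by exact_mod_cast Nat.pos_of_ne_zero hn
  have h1 : 0 < ∏ p ∈ n.primeFactors, wl p := by
    apply prod_pos
    intro p hp
    have h2 : (2 : ℝ) ≤ p := by exact_mod_cast (Nat.prime_of_mem_primeFactors hp).two_le
    unfold wl
    apply div_pos (by linarith)
    nlinarith
  positivity

end Pool.Agent.T2H27.Law
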