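import Pool.Agent.T2H27.Law.Tail
import Pool.Agent.T2H27.Arith
import Pool.Agent.H328R2.ABC.Roots
import Pool.Agent.H328R2.ABC.RadSum

/-!
# The tail over the values of `|Δ| / N`
-/

set_option autoImplicit false

namespace Pool.Agent.T2H27.Law

open Finset Filter Topology Pool.Agent.T2H27.Szp

open Pool.Agent.H328R2.ABC (rad roots)
open Pool.Agent.H328R2.ABC.RadSumAux (ff ff_one ff_mul ff_nonneg hasSum_ff local_le)

theorem ff_summable (ε : ℝ) (hε : 0 < ε) : Summable (ff ε) := by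
  have hs : Summable (fun n : ℕ => (n : ℝ) ^ (-(1 + ε))) :=
    Real.summable_nat_rpow.2 (by linarith)
  have hy1 : (2 : ℝ) ^ (-ε) < 1 := Real.rpow_lt_one_of_one_lt_of_neg (by norm_num) (by linarith)
  have hy2 : 0 ≤ (1 - (2 : ℝ) ^ (-ε))⁻¹ := inv_nonneg.2 (by linarith)
  refine summable_of_sum_le (c := Real.exp ((1 - (2 : ℝ) ^ (-ε))⁻¹ *
    ∑' n : ℕ, (n : ℝ) ^ (-(1 + ε)))) (fun n => ff_nonneg ε n) ?_
  intro u
  obtain ⟨N, hN⟩ : ∃ N : ℕ, ∀ n ∈ u, n < N := by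
    obtain ⟨M, hM⟩ := u.exists_nat_subset_range
    exact ⟨M, fun n hn => mem_range.1 (hM hn)⟩
  have h1 := (EulerProduct.summable_and_hasSum_smoothNumbers_prod_primesBelow_tsum
    (f := ff ε) (ff_one ε) (fun h => ff_mul ε h) (by
      intro p hp
      have := (hasSum_ff ε hε hp).summable
      simpa [Real.norm_of_nonneg (ff_nonneg ε _)] using this) N).2
  have h2 : HasSum ((Nat.smoothNumbers N).indicator (ff ε))
      (∏ p ∈ N.primesBelow, ∑' n : ℕ, ff ε (p ^ n)) := by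
    rw [← hasSum_subtype_iff_indicator]
    exact h1
  have h3 := sum_le_hasSum u (fun n _ => by
    apply Set.indicator_nonneg
    intro n _
    exact ff_nonneg ε n) h2
  have h4 : ∀ V ∈ u, ff ε V ≤ (Nat.smoothNumbers N).indicator (ff ε) V := by
    intro V hV
    rcases Nat.eq_zero_or_pos V with h0 | h0
    · subst h0
      have : ff ε 0 = 0 := by
        unfold ff
        rw [Nat.cast_zero, Real.zero_rpow (by linarith), zero_div]
      rw [this]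
      apply Set.indicator_nonneg
      intro n _
      exact ff_nonneg ε n
    · have hmem : V ∈ Nat.smoothNumbers N := by
        rw [Nat.mem_smoothNumbers']
        intro p _ hpV
        have := Nat.le_of_dvd h0 hpV
        have := hN V hV
        omega
      rw [Set.indicator_of_mem hmem]
  refine (sum_le_sum h4).trans (h3.trans ?_)
  calc ∏ p ∈ N.primesBelow, ∑' n : ℕ, ff ε (p ^ n)
      ≤ ∏ p ∈ N.primesBelow, Real.exp ((1 - (2 : ℝ) ^ (-ε))⁻¹ * (p : ℝ) ^ (-(1 + ε))) := by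
        apply Finset.prod_le_prod
        · intro p _
          exact tsum_nonneg fun n => ff_nonneg ε _
        · intro p hp
          exact local_le ε hε (Nat.prime_of_mem_primesBelow hp)
    _ = Real.exp (∑ p ∈ N.primesBelow, (1 - (2 : ℝ) ^ (-ε))⁻¹ * (p : ℝ) ^ (-(1 + ε))) := by
        rw [Real.exp_sum]
    _ ≤ _ := by
        apply Real.exp_le_exp.2
        rw [← Finset.mul_sum]
        apply mul_le_mul_of_nonneg_left _ hy2
        exact hs.sum_le_tsum _ (fun n _ => by positivity)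

theorem ff_tail (ε : ℝ) (hε : 0 < ε) (K M : ℕ) :
    ∑ n ∈ Ioc K M, ff ε n ≤ ∑' n : ℕ, ff ε (n + (K + 1)) := by
  have hs : Summable (fun n : ℕ => ff ε (n + (K + 1))) :=
    (summable_nat_add_iff (K + 1)).2 (ff_summable ε hε)
  have h1 : ∑ n ∈ Ioc K M, ff ε n = ∑ n ∈ range (M - K), ff ε (n + (K + 1)) := by
    symm
    refine sum_bij (fun n _ => n + (K + 1)) ?_ ?_ ?_ ?_
    · intro n hn
      rw [mem_range] at hn
      rw [mem_Ioc]
      omega
    · intro a _ b _ h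
      omega
    · intro b hb
      rw [mem_Ioc] at hb
      exact ⟨b - (K + 1), by rw [mem_range]; omega, by omega⟩
    · intro n _
      rfl
  rw [h1]
  exact hs.sum_le_tsum _ (fun n _ => ff_nonneg ε _)

theorem ff_tail_tendsto (ε : ℝ) : Tendsto (fun K : ℕ => ∑' n : ℕ, ff ε (n + (K + 1))) atTop (𝓝 0) :=
  (tendsto_sum_nat_add (ff ε)).comp (tendsto_add_atTop_nat 1)

theorem roots_fin (ε : ℝ) (hε : 0 < ε) : ∃ C : ℝ, 0 < C ∧ ∀ P : ℕ, 1 ≤ P → ∀ x : ℤ,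
    ∃ R : Finset ℤ, (R.card : ℝ) ≤ C * (P : ℝ) ^ ε ∧ (IsCoprime x (P : ℤ) → ∀ y : ℤ,
      (P : ℤ) ∣ x ^ 3 - y ^ 2 → ∃ r ∈ R, (P : ℤ) ∣ r - y) := by
  classical
  obtain ⟨C, hC, h⟩ := roots 2 (by norm_num) ε hε
  refine ⟨C, hC, fun P hP x => ?_⟩
  haveI : NeZero P := ⟨by omega⟩
  by_cases hx : IsCoprime x (P : ℤ)
  · set u : ZMod P := (x : ZMod P) ^ 3 with hu
    have hux : IsUnit ((x : ℤ) : ZMod P) := by
      obtain ⟨a, b, hab⟩ := hx
      have h1 : ((a * x + b * P : ℤ) : ZMod P) = 1 := by rw [hab]; simp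
      push_cast at h1
      rw [ZMod.natCast_self, mul_zero, add_zero] at h1
      exact IsUnit.of_mul_eq_one _ (by rw [mul_comm]; exact h1)
    have hu' : IsUnit u := hux.pow 3
    have hfin : ({t : ZMod P | t ^ 2 = u} : Set (ZMod P)).Finite := Set.toFinite _
    refine ⟨hfin.toFinset.image (fun t => (t.val : ℤ)), ?_, ?_⟩
    · have h1 := h P hP u hu'
      rw [Set.ncard_eq_toFinset_card _ hfin] at h1
      refine le_trans ?_ h1
      exact_mod_cast card_image_le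
    · intro _ y hy
      refine ⟨((y : ZMod P).val : ℤ), ?_, ?_⟩
      · rw [mem_image]
        refine ⟨(y : ZMod P), ?_, rfl⟩
        rw [Set.Finite.mem_toFinset, Set.mem_setOf_eq, hu]
        have h1 := (ZMod.intCast_zmod_eq_zero_iff_dvd (x ^ 3 - y ^ 2) P).2 hy
        push_cast at h1
        exact (sub_eq_zero.1 h1).symm
      · rw [← ZMod.intCast_eq_intCast_iff_dvd_sub]
        simp
  · refine ⟨∅, ?_, fun h => absurd h hx⟩
    rw [card_empty, Nat.cast_zero]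
    positivity

theorem P_dvd {m n : ℕ} (hm : m ≠ 0) (h : m = n * rad m) : n * rad n ∣ m := by
  have h1 : rad n ∣ rad m := by
    apply prod_dvd_prod_of_subset
    apply Nat.primeFactors_mono _ hm
    exact ⟨_, h⟩
  conv_rhs => rw [h]
  exact Nat.mul_dvd_mul_left n h1

/-- the bound for one value of `|Δ| / N` -/
theorem tail3 : ∃ C : ℝ, 0 < C ∧ ∀ X Y : ℝ, 1 ≤ X → 0 ≤ Y → ∀ n : ℕ, 1 ≤ n →
    ∀ S : Finset (ℤ × ℤ), (∀ q ∈ S, |(q.1 : ℝ)| ≤ Y ∧
      |(q.1 : ℝ) ^ 3 - (q.2 : ℝ) ^ 2| ≤ 1728 * n * X ∧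
      IsCoprime q.1 ((n * rad n : ℕ) : ℤ) ∧ ((n * rad n : ℕ) : ℤ) ∣ q.1 ^ 3 - q.2 ^ 2) →
    (S.card : ℝ) ≤ C * (X ^ ((5 : ℝ) / 6) * ff (1 / 12) n + √X + n * (2 * Y + 1)) := by
  obtain ⟨C₀, hC₀, hroots⟩ := roots_fin (1 / 24) (by norm_num)
  have hI := I0_nonneg
  set c : ℝ := 2 * (1728 ^ ((5 : ℝ) / 6) * I0) + 12 * √(2 * 1728) + 2 with hc
  have hc0 : 0 < c := by
    rw [hc]
    positivity
  refine ⟨C₀ * c, by positivity, ?_⟩
  intro X Y hX hY n hn S hS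
  have hX0 : 0 < X := by linarith
  have hn0 : (0 : ℝ) < n := by exact_mod_cast hn
  have hn1 : (1 : ℝ) ≤ n := by exact_mod_cast hn
  set P : ℕ := n * rad n with hP
  have hrad : 0 < rad n := rad_pos n
  have hP0 : 0 < P := Nat.mul_pos hn hrad
  choose R hR1 hR2 using (hroots P hP0)
  have h1 := cntA (D := 1728 * n * X) (Y := Y) (by positivity) hY (m := P) hP0
    (ρ := C₀ * (P : ℝ) ^ ((1 : ℝ) / 24)) R (fun x => hR1 x) S (by
      intro q hq
      obtain ⟨a1, a2, a3, a4⟩ := hS q hq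
      exact ⟨a1, a2, hR2 q.1 a3 q.2 a4⟩)
  refine h1.trans ?_
  have hrn : (rad n : ℝ) ≤ n := by
    exact_mod_cast Nat.le_of_dvd hn (rad_dvd n)
  have hr0 : (0 : ℝ) < rad n := by exact_mod_cast hrad
  have hr1 : (1 : ℝ) ≤ rad n := by exact_mod_cast hrad
  have hPR : (P : ℝ) = n * rad n := by rw [hP]; push_cast; rfl
  -- the power of `P`
  have hPe : (P : ℝ) ^ ((1 : ℝ) / 24) ≤ (n : ℝ) ^ ((1 : ℝ) / 12) := by
    calc (P : ℝ) ^ ((1 : ℝ) / 24) ≤ ((n : ℝ) ^ 2) ^ ((1 : ℝ) / 24) := by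
          apply Real.rpow_le_rpow (by positivity) _ (by norm_num)
          rw [hPR, sq]
          exact mul_le_mul_of_nonneg_left hrn hn0.le
      _ = (n : ℝ) ^ ((1 : ℝ) / 12) := by
          rw [← Real.rpow_natCast, ← Real.rpow_mul hn0.le]
          norm_num
  have e1 : (1728 * (n : ℝ) * X) ^ ((5 : ℝ) / 6) =
      1728 ^ ((5 : ℝ) / 6) * (n : ℝ) ^ ((5 : ℝ) / 6) * X ^ ((5 : ℝ) / 6) := by
    rw [Real.mul_rpow (by positivity) hX0.le, Real.mul_rpow (by norm_num) hn0.le]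
  have e2 : √(2 * (1728 * (n : ℝ) * X)) = √(2 * 1728) * √n * √X := by
    rw [← Real.sqrt_mul (by norm_num), ← Real.sqrt_mul (by positivity)]
    congr 1
    ring
  rw [e1, e2]
  -- first term
  have t1 : (n : ℝ) ^ ((1 : ℝ) / 12) * (2 / P * (1728 ^ ((5 : ℝ) / 6) * (n : ℝ) ^ ((5 : ℝ) / 6) *
      X ^ ((5 : ℝ) / 6) * I0)) =
      2 * (1728 ^ ((5 : ℝ) / 6) * I0) * (X ^ ((5 : ℝ) / 6) * ff (1 / 12) n) := by
    unfold ff
    rw [hPR]
    have e3 : (n : ℝ) ^ (-(1 / 12 : ℝ)) = (n : ℝ) ^ ((1 : ℝ) / 12) * (n : ℝ) ^ ((5 : ℝ) / 6) / n := by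
      rw [← Real.rpow_add hn0, ← Real.rpow_sub_one hn0.ne']
      congr 1
      norm_num
    rw [e3]
    field_simp
  have t2 : (n : ℝ) ^ ((1 : ℝ) / 12) * (2 / P * (6 * (√(2 * 1728) * √n * √X))) ≤
      12 * √(2 * 1728) * √X := by
    have h2 : (n : ℝ) ^ ((1 : ℝ) / 12) * √n ≤ P := by
      rw [hPR, Real.sqrt_eq_rpow, ← Real.rpow_add hn0]
      calc (n : ℝ) ^ ((1 : ℝ) / 12 + 1 / 2) ≤ (n : ℝ) ^ (1 : ℝ) :=
            Real.rpow_le_rpow_of_exponent_le hn1 (by norm_num)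
        _ = n * 1 := by rw [Real.rpow_one, mul_one]
        _ ≤ n * rad n := mul_le_mul_of_nonneg_left hr1 hn0.le
    have hPp : (0 : ℝ) < P := by exact_mod_cast hP0
    have h3 : (n : ℝ) ^ ((1 : ℝ) / 12) * √n / P ≤ 1 := by
      rw [div_le_one hPp]
      exact h2
    calc (n : ℝ) ^ ((1 : ℝ) / 12) * (2 / P * (6 * (√(2 * 1728) * √n * √X)))
        = 12 * √(2 * 1728) * √X * ((n : ℝ) ^ ((1 : ℝ) / 12) * √n / P) := by ring
      _ ≤ 12 * √(2 * 1728) * √X * 1 := mul_le_mul_of_nonneg_left h3 (by positivity)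
      _ = _ := by ring
  have t3 : (n : ℝ) ^ ((1 : ℝ) / 12) * (2 * (2 * Y + 1)) ≤ 2 * (n * (2 * Y + 1)) := by
    have : (n : ℝ) ^ ((1 : ℝ) / 12) ≤ n := by
      calc (n : ℝ) ^ ((1 : ℝ) / 12) ≤ (n : ℝ) ^ (1 : ℝ) :=
            Real.rpow_le_rpow_of_exponent_le hn1 (by norm_num)
        _ = n := Real.rpow_one _
    nlinarith
  have hff := ff_nonneg (1 / 12) n
  calc C₀ * (P : ℝ) ^ ((1 : ℝ) / 24) * (2 / P * (1728 ^ ((5 : ℝ) / 6) * (n : ℝ) ^ ((5 : ℝ) / 6) *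
        X ^ ((5 : ℝ) / 6) * I0 + 6 * (√(2 * 1728) * √n * √X)) + 2 * (2 * Y + 1))
      ≤ C₀ * (n : ℝ) ^ ((1 : ℝ) / 12) * (2 / P * (1728 ^ ((5 : ℝ) / 6) * (n : ℝ) ^ ((5 : ℝ) / 6) *
        X ^ ((5 : ℝ) / 6) * I0 + 6 * (√(2 * 1728) * √n * √X)) + 2 * (2 * Y + 1)) := by
        gcongr
    _ = C₀ * ((n : ℝ) ^ ((1 : ℝ) / 12) * (2 / P * (1728 ^ ((5 : ℝ) / 6) * (n : ℝ) ^ ((5 : ℝ) / 6) *
        X ^ ((5 : ℝ) / 6) * I0)) + (n : ℝ) ^ ((1 : ℝ) / 12) * (2 / P * (6 * (√(2 * 1728) * √n * √X)))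
        + (n : ℝ) ^ ((1 : ℝ) / 12) * (2 * (2 * Y + 1))) := by ring
    _ ≤ C₀ * (c * (X ^ ((5 : ℝ) / 6) * ff (1 / 12) n) + c * √X + c * (n * (2 * Y + 1))) := by
        rw [t1]
        have s1 : 2 * (1728 ^ ((5 : ℝ) / 6) * I0) * (X ^ ((5 : ℝ) / 6) * ff (1 / 12) n) ≤
            c * (X ^ ((5 : ℝ) / 6) * ff (1 / 12) n) := by
          apply mul_le_mul_of_nonneg_right _ (by positivity)
          rw [hc]
          have : 0 ≤ √(2 * 1728 : ℝ) := Real.sqrt_nonneg _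
          linarith
        have s2 : 12 * √(2 * 1728) * √X ≤ c * √X := by
          apply mul_le_mul_of_nonneg_right _ (by positivity)
          rw [hc]
          have : 0 ≤ 2 * ((1728 : ℝ) ^ ((5 : ℝ) / 6) * I0) := by positivity
          linarith
        have s3 : 2 * ((n : ℝ) * (2 * Y + 1)) ≤ c * (n * (2 * Y + 1)) := by
          apply mul_le_mul_of_nonneg_right _ (by positivity)
          rw [hc]
          have : 0 ≤ 2 * ((1728 : ℝ) ^ ((5 : ℝ) / 6) * I0) := by positivity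
          have : 0 ≤ √(2 * 1728 : ℝ) := Real.sqrt_nonneg _
          linarith
        have := (t2.trans s2)
        have := (t3.trans s3)
        gcongr
    _ = _ := by ring

end Pool.Agent.T2H27.Law
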