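import Pool.Agent.T2H27.Law.Prod
import Pool.Agent.T2H27.Law.Tail3
import Pool.Agent.T2H27.ByCond

/-!
# Curves with a given value of `|Δ| / N`
-/

set_option autoImplicit false

namespace Pool.Agent.T2H27.Law

open Finset Filter Topology Pool.Agent.T2H27.Szp

open Pool.Agent.H328R2.ABC (rad)

/-- semistable curves with `N ≤ X`, `|Δ| = n N`, height at most `X ^ A` -/
def CN (n : ℕ) (A X : ℝ) : Set (ℤ × ℤ) :=
  {q | ∃ W : WeierstrassCurve ℤ, W.Δ ≠ 0 ∧ IsCoprime W.c₄ W.Δ ∧ q = (W.c₄, W.c₆) ∧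
    (rad W.Δ.natAbs : ℝ) ≤ X ∧ W.Δ.natAbs = n * rad W.Δ.natAbs ∧
    |(W.c₄ : ℝ)| ^ 3 ≤ X ^ A ∧ (W.c₆ : ℝ) ^ 2 ≤ X ^ A}

/-- semistable curves with `N ≤ X`, height at most `X ^ A` -/
def CT (A X : ℝ) : Set (ℤ × ℤ) :=
  {q | ∃ W : WeierstrassCurve ℤ, W.Δ ≠ 0 ∧ IsCoprime W.c₄ W.Δ ∧ q = (W.c₄, W.c₆) ∧
    (rad W.Δ.natAbs : ℝ) ≤ X ∧ |(W.c₄ : ℝ)| ^ 3 ≤ X ^ A ∧ (W.c₆ : ℝ) ^ 2 ≤ X ^ A}

theorem CT_eq (A X : ℝ) : CT A X = Crv 1 A X := by
  ext q
  constructor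
  · rintro ⟨W, h1, h2, h3, h4, h5, h6⟩
    refine ⟨W, h1, h2, h3, h4, ?_, h5, h6⟩
    rw [Real.rpow_one]
    have h7 : rad W.Δ.natAbs ≤ W.Δ.natAbs := Nat.le_of_dvd (Int.natAbs_pos.2 h1) (rad_dvd _)
    have h8 : ((W.Δ.natAbs : ℕ) : ℝ) = |(W.Δ : ℝ)| := by
      rw [Nat.cast_natAbs]; push_cast; rfl
    rw [← h8]
    exact_mod_cast h7
  · rintro ⟨W, h1, h2, h3, h4, -, h5, h6⟩
    exact ⟨W, h1, h2, h3, h4, h5, h6⟩

theorem CT_finite (A X : ℝ) (hX : 1 ≤ X) : (CT A X).Finite := by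
  rw [CT_eq]
  exact crv_finite 1 A X hX

theorem CN_sub (n : ℕ) (A X : ℝ) : CN n A X ⊆ CT A X := by
  rintro q ⟨W, h1, h2, h3, h4, -, h5, h6⟩
  exact ⟨W, h1, h2, h3, h4, h5, h6⟩

theorem CN_finite (n : ℕ) (A X : ℝ) (hX : 1 ≤ X) : (CN n A X).Finite :=
  (CT_finite A X hX).subset (CN_sub n A X)

/-! ### The local conditions -/

/-- the local condition -/
def Lc (p e : ℕ) (c D : ℤ) : Prop :=
  (1 ≤ e → (p : ℤ) ^ (e + 1) ∣ D) ∧ ¬ (p : ℤ) ^ (e + 2) ∣ D ∧ ¬ ((p : ℤ) ∣ c ∧ (p : ℤ) ∣ D)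

theorem pow_dvd_int {p k : ℕ} {D : ℤ} : (p : ℤ) ^ k ∣ D ↔ p ^ k ∣ D.natAbs := by
  rw [← Int.natCast_dvd]
  push_cast
  rfl

theorem rad_fac {m p : ℕ} (hm : m ≠ 0) (hp : p.Prime) :
    (rad m).factorization p = if p ∣ m then 1 else 0 := by
  have h1 : (rad m).factorization p = ∑ q ∈ m.primeFactors, q.factorization p := by
    unfold rad
    rw [Nat.factorization_prod (fun q hq => (Nat.prime_of_mem_primeFactors hq).ne_zero)]
    simp
  rw [h1]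
  split_ifs with h
  · rw [sum_eq_single p]
    · exact hp.factorization_self
    · intro q hq hne
      rw [(Nat.prime_of_mem_primeFactors hq).factorization, Finsupp.single_apply, if_neg hne]
    · intro h2
      exact absurd (Nat.mem_primeFactors.2 ⟨hp, h, hm⟩) h2
  · apply sum_eq_zero
    intro q hq
    have : q ≠ p := by
      rintro rfl
      exact h (Nat.dvd_of_mem_primeFactors hq)
    rw [(Nat.prime_of_mem_primeFactors hq).factorization, Finsupp.single_apply, if_neg this]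

theorem Lc_of {n : ℕ} {c D : ℤ} (hn : n ≠ 0) (hD : D ≠ 0) (hc : IsCoprime c D)
    (h : D.natAbs = n * rad D.natAbs) {p : ℕ} (hp : p.Prime) : Lc p (n.factorization p) c D := by
  have hm : D.natAbs ≠ 0 := Int.natAbs_ne_zero.2 hD
  have hr : rad D.natAbs ≠ 0 := (rad_pos _).ne'
  have h1 : D.natAbs.factorization p = n.factorization p + if p ∣ D.natAbs then 1 else 0 := by
    conv_lhs => rw [h]
    rw [Nat.factorization_mul hn hr, Finsupp.add_apply, rad_fac hm hp]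
  refine ⟨?_, ?_, ?_⟩
  · intro he
    rw [pow_dvd_int, hp.pow_dvd_iff_le_factorization hm, h1, if_pos]
    have h2 : p ∣ n := by
      by_contra h3
      rw [Nat.factorization_eq_zero_of_not_dvd h3] at he
      omega
    rw [h]
    exact Dvd.dvd.mul_right h2 _
  · rw [pow_dvd_int, hp.pow_dvd_iff_le_factorization hm, h1]
    split_ifs <;> omega
  · rintro ⟨h2, h3⟩
    exact (Nat.prime_iff_prime_int.1 hp).not_isUnit (hc.isUnit_of_dvd' h2 h3)

theorem eq_of_Lc {n w : ℕ} {c D : ℤ} (hn : n ≠ 0) (hD : D ≠ 0) (hw : n < w)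
    (h : ∀ p ∈ w.primesBelow, Lc p (n.factorization p) c D)
    (h2 : ∀ p : ℕ, p.Prime → w ≤ p → ¬ (p : ℤ) ^ 2 ∣ D) : D.natAbs = n * rad D.natAbs := by
  have hm : D.natAbs ≠ 0 := Int.natAbs_ne_zero.2 hD
  have hr : rad D.natAbs ≠ 0 := (rad_pos _).ne'
  apply Nat.eq_of_factorization_eq hm (Nat.mul_ne_zero hn hr)
  intro p
  by_cases hp : p.Prime
  · rw [Nat.factorization_mul hn hr, Finsupp.add_apply, rad_fac hm hp]
    have hle : ∀ k : ℕ, p ^ k ∣ D.natAbs ↔ k ≤ D.natAbs.factorization p := fun k =>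
      hp.pow_dvd_iff_le_factorization hm
    have h1 := hle 1
    rw [pow_one] at h1
    rcases lt_or_ge p w with hpw | hpw
    · obtain ⟨a1, a2, -⟩ := h p (Nat.mem_primesBelow.2 ⟨hpw, hp⟩)
      rw [pow_dvd_int, hle] at a1 a2
      split_ifs with h3
      · have := h1.1 h3
        by_cases he : 1 ≤ n.factorization p
        · have := a1 he
          omega
        · omega
      · have : ¬ 1 ≤ D.natAbs.factorization p := fun h4 => h3 (h1.2 h4)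
        by_cases he : 1 ≤ n.factorization p
        · have := a1 he
          omega
        · omega
    · have a2 := h2 p hp hpw
      rw [pow_dvd_int, hle] at a2
      have a3 : n.factorization p = 0 := by
        apply Nat.factorization_eq_zero_of_not_dvd
        intro h4
        have := Nat.le_of_dvd (Nat.pos_of_ne_zero hn) h4
        omega
      split_ifs with h3
      · have := h1.1 h3
        omega
      · have : ¬ 1 ≤ D.natAbs.factorization p := fun h4 => h3 (h1.2 h4)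
        omega
  · rw [Nat.factorization_eq_zero_of_not_prime _ hp, Nat.factorization_eq_zero_of_not_prime _ hp]

theorem isCoprime_of {c D : ℤ} (hD : D ≠ 0)
    (h : ∀ p : ℕ, p.Prime → ¬ ((p : ℤ) ∣ c ∧ (p : ℤ) ∣ D)) : IsCoprime c D := by
  rw [Int.isCoprime_iff_gcd_eq_one]
  by_contra hne
  obtain ⟨p, hp, hpd⟩ := Nat.exists_prime_and_dvd hne
  have h1 : (p : ℤ) ∣ c := (Int.natCast_dvd_natCast.2 hpd).trans (Int.gcd_dvd_left c D)
  have h2 : (p : ℤ) ∣ D := (Int.natCast_dvd_natCast.2 hpd).trans (Int.gcd_dvd_right c D)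
  exact h p hp ⟨h1, h2⟩

/-- a repeated prime factor makes the radical small -/
theorem rad_mul_le {D : ℤ} (hD : D ≠ 0) {p : ℕ} (hp : p.Prime) (h : (p : ℤ) ^ 2 ∣ D) :
    rad D.natAbs * p ≤ D.natAbs := by
  have hm : D.natAbs ≠ 0 := Int.natAbs_ne_zero.2 hD
  rw [pow_dvd_int] at h
  obtain ⟨k, hk⟩ := h
  have hk0 : k ≠ 0 := by
    rintro rfl
    exact hm (by rw [hk, mul_zero])
  have h1 : rad D.natAbs ∣ p * k := by
    apply rad_dvd_of
    intro q hq hqD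
    rw [hk] at hqD
    rcases (hq.dvd_mul).1 hqD with h2 | h2
    · exact Dvd.dvd.mul_right (hq.dvd_of_dvd_pow h2) _
    · exact Dvd.dvd.mul_left h2 _
  have h2 : rad D.natAbs ≤ p * k :=
    Nat.le_of_dvd (Nat.mul_pos hp.pos (Nat.pos_of_ne_zero hk0)) h1
  calc rad D.natAbs * p ≤ p * k * p := Nat.mul_le_mul_right _ h2
    _ = D.natAbs := by rw [hk]; ring

/-! ### The set with the conditions below `w` -/

/-- the pairs with the conditions at the primes below `w` -/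
noncomputable def FF (n w : ℕ) (A X : ℝ) : Finset (ℤ × ℤ) :=
  TT.biUnion (fun τ => (CC τ (Md w.primesBelow n.factorization)
    (fun u v => ∀ p ∈ w.primesBelow, Lp τ p (n.factorization p) u v)
    ((1728 * n) * X) (X ^ A)).image (fun p => ((WF τ p.1 p.2).c₄, (WF τ p.1 p.2).c₆)))

theorem card_FF (n w : ℕ) (A X : ℝ) : (FF n w A X).card = sw n w A X := by
  unfold FF sw
  rw [card_biUnion]
  · refine sum_congr rfl (fun τ hτ => ?_)
    rw [card_image_of_injOn]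
    intro a _ b _ h
    simp only [Prod.mk.injEq] at h
    obtain ⟨-, h1, h2⟩ := WF_inj hτ hτ h.1 h.2
    exact Prod.ext h1 h2
  · intro τ hτ τ' hτ' hne
    rw [Function.onFun, disjoint_left]
    intro q hq hq'
    rw [mem_image] at hq hq'
    obtain ⟨a, _, rfl⟩ := hq
    obtain ⟨b, _, h⟩ := hq'
    simp only [Prod.mk.injEq] at h
    exact hne (WF_inj hτ hτ' h.1.symm h.2.symm).1

theorem mem_FF {n w : ℕ} {A X : ℝ} (hX : 0 ≤ X) {q : ℤ × ℤ} : q ∈ FF n w A X ↔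
    ∃ W : WeierstrassCurve ℤ, q = (W.c₄, W.c₆) ∧ |(W.c₄ : ℝ)| ^ 3 ≤ X ^ A ∧
      (W.c₆ : ℝ) ^ 2 ≤ X ^ A ∧ |(W.c₄ : ℝ) ^ 3 - (W.c₆ : ℝ) ^ 2| ≤ 1728 * n * X ∧
      ∀ p ∈ w.primesBelow, Lc p (n.factorization p) W.c₄ W.Δ := by
  have hT : 0 ≤ X ^ A := Real.rpow_nonneg hX _
  have hP : ∀ p ∈ w.primesBelow, p.Prime := fun p hp => Nat.prime_of_mem_primesBelow hp
  unfold FF
  rw [mem_biUnion]
  constructor
  · rintro ⟨τ, hτ, hq⟩
    rw [mem_image] at hq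
    obtain ⟨a, ha, rfl⟩ := hq
    rw [mem_CC (Md_pos hP _) (prod_dens τ hτ n.factorization w.primesBelow hP).1 hT] at ha
    obtain ⟨⟨h1, h2, h3⟩, h4⟩ := ha
    exact ⟨WF τ a.1 a.2, rfl, h1, h2, h3, h4⟩
  · rintro ⟨W, rfl, h1, h2, h3, h4⟩
    obtain ⟨τ, hτ, u, v, e4, e6, eD⟩ := reduce W
    refine ⟨τ, hτ, ?_⟩
    rw [mem_image]
    refine ⟨(u, v), ?_, by simp only [e4, e6]⟩
    rw [mem_CC (Md_pos hP _) (prod_dens τ hτ n.factorization w.primesBelow hP).1 hT]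
    refine ⟨⟨?_, ?_, ?_⟩, ?_⟩
    · simp only [e4]; exact h1
    · simp only [e6]; exact h2
    · simp only [e4, e6]; exact h3
    · intro p hp
      have h5 := h4 p hp
      rw [← e4, ← eD] at h5
      exact h5

theorem CN_sub_FF {n w : ℕ} {A X : ℝ} (hn : n ≠ 0) (hX : 0 ≤ X) :
    CN n A X ⊆ (FF n w A X : Set (ℤ × ℤ)) := by
  rintro q ⟨W, hΔ, hc, rfl, hN, hn2, h4, h6⟩
  rw [mem_coe, mem_FF hX]
  refine ⟨W, rfl, h4, h6, ?_, ?_⟩
  · have hrel : 1728 * W.Δ = W.c₄ ^ 3 - W.c₆ ^ 2 := W.c_relation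
    have hrelR : 1728 * (W.Δ : ℝ) = (W.c₄ : ℝ) ^ 3 - (W.c₆ : ℝ) ^ 2 := by exact_mod_cast hrel
    rw [← hrelR, abs_mul, abs_of_pos (by norm_num : (0 : ℝ) < 1728)]
    have h8 : ((W.Δ.natAbs : ℕ) : ℝ) = |(W.Δ : ℝ)| := by
      rw [Nat.cast_natAbs]; push_cast; rfl
    rw [← h8, hn2]
    push_cast
    have : (n : ℝ) * (rad W.Δ.natAbs : ℝ) ≤ n * X :=
      mul_le_mul_of_nonneg_left hN (Nat.cast_nonneg _)
    linarith
  · intro p hp
    exact Lc_of hn hΔ hc hn2 (Nat.prime_of_mem_primesBelow hp)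

/-- the remaining pairs -/
theorem FF_sub {n m : ℕ} {A X η : ℝ} (hn : n ≠ 0) (hm : n ≤ m) (hm2 : 2 ≤ m) (hX : 1 ≤ X)
    (hη : 0 ≤ η) (hXn : (n : ℝ) ≤ X ^ η) {q : ℤ × ℤ} (hq : q ∈ FF n (m + 1) A X)
    (hq2 : q ∉ CN n A X) :
    (∃ p : ℕ, m < p ∧ (p : ℤ) ∣ q.1 ∧ (p : ℤ) ∣ q.2) ∨
    (∃ p : ℕ, p.Prime ∧ m < p ∧ (p : ℝ) ≤ X ^ η ∧ ¬ (p : ℤ) ∣ q.1 ∧
        (p : ℤ) ^ 2 ∣ q.1 ^ 3 - q.2 ^ 2) ∨ q ∈ Crv (1 + η) A X := by
  have hX0 : 0 < X := by linarith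
  rw [mem_FF hX0.le] at hq
  obtain ⟨W, rfl, h4, h6, hD, hL⟩ := hq
  have hrel : 1728 * W.Δ = W.c₄ ^ 3 - W.c₆ ^ 2 := W.c_relation
  have hrelR : 1728 * (W.Δ : ℝ) = (W.c₄ : ℝ) ^ 3 - (W.c₆ : ℝ) ^ 2 := by exact_mod_cast hrel
  have h8 : ((W.Δ.natAbs : ℕ) : ℝ) = |(W.Δ : ℝ)| := by
    rw [Nat.cast_natAbs]; push_cast; rfl
  have hΔ : W.Δ ≠ 0 := by
    intro h0
    have := hL 2 (Nat.mem_primesBelow.2 ⟨by omega, Nat.prime_two⟩)
    rw [h0] at this
    exact this.2.1 (dvd_zero _)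
  have hDn : |(W.Δ : ℝ)| ≤ n * X := by
    rw [← hrelR, abs_mul, abs_of_pos (by norm_num : (0 : ℝ) < 1728)] at hD
    linarith
  by_cases hA : ∃ p : ℕ, p.Prime ∧ m < p ∧ (p : ℤ) ∣ W.c₄ ∧ (p : ℤ) ∣ W.Δ
  · left
    obtain ⟨p, hp, hmp, hp4, hpD⟩ := hA
    refine ⟨p, hmp, hp4, ?_⟩
    have h7 : (p : ℤ) ∣ W.c₆ ^ 2 := by
      have e : W.c₆ ^ 2 = W.c₄ ^ 3 - 1728 * W.Δ := by linarith
      rw [e]
      exact dvd_sub (dvd_pow hp4 (by norm_num)) (Dvd.dvd.mul_left hpD _)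
    exact (Nat.prime_iff_prime_int.1 hp).dvd_of_dvd_pow h7
  · right
    push Not at hA
    have hcop : IsCoprime W.c₄ W.Δ := by
      apply isCoprime_of hΔ
      rintro p hp ⟨a, b⟩
      rcases lt_or_ge m p with h | h
      · exact hA p hp h a b
      · exact (hL p (Nat.mem_primesBelow.2 ⟨by omega, hp⟩)).2.2 ⟨a, b⟩
    by_cases hB : ∃ p : ℕ, p.Prime ∧ m < p ∧ (p : ℤ) ^ 2 ∣ W.Δ
    · obtain ⟨p, hp, hmp, hpD⟩ := hB
      rcases le_or_gt (p : ℝ) (X ^ η) with hpZ | hpZ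
      · left
        refine ⟨p, hp, hmp, hpZ, ?_, ?_⟩
        · intro h
          exact hA p hp hmp h ((dvd_pow_self _ (by norm_num)).trans hpD)
        · rw [← hrel]
          exact Dvd.dvd.mul_left hpD _
      · right
        have h1 : (rad W.Δ.natAbs : ℝ) * p ≤ |(W.Δ : ℝ)| := by
          rw [← h8]
          exact_mod_cast rad_mul_le hΔ hp hpD
        have hr0 : (0 : ℝ) < rad W.Δ.natAbs := by exact_mod_cast rad_pos _
        have h2 : (rad W.Δ.natAbs : ℝ) * X ^ η ≤ |(W.Δ : ℝ)| :=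
          (mul_le_mul_of_nonneg_left hpZ.le hr0.le).trans h1
        have hXη : 0 < X ^ η := Real.rpow_pos_of_pos hX0 _
        have h3 : (rad W.Δ.natAbs : ℝ) ≤ X := by
          have h5 : (rad W.Δ.natAbs : ℝ) * X ^ η ≤ X * X ^ η := by
            calc (rad W.Δ.natAbs : ℝ) * X ^ η ≤ |(W.Δ : ℝ)| := h2
              _ ≤ n * X := hDn
              _ ≤ X ^ η * X := mul_le_mul_of_nonneg_right hXn hX0.le
              _ = _ := mul_comm _ _
          exact le_of_mul_le_mul_right h5 hXη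
        refine ⟨W, hΔ, hcop, rfl, h3, ?_, h4, h6⟩
        rw [Real.rpow_add hr0, Real.rpow_one]
        refine le_trans ?_ h2
        exact mul_le_mul_of_nonneg_left (Real.rpow_le_rpow hr0.le h3 hη) hr0.le
    · exfalso
      push Not at hB
      apply hq2
      have h1 := eq_of_Lc hn hΔ (show n < m + 1 by omega) hL (fun p hp hmp => hB p hp (by omega))
      refine ⟨W, hΔ, hcop, rfl, ?_, h1, h4, h6⟩
      have hn0 : (0 : ℝ) < n := by exact_mod_cast Nat.pos_of_ne_zero hn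
      have h2 : (n : ℝ) * (rad W.Δ.natAbs : ℝ) ≤ n * X := by
        have h3 : ((n * rad W.Δ.natAbs : ℕ) : ℝ) = |(W.Δ : ℝ)| := by rw [← h1, h8]
        push_cast at h3
        rw [h3]
        exact hDn
      exact le_of_mul_le_mul_left h2 hn0

end Pool.Agent.T2H27.Law
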