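import Pool.Agent.T2H27.Law.Arr

/-!
# The asymptotic formulas
-/

set_option autoImplicit false

namespace Pool.Agent.T2H27.Law

open Finset Filter Topology Pool.Agent.T2H27.Szp

open Pool.Agent.H328R2.ABC (rad)
open Pool.Agent.H328R2.ABC.RadSumAux (ff ff_nonneg)

/-- a double limit -/
theorem final_lim {F : ℝ → ℝ} {S B : ℕ → ℝ → ℝ} {s b : ℕ → ℝ} {L : ℝ}
    (h1 : ∀ᶠ k in atTop, Tendsto (S k) atTop (𝓝 (s k))) (h2 : Tendsto s atTop (𝓝 L))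
    (h3 : ∀ᶠ k in atTop, Tendsto (B k) atTop (𝓝 (b k))) (h4 : Tendsto b atTop (𝓝 0))
    (h5 : ∀ᶠ k in atTop, ∀ᶠ X in atTop, |F X - S k X| ≤ B k X) : Tendsto F atTop (𝓝 L) := by
  rw [Metric.tendsto_nhds]
  intro ε hε
  have g2 := (Metric.tendsto_nhds.1 h2) (ε / 4) (by linarith)
  have g4 := (Metric.tendsto_nhds.1 h4) (ε / 4) (by linarith)
  obtain ⟨k, k1, k2, k3, k4, k5⟩ := (h1.and (g2.and (h3.and (g4.and h5)))).exists
  have g1 := (Metric.tendsto_nhds.1 k1) (ε / 4) (by linarith)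
  have g3 := (Metric.tendsto_nhds.1 k3) (ε / 4) (by linarith)
  filter_upwards [g1, g3, k5] with X x1 x3 x5
  rw [Real.dist_eq] at *
  have a1 := abs_lt.1 x1
  have a2 := abs_lt.1 k2
  have a3 := abs_lt.1 x3
  have a4 := abs_lt.1 k4
  have a5 := abs_le.1 x5
  rw [abs_lt]
  constructor <;> linarith

/-- the small terms -/
theorem rest_bound {n A X : ℝ} {m : ℕ} (hn : 0 ≤ n) (hA0 : 0 < A) (hA : A ≤ 5 / 3) (hX : 1 ≤ X)
    (hm : 1 ≤ m) :
    (12 * √(2 * (1728 * n * X)) + 4 * X ^ (A / 3)) * (1 + Real.log (X ^ (A / 3))) +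
      2 * X ^ (A / 3) + (2 * √(1728 * n * X) + 1) +
      4 * (6 * √(2 * (1728 * n * X))) * (m : ℝ)⁻¹ +
      4 * (2 * X ^ (A / 3) + 1) * X ^ ((1 : ℝ) / 100) ≤
      (300 * √(3456 * n) + 200) * X ^ ((2 : ℝ) / 3) := by
  have hX0 : 0 < X := by linarith
  set s := √(3456 * n) with hs
  have hs0 : 0 ≤ s := Real.sqrt_nonneg _
  have e1 : √(2 * (1728 * n * X)) = s * X ^ ((1 : ℝ) / 2) := by
    rw [← Real.sqrt_eq_rpow, hs, ← Real.sqrt_mul (by positivity)]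
    congr 1
    ring
  have e2 : √(1728 * n * X) ≤ s * X ^ ((1 : ℝ) / 2) := by
    rw [← e1]
    apply Real.sqrt_le_sqrt
    have : 0 ≤ 1728 * n * X := by positivity
    linarith
  have hY : X ^ (A / 3) ≤ X ^ ((5 : ℝ) / 9) := Real.rpow_le_rpow_of_exponent_le hX (by linarith)
  have hY0 : 0 < X ^ (A / 3) := Real.rpow_pos_of_pos hX0 _
  have hlog : 1 + Real.log (X ^ (A / 3)) ≤ 21 * X ^ ((1 : ℝ) / 20) := by
    rw [Real.log_rpow hX0]
    have h1 : Real.log X ≤ X ^ ((1 : ℝ) / 20) / (1 / 20) := Real.log_le_rpow_div hX0.le (by norm_num)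
    have h2 : 0 ≤ Real.log X := Real.log_nonneg hX
    have h3 : A / 3 * Real.log X ≤ 1 * Real.log X := by
      apply mul_le_mul_of_nonneg_right _ h2
      linarith
    have h4 : 1 ≤ X ^ ((1 : ℝ) / 20) := Real.one_le_rpow hX (by norm_num)
    have e : X ^ ((1 : ℝ) / 20) / (1 / 20) = 20 * X ^ ((1 : ℝ) / 20) := by ring
    rw [e] at h1
    linarith
  have hlog0 : 0 ≤ 1 + Real.log (X ^ (A / 3)) := by
    have : 0 ≤ Real.log (X ^ (A / 3)) := Real.log_nonneg (Real.one_le_rpow hX (by linarith))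
    linarith
  have hm1 : (m : ℝ)⁻¹ ≤ 1 := by
    apply inv_le_one_of_one_le₀
    exact_mod_cast hm
  have hm0 : 0 ≤ (m : ℝ)⁻¹ := by positivity
  -- powers
  have p1 : X ^ ((1 : ℝ) / 2) * X ^ ((1 : ℝ) / 20) ≤ X ^ ((2 : ℝ) / 3) := by
    rw [← Real.rpow_add hX0]
    exact Real.rpow_le_rpow_of_exponent_le hX (by norm_num)
  have p2 : X ^ ((5 : ℝ) / 9) * X ^ ((1 : ℝ) / 20) ≤ X ^ ((2 : ℝ) / 3) := by
    rw [← Real.rpow_add hX0]
    exact Real.rpow_le_rpow_of_exponent_le hX (by norm_num)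
  have p3 : X ^ ((5 : ℝ) / 9) ≤ X ^ ((2 : ℝ) / 3) :=
    Real.rpow_le_rpow_of_exponent_le hX (by norm_num)
  have p4 : X ^ ((1 : ℝ) / 2) ≤ X ^ ((2 : ℝ) / 3) :=
    Real.rpow_le_rpow_of_exponent_le hX (by norm_num)
  have p5 : 1 ≤ X ^ ((2 : ℝ) / 3) := Real.one_le_rpow hX (by norm_num)
  have p6 : X ^ ((5 : ℝ) / 9) * X ^ ((1 : ℝ) / 100) ≤ X ^ ((2 : ℝ) / 3) := by
    rw [← Real.rpow_add hX0]
    exact Real.rpow_le_rpow_of_exponent_le hX (by norm_num)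
  have p7 : X ^ ((1 : ℝ) / 100) ≤ X ^ ((2 : ℝ) / 3) :=
    Real.rpow_le_rpow_of_exponent_le hX (by norm_num)
  have q1 : (12 * √(2 * (1728 * n * X)) + 4 * X ^ (A / 3)) * (1 + Real.log (X ^ (A / 3))) ≤
      (252 * s + 84) * X ^ ((2 : ℝ) / 3) := by
    rw [e1]
    calc (12 * (s * X ^ ((1 : ℝ) / 2)) + 4 * X ^ (A / 3)) * (1 + Real.log (X ^ (A / 3)))
        ≤ (12 * (s * X ^ ((1 : ℝ) / 2)) + 4 * X ^ ((5 : ℝ) / 9)) * (21 * X ^ ((1 : ℝ) / 20)) := by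
          gcongr
      _ = 252 * s * (X ^ ((1 : ℝ) / 2) * X ^ ((1 : ℝ) / 20)) +
          84 * (X ^ ((5 : ℝ) / 9) * X ^ ((1 : ℝ) / 20)) := by ring
      _ ≤ 252 * s * X ^ ((2 : ℝ) / 3) + 84 * X ^ ((2 : ℝ) / 3) := by gcongr
      _ = _ := by ring
  have q2 : 2 * X ^ (A / 3) ≤ 2 * X ^ ((2 : ℝ) / 3) := by linarith
  have q3 : 2 * √(1728 * n * X) + 1 ≤ (2 * s + 1) * X ^ ((2 : ℝ) / 3) := by
    have : s * X ^ ((1 : ℝ) / 2) ≤ s * X ^ ((2 : ℝ) / 3) := mul_le_mul_of_nonneg_left p4 hs0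
    linarith
  have q4 : 4 * (6 * √(2 * (1728 * n * X))) * (m : ℝ)⁻¹ ≤ 22 * s * X ^ ((2 : ℝ) / 3) + 2 * s * X ^ ((2 : ℝ) / 3) := by
    rw [e1]
    calc 4 * (6 * (s * X ^ ((1 : ℝ) / 2))) * (m : ℝ)⁻¹ ≤ 4 * (6 * (s * X ^ ((2 : ℝ) / 3))) * 1 := by
          gcongr
      _ = _ := by ring
  have q5 : 4 * (2 * X ^ (A / 3) + 1) * X ^ ((1 : ℝ) / 100) ≤ 12 * X ^ ((2 : ℝ) / 3) := by
    calc 4 * (2 * X ^ (A / 3) + 1) * X ^ ((1 : ℝ) / 100)
        ≤ 4 * (2 * X ^ ((5 : ℝ) / 9) + 1) * X ^ ((1 : ℝ) / 100) := by gcongr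
      _ = 8 * (X ^ ((5 : ℝ) / 9) * X ^ ((1 : ℝ) / 100)) + 4 * X ^ ((1 : ℝ) / 100) := by ring
      _ ≤ 8 * X ^ ((2 : ℝ) / 3) + 4 * X ^ ((2 : ℝ) / 3) := by gcongr
      _ = _ := by ring
  have q6 : 0 ≤ s * X ^ ((2 : ℝ) / 3) := by positivity
  have e3 : (300 * s + 200) * X ^ ((2 : ℝ) / 3) = 300 * (s * X ^ ((2 : ℝ) / 3)) +
    200 * X ^ ((2 : ℝ) / 3) := by ring
  have e4 : (252 * s + 84) * X ^ ((2 : ℝ) / 3) = 252 * (s * X ^ ((2 : ℝ) / 3)) +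
    84 * X ^ ((2 : ℝ) / 3) := by ring
  have e5 : (2 * s + 1) * X ^ ((2 : ℝ) / 3) = 2 * (s * X ^ ((2 : ℝ) / 3)) +
    X ^ ((2 : ℝ) / 3) := by ring
  rw [e3]
  rw [e4] at q1
  rw [e5] at q3
  linarith

/-- an exponent below `5/6` for the curves with `|Δ|` much larger than `N` -/
theorem upperT {A : ℝ} (h1 : 1 < A) (h2 : A < 5 / 3) : ∃ C a : ℝ, 0 < C ∧ a < 5 / 6 ∧
    ∀ X : ℝ, 1 ≤ X → ((Crv (1 + 1 / 100) A X).ncard : ℝ) ≤ C * X ^ a := by
  set ε : ℝ := min (1 / 1200) ((5 / 6 - A / 2) / 2) with hε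
  have hε0 : 0 < ε := lt_min (by norm_num) (by linarith)
  have hε1 : ε ≤ 1 / 1200 := min_le_left _ _
  have hε2 : ε ≤ (5 / 6 - A / 2) / 2 := min_le_right _ _
  obtain ⟨C, hC, h⟩ := upperC (1 + 1 / 100) A ε (by norm_num) (by linarith) hε0
  refine ⟨C, _, hC, ?_, h⟩
  rcases le_total (1 - (1 + 1 / 100) / 6) (A / 2) with hm | hm
  · rw [max_eq_right hm]
    linarith
  · rw [max_eq_left hm]
    linarith

theorem Y_root {X A : ℝ} (hX : 0 ≤ X) {x : ℝ} (h : |x| ^ 3 ≤ X ^ A) : |x| ≤ X ^ (A / 3) := by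
  have h1 := (abs_le_root (Real.rpow_nonneg hX A)).2 h
  rw [← Real.rpow_mul hX] at h1
  have e : A * (1 / 3) = A / 3 := by ring
  rwa [e] at h1

/-- **The number of curves with `|Δ| = n N`.** -/
theorem CN_tendsto {n : ℕ} (hn : n ≠ 0) {A : ℝ} (h1 : 1 < A) (h2 : A < 5 / 3) :
    Tendsto (fun X : ℝ => ((CN n A X).ncard : ℝ) / X ^ ((5 : ℝ) / 6)) atTop
      (𝓝 (12 * (E0 * ((n : ℝ)⁻¹ * w0 n)) *
        (2 / 41472 * ((1728 * (n : ℝ)) ^ ((5 : ℝ) / 6) * I0)))) := by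
  classical
  obtain ⟨C, a, hC, ha, hup⟩ := upperT h1 h2
  have hn0 : (0 : ℝ) < n := by exact_mod_cast Nat.pos_of_ne_zero hn
  have hI := I0_nonneg
  set K : ℝ := 300 * √(3456 * n) + 200 with hK
  set D1 : ℝ := (1728 * (n : ℝ)) ^ ((5 : ℝ) / 6) * I0 with hD1
  refine final_lim (S := fun k X => (sw n (k + 1) A X : ℝ) / X ^ ((5 : ℝ) / 6))
    (s := fun k => 12 * (EW (k + 1) * ((n : ℝ)⁻¹ * w0 n)) * (2 / 41472 * D1))
    (B := fun k X => 6 * D1 * (k : ℝ)⁻¹ + (K * X ^ (-(1 / 6 : ℝ)) + C * X ^ (-(5 / 6 - a))))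
    (b := fun k => 6 * D1 * (k : ℝ)⁻¹) ?_ ?_ ?_ ?_ ?_
  · filter_upwards [eventually_ge_atTop n, eventually_ge_atTop 4] with k hk hk4
    exact sw_tendsto hn (by omega) (by omega) h1 (by linarith)
  · have h3 : Tendsto (fun k : ℕ => EW (k + 1)) atTop (𝓝 E0) :=
      EW_tendsto.comp (tendsto_add_atTop_nat 1)
    exact ((h3.mul_const _).const_mul 12).mul_const _
  · refine Eventually.of_forall (fun k => ?_)
    have e1 := (tendsto_rpow_neg' (b := 1 / 6) (by norm_num)).const_mul K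
    have e2 := (tendsto_rpow_neg' (b := 5 / 6 - a) (by linarith)).const_mul C
    have e3 := (e1.add e2).const_add (6 * D1 * (k : ℝ)⁻¹)
    rw [mul_zero, mul_zero, add_zero, add_zero] at e3
    exact e3
  · have h3 := (tendsto_inv_atTop_nhds_zero_nat (𝕜 := ℝ)).const_mul (6 * D1)
    rwa [mul_zero] at h3
  · filter_upwards [eventually_ge_atTop n, eventually_ge_atTop 4] with m hm hm4
    have hev : ∀ᶠ X : ℝ in atTop, (n : ℝ) ≤ X ^ ((1 : ℝ) / 100) :=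
      (tendsto_rpow_atTop (by norm_num : (0 : ℝ) < 1 / 100)).eventually_ge_atTop _
    filter_upwards [hev, eventually_ge_atTop 1] with X hXn hX
    have hX0 : 0 < X := by linarith
    have hXp : 0 < X ^ ((5 : ℝ) / 6) := Real.rpow_pos_of_pos hX0 _
    have hfin := CN_finite n A X hX
    -- the finset of the bad pairs
    set Bd := (FF n (m + 1) A X).filter (fun q => q ∉ CN n A X) with hBd
    have hle : (CN n A X).ncard ≤ (FF n (m + 1) A X).card := by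
      rw [← Set.ncard_coe_finset]
      exact Set.ncard_le_ncard (CN_sub_FF hn hX0.le) (finite_toSet _)
    have hge : (FF n (m + 1) A X).card ≤ (CN n A X).ncard + Bd.card := by
      rw [← card_filter_add_card_filter_not (s := FF n (m + 1) A X) (fun q => q ∈ CN n A X)]
      apply Nat.add_le_add_right
      rw [← Set.ncard_coe_finset]
      apply Set.ncard_le_ncard _ hfin
      intro q hq
      rw [mem_coe, mem_filter] at hq
      exact hq.2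
    have hmem : ∀ q ∈ FF n (m + 1) A X, |(q.1 : ℝ)| ≤ X ^ (A / 3) ∧
        |(q.1 : ℝ) ^ 3 - (q.2 : ℝ) ^ 2| ≤ 1728 * n * X := by
      intro q hq
      rw [mem_FF hX0.le] at hq
      obtain ⟨W, rfl, a1, -, a3, -⟩ := hq
      exact ⟨Y_root hX0.le a1, a3⟩
    have hD : 0 < 1728 * (n : ℝ) * X := by positivity
    have hY : 1 ≤ X ^ (A / 3) := Real.one_le_rpow hX (by linarith)
    have hZ : 0 ≤ X ^ ((1 : ℝ) / 100) := Real.rpow_nonneg hX0.le _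
    set B1 := Bd.filter (fun q => ∃ p : ℕ, m < p ∧ (p : ℤ) ∣ q.1 ∧ (p : ℤ) ∣ q.2) with hB1
    set B2 := Bd.filter (fun q => ∃ p : ℕ, p.Prime ∧ m < p ∧ (p : ℝ) ≤ X ^ ((1 : ℝ) / 100) ∧
      ¬ (p : ℤ) ∣ q.1 ∧ (p : ℤ) ^ 2 ∣ q.1 ^ 3 - q.2 ^ 2) with hB2
    set B3 := Bd.filter (fun q => q ∈ Crv (1 + 1 / 100) A X) with hB3
    have hsub : Bd ⊆ B1 ∪ (B2 ∪ B3) := by
      intro q hq
      have hq' := hq
      rw [hBd, mem_filter] at hq'
      rcases FF_sub hn hm (by omega) hX (by norm_num : (0 : ℝ) ≤ 1 / 100) hXn hq'.1 hq'.2 with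
        h | h | h
      · exact mem_union_left _ (mem_filter.2 ⟨hq, h⟩)
      · exact mem_union_right _ (mem_union_left _ (mem_filter.2 ⟨hq, h⟩))
      · exact mem_union_right _ (mem_union_right _ (mem_filter.2 ⟨hq, h⟩))
    have c1 := tail1 hD hY (m := m) (by omega) B1 (by
      intro q hq
      rw [hB1, mem_filter, hBd, mem_filter] at hq
      have := hmem q hq.1.1
      exact ⟨this.1, this.2, hq.2⟩)
    have c2 := tail2 hD hY hZ (m := m) (by omega) B2 (by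
      intro q hq
      rw [hB2, mem_filter, hBd, mem_filter] at hq
      have := hmem q hq.1.1
      exact ⟨this.1, this.2, hq.2⟩)
    have c3 : (B3.card : ℝ) ≤ C * X ^ a := by
      refine le_trans ?_ (hup X hX)
      have : B3.card ≤ (Crv (1 + 1 / 100) A X).ncard := by
        rw [← Set.ncard_coe_finset]
        apply Set.ncard_le_ncard _ (crv_finite _ A X hX)
        intro q hq
        rw [mem_coe, hB3, mem_filter] at hq
        exact hq.2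
      exact_mod_cast this
    have c4 : (Bd.card : ℝ) ≤ B1.card + (B2.card + B3.card) := by
      have := (card_le_card hsub).trans ((card_union_le _ _).trans
        (Nat.add_le_add_left (card_union_le _ _) _))
      exact_mod_cast this
    have c5 := rest_bound (n := (n : ℝ)) (A := A) (m := m) hn0.le (by linarith) h2.le hX (by omega)
    have e1 : (1728 * (n : ℝ) * X) ^ ((5 : ℝ) / 6) * I0 = D1 * X ^ ((5 : ℝ) / 6) := by
      rw [hD1, Real.mul_rpow (by positivity) hX0.le]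
      ring
    rw [e1] at c1 c2
    have c6 : (Bd.card : ℝ) ≤ 6 * D1 * (m : ℝ)⁻¹ * X ^ ((5 : ℝ) / 6) + K * X ^ ((2 : ℝ) / 3) +
        C * X ^ a := by
      have e2 : 4 * (D1 * X ^ ((5 : ℝ) / 6) + 6 * √(2 * (1728 * (n : ℝ) * X))) * (m : ℝ)⁻¹ =
        4 * (D1 * X ^ ((5 : ℝ) / 6)) * (m : ℝ)⁻¹ +
        4 * (6 * √(2 * (1728 * (n : ℝ) * X))) * (m : ℝ)⁻¹ := by ring
      rw [e2] at c2
      have e3 : 2 * (D1 * X ^ ((5 : ℝ) / 6)) * (m : ℝ)⁻¹ + 4 * (D1 * X ^ ((5 : ℝ) / 6)) * (m : ℝ)⁻¹ =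
        6 * D1 * (m : ℝ)⁻¹ * X ^ ((5 : ℝ) / 6) := by ring
      linarith
    have c7 : |((CN n A X).ncard : ℝ) - (sw n (m + 1) A X : ℝ)| ≤ Bd.card := by
      rw [card_FF] at hle hge
      have g1 : ((CN n A X).ncard : ℝ) ≤ (sw n (m + 1) A X : ℝ) := by exact_mod_cast hle
      have g2 : (sw n (m + 1) A X : ℝ) ≤ ((CN n A X).ncard : ℝ) + Bd.card := by exact_mod_cast hge
      have g3 : (0 : ℝ) ≤ Bd.card := Nat.cast_nonneg _
      rw [abs_le]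
      constructor <;> linarith
    rw [← sub_div, abs_div, abs_of_pos hXp, div_le_iff₀ hXp]
    refine c7.trans (c6.trans (le_of_eq ?_))
    have e4 : X ^ (-(1 / 6 : ℝ)) * X ^ ((5 : ℝ) / 6) = X ^ ((2 : ℝ) / 3) := by
      rw [← Real.rpow_add hX0]
      norm_num
    have e5 : X ^ (-(5 / 6 - a)) * X ^ ((5 : ℝ) / 6) = X ^ a := by
      rw [← Real.rpow_add hX0]
      congr 1
      ring
    calc 6 * D1 * (m : ℝ)⁻¹ * X ^ ((5 : ℝ) / 6) + K * X ^ ((2 : ℝ) / 3) + C * X ^ a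
        = 6 * D1 * (m : ℝ)⁻¹ * X ^ ((5 : ℝ) / 6) + K * (X ^ (-(1 / 6 : ℝ)) * X ^ ((5 : ℝ) / 6)) +
          C * (X ^ (-(5 / 6 - a)) * X ^ ((5 : ℝ) / 6)) := by rw [e4, e5]
      _ = _ := by ring

/-- the weights -/
noncomputable def wt (n : ℕ) : ℝ := (n : ℝ) ^ (-(1 / 6 : ℝ)) * w0 n

/-- the constant -/
noncomputable def kap : ℝ := 1728 ^ (-(1 / 6 : ℝ)) * I0 * E0

theorem const_eq (n : ℕ) (hn : n ≠ 0) : 12 * (E0 * ((n : ℝ)⁻¹ * w0 n)) *
    (2 / 41472 * ((1728 * (n : ℝ)) ^ ((5 : ℝ) / 6) * I0)) = kap * wt n := by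
  have hn0 : (0 : ℝ) < n := by exact_mod_cast Nat.pos_of_ne_zero hn
  unfold kap wt
  rw [Real.mul_rpow (by norm_num) hn0.le]
  have e1 : (n : ℝ) ^ (-(1 / 6 : ℝ)) = (n : ℝ)⁻¹ * (n : ℝ) ^ ((5 : ℝ) / 6) := by
    rw [← Real.rpow_neg_one, ← Real.rpow_add hn0]
    norm_num
  have e2 : (1728 : ℝ) ^ (-(1 / 6 : ℝ)) = (1728 : ℝ)⁻¹ * (1728 : ℝ) ^ ((5 : ℝ) / 6) := by
    rw [← Real.rpow_neg_one (1728 : ℝ), ← Real.rpow_add (by norm_num)]
    norm_num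
  rw [e1, e2]
  ring

theorem wl_le {p : ℕ} (hp : p.Prime) : 0 ≤ wl p ∧ wl p ≤ (p : ℝ)⁻¹ := by
  have h2 : (2 : ℝ) ≤ p := by exact_mod_cast hp.two_le
  have h3 : 0 < (p : ℝ) ^ 2 + p - 1 := by nlinarith
  unfold wl
  constructor
  · apply div_nonneg (by linarith) h3.le
  · rw [inv_eq_one_div, div_le_div_iff₀ h3 (by linarith)]
    nlinarith

theorem w0_le (n : ℕ) : 0 ≤ w0 n ∧ w0 n ≤ 1 / rad n := by
  unfold w0 rad
  constructor
  · exact prod_nonneg (fun p hp => (wl_le (Nat.prime_of_mem_primeFactors hp)).1)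
  · push_cast
    rw [one_div, ← prod_inv_distrib]
    exact prod_le_prod (fun p hp => (wl_le (Nat.prime_of_mem_primeFactors hp)).1)
      (fun p hp => (wl_le (Nat.prime_of_mem_primeFactors hp)).2)

theorem wt_nonneg (n : ℕ) : 0 ≤ wt n := by
  unfold wt
  exact mul_nonneg (by positivity) (w0_le n).1

theorem wt_summable : Summable wt := by
  refine Summable.of_nonneg_of_le wt_nonneg (fun n => ?_) (ff_summable (1 / 6) (by norm_num))
  unfold wt ff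
  calc (n : ℝ) ^ (-(1 / 6 : ℝ)) * w0 n ≤ (n : ℝ) ^ (-(1 / 6 : ℝ)) * (1 / rad n) :=
        mul_le_mul_of_nonneg_left (w0_le n).2 (by positivity)
    _ = _ := by rw [mul_one_div]

theorem CN_tendsto' {n : ℕ} (hn : n ≠ 0) {A : ℝ} (h1 : 1 < A) (h2 : A < 5 / 3) :
    Tendsto (fun X : ℝ => ((CN n A X).ncard : ℝ) / X ^ ((5 : ℝ) / 6)) atTop (𝓝 (kap * wt n)) := by
  rw [← const_eq n hn]
  exact CN_tendsto hn h1 h2

end Pool.Agent.T2H27.Law
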