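import Mathlib

/-!
# Counting residue classes
-/

set_option autoImplicit false

namespace Pool.Agent.T2H27.Law

open Finset

open Classical in
/-- the pairs of residues modulo `M` with the property `Q` -/
noncomputable def CS (M : ℕ) (Q : ℤ → ℤ → Prop) : Finset (ℕ × ℕ) :=
  (range M ×ˢ range M).filter (fun p : ℕ × ℕ => Q p.1 p.2)

open Classical in
theorem mem_CS {M : ℕ} {Q : ℤ → ℤ → Prop} {p : ℕ × ℕ} :
    p ∈ CS M Q ↔ (p.1 < M ∧ p.2 < M) ∧ Q p.1 p.2 := by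
  unfold CS
  rw [mem_filter, mem_product, mem_range, mem_range]

/-- the number of the pairs of residues modulo `M` with the property `Q` -/
noncomputable def cnt (M : ℕ) (Q : ℤ → ℤ → Prop) : ℕ := (CS M Q).card

/-- `Q` depends only on the residues modulo `M` -/
def Per (M : ℕ) (Q : ℤ → ℤ → Prop) : Prop :=
  ∀ u v u' v' : ℤ, u ≡ u' [ZMOD M] → v ≡ v' [ZMOD M] → (Q u v ↔ Q u' v')

theorem Per.and {M : ℕ} {Q R : ℤ → ℤ → Prop} (h1 : Per M Q) (h2 : Per M R) :
    Per M (fun u v => Q u v ∧ R u v) := fun u v u' v' hu hv =>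
  and_congr (h1 u v u' v' hu hv) (h2 u v u' v' hu hv)

theorem Per.not {M : ℕ} {Q : ℤ → ℤ → Prop} (h1 : Per M Q) :
    Per M (fun u v => ¬ Q u v) := fun u v u' v' hu hv => not_congr (h1 u v u' v' hu hv)

theorem Per.mono {M N : ℕ} {Q : ℤ → ℤ → Prop} (h1 : Per M Q) (h : M ∣ N) : Per N Q :=
  fun u v u' v' hu hv => h1 u v u' v' (hu.of_dvd (by exact_mod_cast h))
    (hv.of_dvd (by exact_mod_cast h))

theorem cnt_congr {M : ℕ} {Q R : ℤ → ℤ → Prop} (h : ∀ u v, Q u v ↔ R u v) : cnt M Q = cnt M R := by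
  unfold cnt
  congr 1
  ext p
  rw [mem_CS, mem_CS, h]

theorem CS_all {M : ℕ} : CS M (fun _ _ => True) = range M ×ˢ range M := by
  ext p
  rw [mem_CS, mem_product, mem_range, mem_range]
  exact and_iff_left trivial

theorem cnt_false {M : ℕ} {Q : ℤ → ℤ → Prop} (h : ∀ u v, ¬ Q u v) : cnt M Q = 0 := by
  unfold cnt
  rw [card_eq_zero, eq_empty_iff_forall_notMem]
  intro p hp
  exact h _ _ (mem_CS.1 hp).2

theorem cnt_true {M : ℕ} {Q : ℤ → ℤ → Prop} (h : ∀ u v, Q u v) : cnt M Q = M ^ 2 := by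
  rw [cnt_congr (R := fun _ _ => True) (fun u v => ⟨fun _ => trivial, fun _ => h u v⟩)]
  unfold cnt
  rw [CS_all, card_product, card_range]
  ring

theorem cnt_or {M : ℕ} {Q R : ℤ → ℤ → Prop} (h : ∀ u v, Q u v → ¬ R u v) :
    cnt M (fun u v => Q u v ∨ R u v) = cnt M Q + cnt M R := by
  unfold cnt
  rw [← card_union_of_disjoint]
  · congr 1
    ext p
    rw [mem_union, mem_CS, mem_CS, mem_CS]
    tauto
  · rw [disjoint_left]
    intro p h1 h2
    rw [mem_CS] at h1 h2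
    exact h _ _ h1.2 h2.2

theorem cnt_not {M : ℕ} {Q : ℤ → ℤ → Prop} : cnt M Q + cnt M (fun u v => ¬ Q u v) = M ^ 2 := by
  rw [← cnt_or (fun u v h1 h2 => h2 h1)]
  exact cnt_true (fun u v => em _)

theorem cnt_le {M : ℕ} {Q R : ℤ → ℤ → Prop} (h : ∀ u v, Q u v → R u v) : cnt M Q ≤ cnt M R := by
  unfold cnt
  apply card_le_card
  intro p hp
  rw [mem_CS] at hp ⊢
  exact ⟨hp.1, h _ _ hp.2⟩

/-- a sub-property -/
theorem cnt_diff {M : ℕ} {Q R : ℤ → ℤ → Prop} (h : ∀ u v, R u v → Q u v) :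
    cnt M (fun u v => Q u v ∧ ¬ R u v) + cnt M R = cnt M Q := by
  rw [← cnt_or (fun u v h1 => h1.2)]
  refine cnt_congr (fun u v => ?_)
  constructor
  · rintro (h1 | h1)
    · exact h1.1
    · exact h u v h1
  · intro h1
    by_cases h2 : R u v
    · exact Or.inr h2
    · exact Or.inl ⟨h1, h2⟩

open Classical in
theorem cnt_eq_sum (M : ℕ) (Q : ℤ → ℤ → Prop) :
    cnt M Q = ∑ r ∈ range M, ∑ s ∈ range M, if Q r s then 1 else 0 := by
  unfold cnt CS
  rw [card_filter, sum_product]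

/-- **Chinese remainder theorem.** -/
theorem cnt_mul {M N : ℕ} (h : Nat.Coprime M N) (hM : 0 < M) (hN : 0 < N) {Q R : ℤ → ℤ → Prop}
    (hQ : Per M Q) (hR : Per N R) : cnt (M * N) (fun u v => Q u v ∧ R u v) = cnt M Q * cnt N R := by
  unfold cnt
  rw [← card_product]
  have key : ∀ a m : ℕ, (a : ℤ) ≡ ((a % m : ℕ) : ℤ) [ZMOD m] := by
    intro a m
    have : a ≡ a % m [MOD m] := (Nat.mod_modEq a m).symm
    exact (Int.natCast_modEq_iff).2 this
  refine card_bij (fun p _ => ((p.1 % M, p.2 % M), (p.1 % N, p.2 % N))) ?_ ?_ ?_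
  · intro p hp
    simp only [mem_CS, mem_product] at hp ⊢
    obtain ⟨⟨h1, h2⟩, h3, h4⟩ := hp
    exact ⟨⟨⟨Nat.mod_lt _ hM, Nat.mod_lt _ hM⟩, (hQ _ _ _ _ (key _ _) (key _ _)).1 h3⟩,
      ⟨Nat.mod_lt _ hN, Nat.mod_lt _ hN⟩, (hR _ _ _ _ (key _ _) (key _ _)).1 h4⟩
  · rintro ⟨a, b⟩ hp ⟨a', b'⟩ hp' he
    simp only [mem_CS, Prod.mk.injEq] at hp hp' he ⊢
    obtain ⟨⟨e1, e2⟩, e3, e4⟩ := he
    have f1 : a ≡ a' [MOD M * N] := (Nat.modEq_and_modEq_iff_modEq_mul h).1 ⟨e1, e3⟩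
    have f2 : b ≡ b' [MOD M * N] := (Nat.modEq_and_modEq_iff_modEq_mul h).1 ⟨e2, e4⟩
    exact ⟨Nat.ModEq.eq_of_lt_of_lt f1 hp.1.1 hp'.1.1, Nat.ModEq.eq_of_lt_of_lt f2 hp.1.2 hp'.1.2⟩
  · rintro ⟨⟨a, b⟩, ⟨c, d⟩⟩ hp
    simp only [mem_CS, mem_product] at hp
    obtain ⟨⟨⟨h1, h2⟩, h3⟩, ⟨h4, h5⟩, h6⟩ := hp
    obtain ⟨x, hx1, hx2⟩ := Nat.chineseRemainder h a c
    obtain ⟨y, hy1, hy2⟩ := Nat.chineseRemainder h b d
    have hMN : 0 < M * N := Nat.mul_pos hM hN
    have g1 : x % (M * N) ≡ a [MOD M] := ((Nat.mod_modEq x (M * N)).of_mul_right N).trans hx1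
    have g2 : x % (M * N) ≡ c [MOD N] := ((Nat.mod_modEq x (M * N)).of_mul_left M).trans hx2
    have g3 : y % (M * N) ≡ b [MOD M] := ((Nat.mod_modEq y (M * N)).of_mul_right N).trans hy1
    have g4 : y % (M * N) ≡ d [MOD N] := ((Nat.mod_modEq y (M * N)).of_mul_left M).trans hy2
    refine ⟨(x % (M * N), y % (M * N)), ?_, ?_⟩
    · simp only [mem_CS]
      refine ⟨⟨Nat.mod_lt _ hMN, Nat.mod_lt _ hMN⟩, ?_, ?_⟩
      · exact (hQ _ _ _ _ ((Int.natCast_modEq_iff).2 g1) ((Int.natCast_modEq_iff).2 g3)).2 h3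
      · exact (hR _ _ _ _ ((Int.natCast_modEq_iff).2 g2) ((Int.natCast_modEq_iff).2 g4)).2 h6
    · simp only [Prod.mk.injEq]
      exact ⟨⟨Nat.mod_eq_of_modEq g1 h1, Nat.mod_eq_of_modEq g3 h2⟩,
        Nat.mod_eq_of_modEq g2 h4, Nat.mod_eq_of_modEq g4 h5⟩

theorem sum_per (M k : ℕ) (c : ℕ → ℕ) (h : ∀ r, c (r + M) = c r) :
    ∑ r ∈ range (M * k), c r = k * ∑ r ∈ range M, c r := by
  have h2 : ∀ j i, c (M * j + i) = c i := by
    intro j
    induction j with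
    | zero => intro i; simp
    | succ j ih =>
      intro i
      have : M * (j + 1) + i = (M * j + i) + M := by ring
      rw [this, h, ih]
  induction k with
  | zero => simp
  | succ k ih =>
    rw [Nat.mul_succ, sum_range_add, ih]
    have : ∑ i ∈ range M, c (M * k + i) = ∑ i ∈ range M, c i := sum_congr rfl (fun i _ => h2 k i)
    rw [this]
    ring

theorem cnt_lift {M : ℕ} (k : ℕ) {Q : ℤ → ℤ → Prop} (hQ : Per M Q) :
    cnt (M * k) Q = k ^ 2 * cnt M Q := by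
  classical
  rw [cnt_eq_sum, cnt_eq_sum]
  have h1 : ∀ r : ℕ, ∑ s ∈ range (M * k), (if Q r s then 1 else 0) =
      k * ∑ s ∈ range M, if Q r s then 1 else 0 := by
    intro r
    apply sum_per
    intro s
    have : Q r ((s + M : ℕ) : ℤ) ↔ Q r s := by
      refine hQ _ _ _ _ (Int.ModEq.refl _) ?_
      push_cast
      exact Int.add_modEq_right
    simp only [this]
  rw [sum_congr rfl (fun r _ => h1 r), sum_per M k
    (fun r => k * ∑ s ∈ range M, if Q r s then 1 else 0), ← mul_sum]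
  · ring
  · intro r
    congr 1
    refine sum_congr rfl (fun s _ => ?_)
    have : Q ((r + M : ℕ) : ℤ) s ↔ Q r s := by
      refine hQ _ _ _ _ ?_ (Int.ModEq.refl _)
      push_cast
      exact Int.add_modEq_right
    simp only [this]

/-- a permutation of the residues -/
theorem sum_inj {M : ℕ} (hM : 0 < M) (F : ℤ → ℤ)
    (hF : ∀ v v' : ℤ, F v ≡ F v' [ZMOD M] → v ≡ v' [ZMOD M]) (f : ℤ → ℕ)
    (hf : ∀ x y : ℤ, x ≡ y [ZMOD M] → f x = f y) :
    ∑ v ∈ range M, f (F v) = ∑ w ∈ range M, f w := by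
  have hM' : (0 : ℤ) < M := by exact_mod_cast hM
  set e : ℕ → ℕ := fun v => (F v % M).toNat with he
  have hev : ∀ v : ℕ, ((e v : ℕ) : ℤ) = F v % M := fun v =>
    Int.toNat_of_nonneg (Int.emod_nonneg _ hM'.ne')
  have hinj : Set.InjOn e (range M : Finset ℕ) := by
    intro v hv v' hv' h
    rw [mem_coe, mem_range] at hv hv'
    have h1 : F v ≡ F v' [ZMOD M] := by
      have : ((e v : ℕ) : ℤ) = ((e v' : ℕ) : ℤ) := by rw [h]
      rw [hev, hev] at this
      exact this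
    have h2 := (Int.natCast_modEq_iff).1 (hF _ _ h1)
    exact Nat.ModEq.eq_of_lt_of_lt h2 hv hv'
  have himg : (range M).image e = range M := by
    apply eq_of_subset_of_card_le
    · intro w hw
      rw [mem_image] at hw
      obtain ⟨v, _, rfl⟩ := hw
      rw [mem_range]
      have : ((e v : ℕ) : ℤ) < M := by rw [hev]; exact Int.emod_lt_of_pos _ hM'
      exact_mod_cast this
    · rw [card_image_of_injOn hinj]
  calc ∑ v ∈ range M, f (F v) = ∑ v ∈ range M, f (e v) := by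
        refine sum_congr rfl (fun v _ => hf _ _ ?_)
        rw [hev]
        exact (Int.mod_modEq _ _).symm
    _ = ∑ w ∈ (range M).image e, f w :=
        (sum_image (f := fun w : ℕ => f (w : ℤ)) hinj).symm
    _ = _ := by rw [himg]

/-- the multiples of `d` -/
theorem sum_dvd {d k : ℕ} (hd : 0 < d) :
    ∑ w ∈ range (d * k), (if (d : ℤ) ∣ (w : ℤ) then 1 else 0) = k := by
  have h := sum_per d k (fun w : ℕ => if (d : ℤ) ∣ (w : ℤ) then 1 else 0) (by
    intro r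
    have : (d : ℤ) ∣ ((r + d : ℕ) : ℤ) ↔ (d : ℤ) ∣ (r : ℤ) := by
      push_cast
      exact (dvd_add_self_right)
    simp only [this])
  rw [h]
  have h1 : ∑ w ∈ range d, (if (d : ℤ) ∣ (w : ℤ) then 1 else 0) = 1 := by
    rw [← card_filter]
    have : (range d).filter (fun w : ℕ => (d : ℤ) ∣ (w : ℤ)) = {0} := by
      ext w
      rw [mem_filter, mem_range, mem_singleton]
      constructor
      · rintro ⟨h1, h2⟩
        have h3 : d ∣ w := by exact_mod_cast h2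
        exact Nat.eq_zero_of_dvd_of_lt h3 h1
      · rintro rfl
        exact ⟨hd, by simp⟩
    rw [this, card_singleton]
  rw [h1, mul_one]

end Pool.Agent.T2H27.Law
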