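import Mathlib

/-!
# Reduced Weierstrass equations
-/

set_option autoImplicit false

namespace Pool.Agent.T2H27.Law

open Finset

/-- the values of `(a₁, a₂, a₃)` -/
def TT : Finset (ℤ × ℤ × ℤ) := ({0, 1} : Finset ℤ) ×ˢ (({-1, 0, 1} : Finset ℤ) ×ˢ ({0, 1} : Finset ℤ))

/-- the curve -/
def WF (τ : ℤ × ℤ × ℤ) (u v : ℤ) : WeierstrassCurve ℤ := ⟨τ.1, τ.2.1, τ.2.2, u, v⟩

/-- `b₂` -/
def B2 (τ : ℤ × ℤ × ℤ) : ℤ := τ.1 ^ 2 + 4 * τ.2.1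

theorem WF_c4 (τ : ℤ × ℤ × ℤ) (u v : ℤ) :
    (WF τ u v).c₄ = B2 τ ^ 2 - 24 * (τ.1 * τ.2.2) - 48 * u := by
  unfold WF B2 WeierstrassCurve.c₄ WeierstrassCurve.b₂ WeierstrassCurve.b₄
  ring

theorem WF_c6 (τ : ℤ × ℤ × ℤ) (u v : ℤ) :
    (WF τ u v).c₆ = -B2 τ ^ 3 + 36 * B2 τ * (2 * u + τ.1 * τ.2.2) - 216 * τ.2.2 ^ 2 - 864 * v := by
  unfold WF B2 WeierstrassCurve.c₆ WeierstrassCurve.b₂ WeierstrassCurve.b₄ WeierstrassCurve.b₆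
  ring

theorem WF_D (τ : ℤ × ℤ × ℤ) (u v : ℤ) :
    (WF τ u v).Δ = -432 * v ^ 2 +
      (-B2 τ ^ 3 - 216 * τ.2.2 ^ 2 + 36 * B2 τ * (2 * u + τ.1 * τ.2.2)) * v +
      (B2 τ ^ 2 * (τ.1 * τ.2.2 * u - τ.2.1 * τ.2.2 ^ 2 + u ^ 2) - 8 * (2 * u + τ.1 * τ.2.2) ^ 3 -
        27 * τ.2.2 ^ 4 + 9 * B2 τ * (2 * u + τ.1 * τ.2.2) * τ.2.2 ^ 2) := by
  unfold WF B2 WeierstrassCurve.Δ WeierstrassCurve.b₂ WeierstrassCurve.b₄ WeierstrassCurve.b₆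
    WeierstrassCurve.b₈
  ring

/-- every equation has a reduced one with the same invariants -/
theorem reduce (W : WeierstrassCurve ℤ) : ∃ τ ∈ TT, ∃ u v : ℤ,
    (WF τ u v).c₄ = W.c₄ ∧ (WF τ u v).c₆ = W.c₆ ∧ (WF τ u v).Δ = W.Δ := by
  obtain ⟨a1, a2, a3, a4, a6⟩ := W
  obtain ⟨s, hs⟩ : ∃ s : ℤ, a1 + 2 * s = 0 ∨ a1 + 2 * s = 1 := ⟨-(a1 / 2), by omega⟩
  obtain ⟨r, hr⟩ : ∃ r : ℤ, (a2 - s * a1 - s ^ 2) + 3 * r = -1 ∨ (a2 - s * a1 - s ^ 2) + 3 * r = 0 ∨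
      (a2 - s * a1 - s ^ 2) + 3 * r = 1 := by
    generalize a2 - s * a1 - s ^ 2 = z
    exact ⟨-((z + 1) / 3), by omega⟩
  obtain ⟨t, ht⟩ : ∃ t : ℤ, (a3 + r * a1) + 2 * t = 0 ∨ (a3 + r * a1) + 2 * t = 1 := by
    generalize a3 + r * a1 = z
    exact ⟨-(z / 2), by omega⟩
  refine ⟨(a1 + 2 * s, (a2 - s * a1 - s ^ 2) + 3 * r, (a3 + r * a1) + 2 * t), ?_,
    a4 - s * a3 + 2 * r * a2 - (t + r * s) * a1 + 3 * r ^ 2 - 2 * s * t,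
    a6 + r * a4 + r ^ 2 * a2 + r ^ 3 - t * a3 - t ^ 2 - r * t * a1, ?_, ?_, ?_⟩
  · unfold TT
    simp only [mem_product, mem_insert, mem_singleton]
    exact ⟨hs, hr, ht⟩
  · unfold WF WeierstrassCurve.c₄ WeierstrassCurve.b₂ WeierstrassCurve.b₄
    ring
  · unfold WF WeierstrassCurve.c₆ WeierstrassCurve.b₂ WeierstrassCurve.b₄ WeierstrassCurve.b₆
    ring
  · unfold WF WeierstrassCurve.Δ WeierstrassCurve.b₂ WeierstrassCurve.b₄ WeierstrassCurve.b₆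
      WeierstrassCurve.b₈
    ring

/-- the reduced equation is determined by the invariants -/
theorem WF_inj {τ τ' : ℤ × ℤ × ℤ} (hτ : τ ∈ TT) (hτ' : τ' ∈ TT) {u v u' v' : ℤ}
    (h4 : (WF τ u v).c₄ = (WF τ' u' v').c₄) (h6 : (WF τ u v).c₆ = (WF τ' u' v').c₆) :
    τ = τ' ∧ u = u' ∧ v = v' := by
  rw [WF_c4, WF_c4] at h4
  rw [WF_c6, WF_c6] at h6
  obtain ⟨a1, a2, a3⟩ := τ
  obtain ⟨a1', a2', a3'⟩ := τ'
  unfold TT at hτ hτ'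
  simp only [mem_product, mem_insert, mem_singleton] at hτ hτ'
  obtain ⟨h1, h2, h3⟩ := hτ
  obtain ⟨h1', h2', h3'⟩ := hτ'
  unfold B2 at h4 h6
  simp only at h4 h6
  rcases h1 with rfl | rfl <;> rcases h2 with rfl | rfl | rfl <;> rcases h3 with rfl | rfl <;>
    rcases h1' with rfl | rfl <;> rcases h2' with rfl | rfl | rfl <;> rcases h3' with rfl | rfl <;>
    norm_num at h4 h6 <;>
    first
      | (refine ⟨rfl, ?_, ?_⟩ <;> omega)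
      | (exfalso; omega)

/-- the invariants satisfy the usual relation -/
theorem WF_rel (τ : ℤ × ℤ × ℤ) (u v : ℤ) :
    1728 * (WF τ u v).Δ = (WF τ u v).c₄ ^ 3 - (WF τ u v).c₆ ^ 2 := (WF τ u v).c_relation

end Pool.Agent.T2H27.Law
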