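import Pool.Agent.T2H27.Law.Strip
import Pool.Agent.T2H27.Law.Cnt
import Pool.Agent.T2H27.Law.Fam

/-!
# Points with a periodic condition
-/

set_option autoImplicit false

namespace Pool.Agent.T2H27.Law

open Finset Filter Topology

/-- the constant term of `c₄` -/
def al (τ : ℤ × ℤ × ℤ) : ℤ := B2 τ ^ 2 - 24 * (τ.1 * τ.2.2)

/-- the constant term of `c₆` -/
def be (τ : ℤ × ℤ × ℤ) (u : ℤ) : ℤ :=
  -B2 τ ^ 3 + 36 * B2 τ * (2 * u + τ.1 * τ.2.2) - 216 * τ.2.2 ^ 2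

theorem WF_c4' (τ : ℤ × ℤ × ℤ) (u v : ℤ) : (WF τ u v).c₄ = al τ - 48 * u := WF_c4 τ u v

theorem WF_c6' (τ : ℤ × ℤ × ℤ) (u v : ℤ) : (WF τ u v).c₆ = be τ u - 864 * v := WF_c6 τ u v

/-- the region -/
def Reg (τ : ℤ × ℤ × ℤ) (D T : ℝ) (p : ℤ × ℤ) : Prop :=
  |((WF τ p.1 p.2).c₄ : ℝ)| ^ 3 ≤ T ∧ ((WF τ p.1 p.2).c₆ : ℝ) ^ 2 ≤ T ∧
    |((WF τ p.1 p.2).c₄ : ℝ) ^ 3 - ((WF τ p.1 p.2).c₆ : ℝ) ^ 2| ≤ D

/-- the points of one class -/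
noncomputable def C1 (τ : ℤ × ℤ × ℤ) (M : ℕ) (D T : ℝ) (rs : ℕ × ℕ) : Finset (ℤ × ℤ) :=
  RR D T ((al τ : ℝ) - 48 * rs.1) (48 * M) (864 * M)
    (fun k => ((be τ ((rs.1 : ℤ) + M * k) : ℤ) : ℝ) - 864 * rs.2)

theorem mem_C1 {τ : ℤ × ℤ × ℤ} {M : ℕ} (hM : 0 < M) {D T : ℝ} (hT : 0 ≤ T) {rs : ℕ × ℕ}
    {p : ℤ × ℤ} : p ∈ C1 τ M D T rs ↔
      Reg τ D T ((rs.1 : ℤ) + M * p.1, (rs.2 : ℤ) + M * p.2) := by
  have hM' : (0 : ℝ) < M := by exact_mod_cast hM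
  unfold C1 Reg
  rw [mem_RR hT (by positivity) (by positivity), WF_c4', WF_c6']
  push_cast
  have e1 : ((al τ : ℝ) - 48 * rs.1) - 48 * M * p.1 = (al τ : ℝ) - 48 * (rs.1 + M * p.1) := by ring
  have e2 : (((be τ ((rs.1 : ℤ) + M * p.1) : ℤ) : ℝ) - 864 * rs.2) - 864 * M * p.2 =
      ((be τ ((rs.1 : ℤ) + M * p.1) : ℤ) : ℝ) - 864 * (rs.2 + M * p.2) := by ring
  rw [e1, e2]

/-- the points with the periodic condition -/
noncomputable def CC (τ : ℤ × ℤ × ℤ) (M : ℕ) (Q : ℤ → ℤ → Prop) (D T : ℝ) : Finset (ℤ × ℤ) :=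
  (CS M Q).biUnion (fun rs => (C1 τ M D T rs).image
    (fun p => ((rs.1 : ℤ) + M * p.1, (rs.2 : ℤ) + M * p.2)))

theorem modEq_add_mul (r : ℕ) (M : ℕ) (k : ℤ) : (r : ℤ) + M * k ≡ r [ZMOD M] := by
  rw [Int.modEq_iff_dvd]
  exact ⟨-k, by ring⟩

theorem mem_CC {τ : ℤ × ℤ × ℤ} {M : ℕ} (hM : 0 < M) {Q : ℤ → ℤ → Prop} (hQ : Per M Q) {D T : ℝ}
    (hT : 0 ≤ T) {p : ℤ × ℤ} : p ∈ CC τ M Q D T ↔ Reg τ D T p ∧ Q p.1 p.2 := by
  have hM' : (0 : ℤ) < M := by exact_mod_cast hM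
  unfold CC
  rw [mem_biUnion]
  constructor
  · rintro ⟨rs, hrs, hp⟩
    rw [mem_image] at hp
    obtain ⟨kj, hkj, rfl⟩ := hp
    rw [mem_CS] at hrs
    refine ⟨(mem_C1 hM hT).1 hkj, ?_⟩
    exact (hQ _ _ _ _ (modEq_add_mul _ _ _) (modEq_add_mul _ _ _)).2 hrs.2
  · rintro ⟨h1, h2⟩
    have e1 : (((p.1 % M).toNat : ℕ) : ℤ) = p.1 % M :=
      Int.toNat_of_nonneg (Int.emod_nonneg _ hM'.ne')
    have e2 : (((p.2 % M).toNat : ℕ) : ℤ) = p.2 % M :=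
      Int.toNat_of_nonneg (Int.emod_nonneg _ hM'.ne')
    have f1 : (((p.1 % M).toNat : ℕ) : ℤ) + M * (p.1 / M) = p.1 := by
      rw [e1]; exact Int.emod_add_mul_ediv _ _
    have f2 : (((p.2 % M).toNat : ℕ) : ℤ) + M * (p.2 / M) = p.2 := by
      rw [e2]; exact Int.emod_add_mul_ediv _ _
    refine ⟨((p.1 % M).toNat, (p.2 % M).toNat), ?_, ?_⟩
    · rw [mem_CS]
      refine ⟨⟨?_, ?_⟩, ?_⟩
      · have : (((p.1 % M).toNat : ℕ) : ℤ) < M := by rw [e1]; exact Int.emod_lt_of_pos _ hM'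
        exact_mod_cast this
      · have : (((p.2 % M).toNat : ℕ) : ℤ) < M := by rw [e2]; exact Int.emod_lt_of_pos _ hM'
        exact_mod_cast this
      · simp only
        rw [e1, e2]
        exact (hQ _ _ _ _ (Int.mod_modEq _ _) (Int.mod_modEq _ _)).2 h2
    · rw [mem_image]
      refine ⟨(p.1 / M, p.2 / M), ?_, ?_⟩
      · rw [mem_C1 hM hT]
        simp only
        rw [f1, f2]
        exact h1
      · simp only
        rw [f1, f2]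

theorem card_CC {τ : ℤ × ℤ × ℤ} {M : ℕ} (hM : 0 < M) {Q : ℤ → ℤ → Prop} {D T : ℝ} :
    (CC τ M Q D T).card = ∑ rs ∈ CS M Q, (C1 τ M D T rs).card := by
  have hM' : (M : ℤ) ≠ 0 := by exact_mod_cast hM.ne'
  unfold CC
  rw [card_biUnion]
  · refine sum_congr rfl (fun rs _ => ?_)
    rw [card_image_of_injective]
    rintro ⟨a, b⟩ ⟨c, d⟩ h
    simp only [Prod.mk.injEq] at h ⊢
    obtain ⟨h1, h2⟩ := h
    exact ⟨mul_left_cancel₀ hM' (by linarith), mul_left_cancel₀ hM' (by linarith)⟩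
  · intro rs hrs rs' hrs' hne
    rw [Function.onFun, disjoint_left]
    intro p hp hp'
    rw [mem_image] at hp hp'
    obtain ⟨a, _, rfl⟩ := hp
    obtain ⟨b, _, h⟩ := hp'
    simp only [Prod.mk.injEq] at h
    rw [mem_coe, mem_CS] at hrs hrs'
    apply hne
    have g1 : (rs.1 : ℤ) ≡ rs'.1 [ZMOD M] :=
      (modEq_add_mul rs.1 M a.1).symm.trans (h.1 ▸ modEq_add_mul rs'.1 M b.1)
    have g2 : (rs.2 : ℤ) ≡ rs'.2 [ZMOD M] :=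
      (modEq_add_mul rs.2 M a.2).symm.trans (h.2 ▸ modEq_add_mul rs'.2 M b.2)
    exact Prod.ext (Nat.ModEq.eq_of_lt_of_lt ((Int.natCast_modEq_iff).1 g1) hrs.1.1 hrs'.1.1)
      (Nat.ModEq.eq_of_lt_of_lt ((Int.natCast_modEq_iff).1 g2) hrs.1.2 hrs'.1.2)

/-- **The number of points with a periodic condition.** -/
theorem CC_tendsto {n A : ℝ} (hn : 0 < n) (h1 : 1 < A) (h2 : A < 5 / 2) (τ : ℤ × ℤ × ℤ) {M : ℕ}
    (hM : 0 < M) (Q : ℤ → ℤ → Prop) :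
    Tendsto (fun X : ℝ => ((CC τ M Q (n * X) (X ^ A)).card : ℝ) / X ^ ((5 : ℝ) / 6)) atTop
      (𝓝 ((cnt M Q : ℝ) / M ^ 2 * (2 / 41472 * (n ^ ((5 : ℝ) / 6) * I0)))) := by
  have hM' : (0 : ℝ) < M := by exact_mod_cast hM
  have h3 : Tendsto (fun X : ℝ => ∑ rs ∈ CS M Q, ((C1 τ M (n * X) (X ^ A) rs).card : ℝ) /
      X ^ ((5 : ℝ) / 6)) atTop
      (𝓝 (∑ _rs ∈ CS M Q, 2 / ((864 * M) * (48 * M)) * (n ^ ((5 : ℝ) / 6) * I0))) := by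
    refine tendsto_finset_sum _ (fun rs _ => ?_)
    exact RR_tendsto hn h1 h2 (by positivity) (by positivity) _ _
  rw [sum_const, nsmul_eq_mul] at h3
  have e : (cnt M Q : ℝ) / M ^ 2 * (2 / 41472 * (n ^ ((5 : ℝ) / 6) * I0)) =
      ((CS M Q).card : ℝ) * (2 / ((864 * M) * (48 * M)) * (n ^ ((5 : ℝ) / 6) * I0)) := by
    unfold cnt
    field_simp
    ring
  rw [e]
  refine h3.congr (fun X => ?_)
  rw [card_CC hM, ← sum_div]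
  push_cast
  rfl

end Pool.Agent.T2H27.Law
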