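import Pool.Agent.T2H27.Law.Cls

/-!
# Local densities
-/

set_option autoImplicit false

namespace Pool.Agent.T2H27.Law

open Finset

/-- the local condition: `p ^ (e+1)` exactly divides the discriminant (at most `p` if `e = 0`) and
the equation is semistable at `p` -/
def Lp (τ : ℤ × ℤ × ℤ) (p e : ℕ) (u v : ℤ) : Prop :=
  (1 ≤ e → (p : ℤ) ^ (e + 1) ∣ (WF τ u v).Δ) ∧ ¬ (p : ℤ) ^ (e + 2) ∣ (WF τ u v).Δ ∧
    ¬ ((p : ℤ) ∣ (WF τ u v).c₄ ∧ (p : ℤ) ∣ (WF τ u v).Δ)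

theorem dvd_congr' {d M a b : ℤ} (hd : d ∣ M) (h : a ≡ b [ZMOD M]) : d ∣ a ↔ d ∣ b := by
  have h1 : d ∣ b - a := hd.trans (Int.modEq_iff_dvd.1 h)
  constructor
  · intro h2
    have := dvd_add h1 h2
    rwa [sub_add_cancel] at this
  · intro h2
    have := dvd_sub h2 h1
    rwa [sub_sub_cancel] at this

theorem WF_c4_mod (τ : ℤ × ℤ × ℤ) {m u v u' v' : ℤ} (hu : u ≡ u' [ZMOD m]) :
    (WF τ u v).c₄ ≡ (WF τ u' v').c₄ [ZMOD m] := by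
  rw [WF_c4, WF_c4]
  exact (Int.ModEq.refl _).sub ((Int.ModEq.refl _).mul hu)

theorem WF_D_mod (τ : ℤ × ℤ × ℤ) {m u v u' v' : ℤ} (hu : u ≡ u' [ZMOD m]) (hv : v ≡ v' [ZMOD m]) :
    (WF τ u v).Δ ≡ (WF τ u' v').Δ [ZMOD m] := by
  rw [WF_D, WF_D]
  gcongr

theorem Per_D (τ : ℤ × ℤ × ℤ) {M : ℕ} {d : ℤ} (hd : d ∣ (M : ℤ)) :
    Per M (fun u v => d ∣ (WF τ u v).Δ) := fun _ _ _ _ hu hv =>
  dvd_congr' hd (WF_D_mod τ hu hv)

theorem Per_c4 (τ : ℤ × ℤ × ℤ) {M : ℕ} {d : ℤ} (hd : d ∣ (M : ℤ)) :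
    Per M (fun u v => d ∣ (WF τ u v).c₄) := fun _ _ _ _ hu _ =>
  dvd_congr' hd (WF_c4_mod τ hu)

theorem Per_Lp (τ : ℤ × ℤ × ℤ) (p e : ℕ) : Per (p ^ (e + 2)) (Lp τ p e) := by
  intro u v u' v' hu hv
  unfold Lp
  have h1 : (p : ℤ) ^ (e + 1) ∣ ((p ^ (e + 2) : ℕ) : ℤ) := by
    push_cast
    exact pow_dvd_pow _ (by omega)
  have h2 : (p : ℤ) ^ (e + 2) ∣ ((p ^ (e + 2) : ℕ) : ℤ) := by
    push_cast
    exact dvd_rfl
  have h3 : (p : ℤ) ∣ ((p ^ (e + 2) : ℕ) : ℤ) := by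
    push_cast
    exact dvd_pow_self _ (by omega)
  exact and_congr (imp_congr_right (fun _ => Per_D τ h1 u v u' v' hu hv))
    (and_congr (not_congr (Per_D τ h2 u v u' v' hu hv))
      (not_congr (and_congr (Per_c4 τ h3 u v u' v' hu hv) (Per_D τ h3 u v u' v' hu hv))))

/-! ### Primes at least five -/

theorem cop_pow {p K : ℕ} (hp : p.Prime) {a : ℤ} (ha : ¬ (p : ℤ) ∣ a) :
    IsCoprime (((p ^ K : ℕ) : ℤ)) a := by
  push_cast
  exact IsCoprime.pow_left ((Nat.prime_iff_prime_int.1 hp).coprime_iff_not_dvd.2 ha)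

theorem cancel_mod {M : ℕ} {a x y : ℤ} (ha : IsCoprime (M : ℤ) a) (h : a * x ≡ a * y [ZMOD M]) :
    x ≡ y [ZMOD M] := by
  rw [Int.modEq_iff_dvd] at h ⊢
  rw [← mul_sub] at h
  exact ha.dvd_of_dvd_mul_left h

theorem ndvd5 {p : ℕ} (hp : p.Prime) (h5 : 5 ≤ p) : ¬ (p : ℤ) ∣ 6 := by
  intro h
  have h1 : p ∣ 2 * 3 := by exact_mod_cast h
  rcases (Nat.Prime.dvd_mul hp).1 h1 with h2 | h2
  · have := Nat.le_of_dvd (by norm_num) h2
    omega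
  · have := Nat.le_of_dvd (by norm_num) h2
    omega

theorem ndvd_of {p : ℕ} (hp : p.Prime) (h5 : 5 ≤ p) {a : ℤ} (k : ℕ) (ha : a ∣ 6 ^ k) :
    ¬ (p : ℤ) ∣ a := by
  intro h
  exact ndvd5 hp h5 ((Nat.prime_iff_prime_int.1 hp).dvd_of_dvd_pow (h.trans ha))

theorem cnt_aff (τ : ℤ × ℤ × ℤ) {p K : ℕ} (hp : p.Prime) (h5 : 5 ≤ p) {R : ℤ → ℤ → Prop}
    (hR : Per (p ^ K) R) :
    cnt (p ^ K) (fun u v => R (WF τ u v).c₄ (WF τ u v).c₆) = cnt (p ^ K) R := by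
  classical
  have hM : 0 < p ^ K := pow_pos hp.pos _
  rw [cnt_eq_sum, cnt_eq_sum]
  have h1 : ∀ r : ℕ, ∑ s ∈ range (p ^ K), (if R (WF τ r s).c₄ (WF τ r s).c₆ then 1 else 0) =
      ∑ s ∈ range (p ^ K), if R (al τ - 48 * (r : ℤ)) s then 1 else 0 := by
    intro r
    have h2 := sum_inj hM (fun v => be τ r - 864 * v) (by
      intro v v' h
      apply cancel_mod (cop_pow hp (ndvd_of hp h5 (a := 864) 5 (by norm_num)))
      have h3 := (Int.ModEq.refl (be τ r)).sub h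
      rw [sub_sub_cancel, sub_sub_cancel] at h3
      exact h3) (fun w => if R (al τ - 48 * (r : ℤ)) w then 1 else 0) (by
      intro x y hxy
      have := hR (al τ - 48 * (r : ℤ)) x (al τ - 48 * (r : ℤ)) y (Int.ModEq.refl _) hxy
      simp only [this])
    rw [← h2]
    refine sum_congr rfl (fun s _ => ?_)
    rw [WF_c4', WF_c6']
  rw [sum_congr rfl (fun r _ => h1 r)]
  have h2 := sum_inj hM (fun u => al τ - 48 * u) (by
      intro v v' h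
      apply cancel_mod (cop_pow hp (ndvd_of hp h5 (a := 48) 4 (by norm_num)))
      have h3 := (Int.ModEq.refl (al τ)).sub h
      rw [sub_sub_cancel, sub_sub_cancel] at h3
      exact h3) (fun x => ∑ s ∈ range (p ^ K), if R x s then 1 else 0) (by
      intro x y hxy
      refine sum_congr rfl (fun s _ => ?_)
      have := hR x s y s hxy (Int.ModEq.refl _)
      simp only [this])
  exact h2

/-- the number of solutions of `x ^ 3 = y ^ 2` -/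
theorem cnt_xy {p j : ℕ} (hp : p.Prime) (hj : 1 ≤ j) :
    cnt (p ^ j) (fun x y => ¬ (p : ℤ) ∣ x ∧ (p : ℤ) ^ j ∣ x ^ 3 - y ^ 2) = (p ^ j).totient := by
  have hM : 0 < p ^ j := pow_pos hp.pos _
  have hpp := Nat.prime_iff_prime_int.1 hp
  have hj0 : j ≠ 0 := by omega
  have hpj : p ∣ p ^ j := dvd_pow_self _ hj0
  unfold cnt
  rw [Nat.totient_eq_card_coprime]
  symm
  refine card_bij (fun t _ => (t ^ 2 % p ^ j, t ^ 3 % p ^ j)) ?_ ?_ ?_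
  · intro t ht
    rw [mem_filter, mem_range] at ht
    rw [mem_CS]
    refine ⟨⟨Nat.mod_lt _ hM, Nat.mod_lt _ hM⟩, ?_, ?_⟩
    · simp only
      intro h
      have h1 : p ∣ t ^ 2 % p ^ j := by exact_mod_cast h
      have h2 : p ∣ t ^ 2 := (Nat.dvd_mod_iff hpj).1 h1
      have h3 : p ∣ t := hp.dvd_of_dvd_pow h2
      have h4 := Nat.dvd_gcd hpj h3
      have h5 : (p ^ j).gcd t = 1 := ht.2
      rw [h5] at h4
      exact hp.one_lt.ne' (Nat.dvd_one.1 h4)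
    · simp only
      have e1 : ((t ^ 2 % p ^ j : ℕ) : ℤ) ≡ (t : ℤ) ^ 2 [ZMOD ((p ^ j : ℕ) : ℤ)] := by
        have := (Int.natCast_modEq_iff (n := p ^ j)).2 (Nat.mod_modEq (t ^ 2) (p ^ j))
        rwa [Nat.cast_pow] at this
      have e2 : ((t ^ 3 % p ^ j : ℕ) : ℤ) ≡ (t : ℤ) ^ 3 [ZMOD ((p ^ j : ℕ) : ℤ)] := by
        have := (Int.natCast_modEq_iff (n := p ^ j)).2 (Nat.mod_modEq (t ^ 3) (p ^ j))
        rwa [Nat.cast_pow] at this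
      have e3 := (e1.pow 3).sub (e2.pow 2)
      have e4 : ((t : ℤ) ^ 2) ^ 3 - ((t : ℤ) ^ 3) ^ 2 = 0 := by ring
      rw [e4] at e3
      have e5 := (Int.modEq_zero_iff_dvd).1 e3
      rwa [Nat.cast_pow] at e5
  · intro t ht s hs h
    rw [mem_filter, mem_range] at ht hs
    simp only [Prod.mk.injEq] at h
    have h1 : t ^ 2 ≡ s ^ 2 [MOD p ^ j] := h.1
    have h2 : t ^ 3 ≡ s ^ 3 [MOD p ^ j] := h.2
    have h3 : t ^ 2 * t ≡ t ^ 2 * s [MOD p ^ j] := by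
      calc t ^ 2 * t = t ^ 3 := by ring
        _ ≡ s ^ 3 [MOD p ^ j] := h2
        _ = s ^ 2 * s := by ring
        _ ≡ t ^ 2 * s [MOD p ^ j] := (h1.symm).mul_right s
    have h4 : (p ^ j).Coprime (t ^ 2) := Nat.Coprime.pow_right 2 ht.2
    have h5 : t ≡ s [MOD p ^ j] := Nat.ModEq.cancel_left_of_coprime h4 h3
    exact Nat.ModEq.eq_of_lt_of_lt h5 ht.1 hs.1
  · rintro ⟨x, y⟩ hp'
    rw [mem_CS] at hp'
    obtain ⟨⟨h1, h2⟩, h3, h4⟩ := hp'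
    simp only at h1 h2 h3 h4
    have h3' : ¬ p ∣ x := fun h => h3 (by exact_mod_cast h)
    have hx : x.Coprime (p ^ j) := (Nat.Coprime.pow_right j ((hp.coprime_iff_not_dvd.2 h3').symm))
    have h4' : x ^ 3 ≡ y ^ 2 [MOD p ^ j] := by
      rw [← Int.natCast_modEq_iff]
      apply Int.ModEq.symm
      rw [Int.modEq_iff_dvd]
      push_cast
      exact h4
    have hM1 : 1 < p ^ j := Nat.one_lt_pow hj0 hp.one_lt
    obtain ⟨x', -, hx'⟩ := Nat.exists_mul_mod_eq_one_of_coprime hx hM1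
    have hx1 : x * x' ≡ 1 [MOD p ^ j] := by
      show x * x' % p ^ j = 1 % p ^ j
      rw [hx', Nat.mod_eq_of_lt hM1]
    have hy : ¬ p ∣ y := by
      intro h
      have h5 : p ∣ x ^ 3 := by
        have h6 : x ^ 3 ≡ y ^ 2 [MOD p] := h4'.of_dvd hpj
        exact (h6.dvd_iff dvd_rfl).2 (dvd_pow h (by norm_num))
      exact h3' (hp.dvd_of_dvd_pow h5)
    have hx'p : ¬ p ∣ x' := by
      intro h
      have h6 : x * x' ≡ 1 [MOD p] := hx1.of_dvd hpj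
      have h7 := (h6.dvd_iff dvd_rfl).1 (Dvd.dvd.mul_left h x)
      exact hp.one_lt.ne' (Nat.dvd_one.1 h7)
    have ht0 : ¬ p ∣ y * x' := by
      intro h
      rcases (hp.dvd_mul).1 h with h | h
      · exact hy h
      · exact hx'p h
    have hmod : (y * x') % p ^ j ≡ y * x' [MOD p ^ j] := Nat.mod_modEq _ _
    refine ⟨(y * x') % p ^ j, ?_, ?_⟩
    · rw [mem_filter, mem_range]
      refine ⟨Nat.mod_lt _ hM, ?_⟩
      apply Nat.Coprime.pow_left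
      rw [hp.coprime_iff_not_dvd]
      intro h
      exact ht0 ((Nat.dvd_mod_iff hpj).1 h)
    · simp only [Prod.mk.injEq]
      constructor
      · apply Nat.mod_eq_of_modEq _ h1
        calc (y * x' % p ^ j) ^ 2 ≡ (y * x') ^ 2 [MOD p ^ j] := hmod.pow 2
          _ = y ^ 2 * x' ^ 2 := by ring
          _ ≡ x ^ 3 * x' ^ 2 [MOD p ^ j] := h4'.symm.mul_right _
          _ = x * (x * x') ^ 2 := by ring
          _ ≡ x * 1 ^ 2 [MOD p ^ j] := (hx1.pow 2).mul_left x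
          _ = x := by ring
      · apply Nat.mod_eq_of_modEq _ h2
        calc (y * x' % p ^ j) ^ 3 ≡ (y * x') ^ 3 [MOD p ^ j] := hmod.pow 3
          _ = y ^ 2 * (y * x' ^ 3) := by ring
          _ ≡ x ^ 3 * (y * x' ^ 3) [MOD p ^ j] := h4'.symm.mul_right _
          _ = y * (x * x') ^ 3 := by ring
          _ ≡ y * 1 ^ 3 [MOD p ^ j] := (hx1.pow 3).mul_left y
          _ = y := by ring

theorem cnt_zero {p : ℕ} (hp : 0 < p) :
    cnt p (fun x y => (p : ℤ) ∣ x ∧ (p : ℤ) ∣ y) = 1 := by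
  unfold cnt
  rw [card_eq_one]
  refine ⟨(0, 0), ?_⟩
  ext q
  rw [mem_CS, mem_singleton]
  constructor
  · rintro ⟨⟨h1, h2⟩, h3, h4⟩
    have h3' : p ∣ q.1 := by exact_mod_cast h3
    have h4' : p ∣ q.2 := by exact_mod_cast h4
    exact Prod.ext (Nat.eq_zero_of_dvd_of_lt h3' h1) (Nat.eq_zero_of_dvd_of_lt h4' h2)
  · rintro rfl
    exact ⟨⟨hp, hp⟩, by simp, by simp⟩

theorem Per_xy {p j : ℕ} (hj : 1 ≤ j) :
    Per (p ^ j) (fun x y => ¬ (p : ℤ) ∣ x ∧ (p : ℤ) ^ j ∣ x ^ 3 - y ^ 2) := by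
  intro x y x' y' hx hy
  have h1 : (p : ℤ) ∣ ((p ^ j : ℕ) : ℤ) := by
    push_cast
    exact dvd_pow_self _ (by omega)
  have h2 : (p : ℤ) ^ j ∣ ((p ^ j : ℕ) : ℤ) := by
    push_cast
    exact dvd_rfl
  exact and_congr (not_congr (dvd_congr' h1 hx)) (dvd_congr' h2 ((hx.pow 3).sub (hy.pow 2)))

/-- unit `c₄`, discriminant divisible by `p ^ j` -/
theorem cnt_unit (τ : ℤ × ℤ × ℤ) {p j K : ℕ} (hp : p.Prime) (h5 : 5 ≤ p) (hj : 1 ≤ j)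
    (hjK : j ≤ K) :
    cnt (p ^ K) (fun u v => ¬ (p : ℤ) ∣ (WF τ u v).c₄ ∧ (p : ℤ) ^ j ∣ (WF τ u v).Δ) =
      (p ^ (K - j)) ^ 2 * (p ^ (j - 1) * (p - 1)) := by
  have hK : p ^ j * p ^ (K - j) = p ^ K := by rw [← pow_add]; congr 1; omega
  have hPer : Per (p ^ K) (fun x y => ¬ (p : ℤ) ∣ x ∧ (p : ℤ) ^ j ∣ x ^ 3 - y ^ 2) :=
    (Per_xy hj).mono (pow_dvd_pow _ hjK)
  have h1 := cnt_aff τ hp h5 hPer
  have h2 : cnt (p ^ K) (fun u v => ¬ (p : ℤ) ∣ (WF τ u v).c₄ ∧ (p : ℤ) ^ j ∣ (WF τ u v).Δ) =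
      cnt (p ^ K) (fun u v => ¬ (p : ℤ) ∣ (WF τ u v).c₄ ∧
        (p : ℤ) ^ j ∣ (WF τ u v).c₄ ^ 3 - (WF τ u v).c₆ ^ 2) := by
    refine cnt_congr (fun u v => and_congr_right (fun _ => ?_))
    rw [← WF_rel]
    constructor
    · exact fun h => Dvd.dvd.mul_left h _
    · intro h
      have h6 := cop_pow (K := j) hp (ndvd_of hp h5 (a := 1728) 6 (by norm_num))
      push_cast at h6
      exact h6.dvd_of_dvd_mul_left h
  rw [h2, h1, ← hK, cnt_lift _ (Per_xy hj), cnt_xy hp hj, Nat.totient_prime_pow hp (by omega)]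

/-- bad reduction of additive type -/
theorem cnt_add (τ : ℤ × ℤ × ℤ) {p K : ℕ} (hp : p.Prime) (h5 : 5 ≤ p) (hK : 1 ≤ K) :
    cnt (p ^ K) (fun u v => (p : ℤ) ∣ (WF τ u v).c₄ ∧ (p : ℤ) ∣ (WF τ u v).Δ) =
      (p ^ (K - 1)) ^ 2 := by
  have hKK : p * p ^ (K - 1) = p ^ K := by rw [← pow_succ']; congr 1; omega
  have hpp := Nat.prime_iff_prime_int.1 hp
  have hPer0 : Per p (fun x y => (p : ℤ) ∣ x ∧ (p : ℤ) ∣ y) := fun x y x' y' hx hy =>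
    and_congr (dvd_congr' dvd_rfl hx) (dvd_congr' dvd_rfl hy)
  have hPer : Per (p ^ K) (fun x y => (p : ℤ) ∣ x ∧ (p : ℤ) ∣ y) :=
    hPer0.mono ⟨_, hKK.symm⟩
  have h1 := cnt_aff τ hp h5 hPer
  have h2 : cnt (p ^ K) (fun u v => (p : ℤ) ∣ (WF τ u v).c₄ ∧ (p : ℤ) ∣ (WF τ u v).Δ) =
      cnt (p ^ K) (fun u v => (p : ℤ) ∣ (WF τ u v).c₄ ∧ (p : ℤ) ∣ (WF τ u v).c₆) := by
    refine cnt_congr (fun u v => and_congr_right (fun h4 => ?_))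
    have hrel := WF_rel τ u v
    constructor
    · intro h
      have h6 : (p : ℤ) ∣ (WF τ u v).c₆ ^ 2 := by
        have : (WF τ u v).c₆ ^ 2 = (WF τ u v).c₄ ^ 3 - 1728 * (WF τ u v).Δ := by linarith
        rw [this]
        exact dvd_sub (dvd_pow h4 (by norm_num)) (Dvd.dvd.mul_left h _)
      exact hpp.dvd_of_dvd_pow h6
    · intro h
      have h6 : (p : ℤ) ∣ 1728 * (WF τ u v).Δ := by
        rw [hrel]
        exact dvd_sub (dvd_pow h4 (by norm_num)) (dvd_pow h (by norm_num))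
      exact (hpp.dvd_or_dvd h6).resolve_left (ndvd_of hp h5 6 (by norm_num))
  rw [h2, h1, ← hKK, cnt_lift _ hPer0, cnt_zero hp.pos, mul_one]

/-- the density at a prime at least five -/
noncomputable def lam (p e : ℕ) : ℝ :=
  if e = 0 then 1 - 2 / (p : ℝ) ^ 2 + 1 / (p : ℝ) ^ 3 else (1 - 1 / (p : ℝ)) ^ 2 / (p : ℝ) ^ (e + 1)

theorem dens5 (τ : ℤ × ℤ × ℤ) {p : ℕ} (e : ℕ) (hp : p.Prime) (h5 : 5 ≤ p) :
    (cnt (p ^ (e + 2)) (Lp τ p e) : ℝ) / ((p ^ (e + 2) : ℕ) : ℝ) ^ 2 = lam p e := by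
  have hp0 : (0 : ℝ) < p := by exact_mod_cast hp.pos
  have hp1 : 1 ≤ p := hp.one_lt.le
  unfold lam
  split_ifs with h0
  · subst h0
    have h1 := cnt_not (M := p ^ (0 + 2)) (Q := Lp τ p 0)
    have h2 : cnt (p ^ (0 + 2)) (fun u v => ¬ Lp τ p 0 u v) =
        cnt (p ^ 2) (fun u v => (¬ (p : ℤ) ∣ (WF τ u v).c₄ ∧ (p : ℤ) ^ 2 ∣ (WF τ u v).Δ) ∨
          ((p : ℤ) ∣ (WF τ u v).c₄ ∧ (p : ℤ) ∣ (WF τ u v).Δ)) := by
      refine cnt_congr (fun u v => ?_)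
      unfold Lp
      have h3 : (p : ℤ) ^ 2 ∣ (WF τ u v).Δ → (p : ℤ) ∣ (WF τ u v).Δ :=
        fun h => (dvd_pow_self _ (by norm_num)).trans h
      simp only [zero_add]
      have h4 : ¬ (1 ≤ 0) := by omega
      tauto
    rw [h2, cnt_or (by tauto), cnt_unit τ hp h5 (by norm_num) le_rfl,
      cnt_add τ hp h5 (by norm_num)] at h1
    have h3 : (cnt (p ^ (0 + 2)) (Lp τ p 0) : ℝ) + ((p : ℝ) * ((p : ℝ) - 1) + (p : ℝ) ^ 2) =
        (p : ℝ) ^ 4 := by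
      have h4 : ((cnt (p ^ (0 + 2)) (Lp τ p 0) + ((p ^ (2 - 2)) ^ 2 * (p ^ (2 - 1) * (p - 1)) +
        (p ^ (2 - 1)) ^ 2) : ℕ) : ℝ) = (((p ^ (0 + 2)) ^ 2 : ℕ) : ℝ) := by rw [h1]
      push_cast [Nat.cast_sub hp1] at h4
      norm_num at h4
      rw [h4]
      ring
    have h4 : (cnt (p ^ (0 + 2)) (Lp τ p 0) : ℝ) =
      (p : ℝ) ^ 4 - ((p : ℝ) * ((p : ℝ) - 1) + (p : ℝ) ^ 2) := by linarith
    rw [h4]
    push_cast
    field_simp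
    ring
  · have he : 1 ≤ e := by omega
    have h1 := cnt_diff (M := p ^ (e + 2))
      (Q := fun u v => ¬ (p : ℤ) ∣ (WF τ u v).c₄ ∧ (p : ℤ) ^ (e + 1) ∣ (WF τ u v).Δ)
      (R := fun u v => ¬ (p : ℤ) ∣ (WF τ u v).c₄ ∧ (p : ℤ) ^ (e + 2) ∣ (WF τ u v).Δ)
      (fun u v h => ⟨h.1, (pow_dvd_pow _ (by omega)).trans h.2⟩)
    have h2 : cnt (p ^ (e + 2)) (Lp τ p e) = cnt (p ^ (e + 2)) (fun u v =>
        (¬ (p : ℤ) ∣ (WF τ u v).c₄ ∧ (p : ℤ) ^ (e + 1) ∣ (WF τ u v).Δ) ∧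
        ¬ (¬ (p : ℤ) ∣ (WF τ u v).c₄ ∧ (p : ℤ) ^ (e + 2) ∣ (WF τ u v).Δ)) := by
      refine cnt_congr (fun u v => ?_)
      unfold Lp
      have h3 : (p : ℤ) ^ (e + 1) ∣ (WF τ u v).Δ → (p : ℤ) ∣ (WF τ u v).Δ :=
        fun h => (dvd_pow_self _ (by omega)).trans h
      tauto
    rw [← h2, cnt_unit τ hp h5 (by omega) le_rfl, cnt_unit τ hp h5 (by omega) (by omega)] at h1
    have e1 : e + 2 - (e + 1) = 1 := by omega
    have e2 : e + 2 - (e + 2) = 0 := by omega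
    have e3 : e + 1 - 1 = e := by omega
    have e4 : e + 2 - 1 = e + 1 := by omega
    rw [e1, e2, e3, e4] at h1
    have h3 : (cnt (p ^ (e + 2)) (Lp τ p e) : ℝ) + (p : ℝ) ^ (e + 1) * ((p : ℝ) - 1) =
        (p : ℝ) ^ 2 * ((p : ℝ) ^ e * ((p : ℝ) - 1)) := by
      have h4 : ((cnt (p ^ (e + 2)) (Lp τ p e) + (p ^ 0) ^ 2 * (p ^ (e + 1) * (p - 1)) : ℕ) : ℝ) =
        (((p ^ 1) ^ 2 * (p ^ e * (p - 1)) : ℕ) : ℝ) := by rw [h1]
      push_cast [Nat.cast_sub hp1] at h4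
      norm_num at h4
      rw [h4]
    have h4 : (cnt (p ^ (e + 2)) (Lp τ p e) : ℝ) =
        (p : ℝ) ^ 2 * ((p : ℝ) ^ e * ((p : ℝ) - 1)) - (p : ℝ) ^ (e + 1) * ((p : ℝ) - 1) := by linarith
    rw [h4]
    push_cast
    have : (p : ℝ) ^ e ≠ 0 := by positivity
    rw [pow_succ, pow_add]
    field_simp
    ring

end Pool.Agent.T2H27.Law
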