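import Pool.Agent.T2H27.Law.Dens

/-!
# Local densities at two and three
-/

set_option autoImplicit false

namespace Pool.Agent.T2H27.Law

open Finset

theorem c4_unit (τ : ℤ × ℤ × ℤ) {p : ℕ} (hp : p.Prime) (h5 : p < 5) (u v : ℤ) :
    (p : ℤ) ∣ (WF τ u v).c₄ ↔ (p : ℤ) ∣ B2 τ := by
  have hpp := Nat.prime_iff_prime_int.1 hp
  have h24 : (p : ℤ) ∣ 24 := by
    have h2 := hp.two_le
    interval_cases p
    · norm_num
    · norm_num
    · exact absurd hp (by norm_num)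
  rw [WF_c4]
  have e : B2 τ ^ 2 - 24 * (τ.1 * τ.2.2) - 48 * u = B2 τ ^ 2 - 24 * (τ.1 * τ.2.2 + 2 * u) := by ring
  rw [e]
  have h1 : (p : ℤ) ∣ 24 * (τ.1 * τ.2.2 + 2 * u) := Dvd.dvd.mul_right h24 _
  constructor
  · intro h
    have := dvd_add h h1
    rw [sub_add_cancel] at this
    exact hpp.dvd_of_dvd_pow this
  · intro h
    exact dvd_sub (dvd_pow h (by norm_num)) h1

theorem D_inj (τ : ℤ × ℤ × ℤ) {p K : ℕ} (hp : p.Prime) (h5 : p < 5) (hB : ¬ (p : ℤ) ∣ B2 τ)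
    (u v v' : ℤ) (h : (WF τ u v).Δ ≡ (WF τ u v').Δ [ZMOD ((p ^ K : ℕ) : ℤ)]) :
    v ≡ v' [ZMOD ((p ^ K : ℕ) : ℤ)] := by
  have hpp := Nat.prime_iff_prime_int.1 hp
  have h36 : (p : ℤ) ∣ 36 := by
    have h2 := hp.two_le
    interval_cases p
    · norm_num
    · norm_num
    · exact absurd hp (by norm_num)
  rw [WF_D, WF_D, Int.modEq_iff_dvd] at h
  rw [Int.modEq_iff_dvd]
  have e : (-432 * v' ^ 2 +
      (-B2 τ ^ 3 - 216 * τ.2.2 ^ 2 + 36 * B2 τ * (2 * u + τ.1 * τ.2.2)) * v' +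
      (B2 τ ^ 2 * (τ.1 * τ.2.2 * u - τ.2.1 * τ.2.2 ^ 2 + u ^ 2) - 8 * (2 * u + τ.1 * τ.2.2) ^ 3 -
        27 * τ.2.2 ^ 4 + 9 * B2 τ * (2 * u + τ.1 * τ.2.2) * τ.2.2 ^ 2)) - (-432 * v ^ 2 +
      (-B2 τ ^ 3 - 216 * τ.2.2 ^ 2 + 36 * B2 τ * (2 * u + τ.1 * τ.2.2)) * v +
      (B2 τ ^ 2 * (τ.1 * τ.2.2 * u - τ.2.1 * τ.2.2 ^ 2 + u ^ 2) - 8 * (2 * u + τ.1 * τ.2.2) ^ 3 -
        27 * τ.2.2 ^ 4 + 9 * B2 τ * (2 * u + τ.1 * τ.2.2) * τ.2.2 ^ 2)) =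
      (36 * (-12 * (v + v') - 6 * τ.2.2 ^ 2 + B2 τ * (2 * u + τ.1 * τ.2.2)) - B2 τ ^ 3) *
        (v' - v) := by ring
  rw [e] at h
  refine (cop_pow (K := K) hp ?_).dvd_of_dvd_mul_left h
  intro h1
  have h2 := dvd_sub (Dvd.dvd.mul_right h36
    (-12 * (v + v') - 6 * τ.2.2 ^ 2 + B2 τ * (2 * u + τ.1 * τ.2.2))) h1
  rw [sub_sub_cancel] at h2
  exact hB (hpp.dvd_of_dvd_pow h2)

theorem cnt_A (τ : ℤ × ℤ × ℤ) {p j K : ℕ} (hp : p.Prime) (h5 : p < 5) (hB : ¬ (p : ℤ) ∣ B2 τ)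
    (hjK : j ≤ K) :
    cnt (p ^ K) (fun u v => (p : ℤ) ^ j ∣ (WF τ u v).Δ) = p ^ K * p ^ (K - j) := by
  have hM : 0 < p ^ K := pow_pos hp.pos _
  have hK : p ^ j * p ^ (K - j) = p ^ K := by rw [← pow_add]; congr 1; omega
  rw [cnt_eq_sum]
  have h1 : ∀ r ∈ range (p ^ K), (∑ s ∈ range (p ^ K), @ite ℕ ((p : ℤ) ^ j ∣ (WF τ r s).Δ)
      (Classical.propDecidable _) 1 0) = p ^ (K - j) := by
    intro r _
    have h2 := sum_inj hM (fun v => (WF τ r v).Δ) (fun v v' h => D_inj τ hp h5 hB r v v' h)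
      (fun w => if ((p ^ j : ℕ) : ℤ) ∣ w then 1 else 0) (by
        intro x y hxy
        have h3 : ((p ^ j : ℕ) : ℤ) ∣ ((p ^ K : ℕ) : ℤ) := by
          rw [← hK]
          push_cast
          exact dvd_mul_right _ _
        simp only [dvd_congr' h3 hxy])
    have h3 := sum_dvd (d := p ^ j) (k := p ^ (K - j)) (pow_pos hp.pos _)
    rw [hK] at h3
    rw [← h3, ← h2]
    refine sum_congr rfl (fun s _ => ?_)
    simp only [Nat.cast_pow]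
    by_cases h4 : (p : ℤ) ^ j ∣ (WF τ r s).Δ
    · rw [if_pos h4, if_pos h4]
    · rw [if_neg h4, if_neg h4]
  rw [sum_congr rfl h1, sum_const, card_range, smul_eq_mul]

theorem densA (τ : ℤ × ℤ × ℤ) {p : ℕ} (e : ℕ) (hp : p.Prime) (h5 : p < 5)
    (hB : ¬ (p : ℤ) ∣ B2 τ) :
    (cnt (p ^ (e + 2)) (Lp τ p e) : ℝ) / ((p ^ (e + 2) : ℕ) : ℝ) ^ 2 =
      if e = 0 then 1 - 1 / (p : ℝ) ^ 2 else (1 - 1 / (p : ℝ)) / (p : ℝ) ^ (e + 1) := by
  have hp0 : (0 : ℝ) < p := by exact_mod_cast hp.pos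
  have hc : ∀ u v, ¬ (p : ℤ) ∣ (WF τ u v).c₄ := fun u v h => hB ((c4_unit τ hp h5 u v).1 h)
  split_ifs with h0
  · subst h0
    have h1 := cnt_not (M := p ^ (0 + 2)) (Q := Lp τ p 0)
    have h2 : cnt (p ^ (0 + 2)) (fun u v => ¬ Lp τ p 0 u v) =
        cnt (p ^ 2) (fun u v => (p : ℤ) ^ 2 ∣ (WF τ u v).Δ) := by
      refine cnt_congr (fun u v => ?_)
      unfold Lp
      have h3 := hc u v
      simp only [zero_add]
      have h4 : ¬ (1 ≤ 0) := by omega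
      tauto
    rw [h2, cnt_A τ hp h5 hB le_rfl] at h1
    have h4 : (cnt (p ^ (0 + 2)) (Lp τ p 0) : ℝ) = (p : ℝ) ^ 4 - (p : ℝ) ^ 2 := by
      have h4 : ((cnt (p ^ (0 + 2)) (Lp τ p 0) + p ^ 2 * p ^ (2 - 2) : ℕ) : ℝ) =
        (((p ^ (0 + 2)) ^ 2 : ℕ) : ℝ) := by rw [h1]
      push_cast at h4
      norm_num at h4
      have e : ((p : ℝ) ^ 2) ^ 2 = (p : ℝ) ^ 4 := by ring
      linarith
    rw [h4]
    push_cast
    field_simp
  · have h1 := cnt_diff (M := p ^ (e + 2))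
      (Q := fun u v => (p : ℤ) ^ (e + 1) ∣ (WF τ u v).Δ)
      (R := fun u v => (p : ℤ) ^ (e + 2) ∣ (WF τ u v).Δ)
      (fun u v h => (pow_dvd_pow _ (by omega)).trans h)
    have h2 : cnt (p ^ (e + 2)) (Lp τ p e) = cnt (p ^ (e + 2)) (fun u v =>
        (p : ℤ) ^ (e + 1) ∣ (WF τ u v).Δ ∧ ¬ (p : ℤ) ^ (e + 2) ∣ (WF τ u v).Δ) := by
      refine cnt_congr (fun u v => ?_)
      unfold Lp
      have h3 := hc u v
      have h4 : 1 ≤ e := by omega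
      tauto
    rw [← h2, cnt_A τ hp h5 hB le_rfl, cnt_A τ hp h5 hB (by omega)] at h1
    have e1 : e + 2 - (e + 1) = 1 := by omega
    have e2 : e + 2 - (e + 2) = 0 := by omega
    rw [e1, e2] at h1
    have h4 : (cnt (p ^ (e + 2)) (Lp τ p e) : ℝ) =
        (p : ℝ) ^ (e + 2) * p - (p : ℝ) ^ (e + 2) := by
      have h4 : ((cnt (p ^ (e + 2)) (Lp τ p e) + p ^ (e + 2) * p ^ 0 : ℕ) : ℝ) =
        ((p ^ (e + 2) * p ^ 1 : ℕ) : ℝ) := by rw [h1]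
      push_cast at h4
      rw [pow_zero, pow_one, mul_one] at h4
      linarith
    rw [h4]
    push_cast
    have : (p : ℝ) ^ e ≠ 0 := by positivity
    rw [pow_succ (p : ℝ) (e), pow_add]
    field_simp

theorem densB0 (τ : ℤ × ℤ × ℤ) {p : ℕ} (e : ℕ) (hp : p.Prime) (h5 : p < 5)
    (hB : (p : ℤ) ∣ B2 τ) (he : 1 ≤ e) : cnt (p ^ (e + 2)) (Lp τ p e) = 0 := by
  apply cnt_false
  intro u v h
  unfold Lp at h
  obtain ⟨h1, -, h3⟩ := h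
  exact h3 ⟨(c4_unit τ hp h5 u v).2 hB, (dvd_pow_self _ (by omega)).trans (h1 he)⟩

theorem densB2 (τ : ℤ × ℤ × ℤ) (hτ : τ ∈ TT) (hB : (2 : ℤ) ∣ B2 τ) :
    cnt (2 ^ (0 + 2)) (Lp τ 2 0) = if τ.2.2 = 0 then 0 else 16 := by
  have hpar : ∀ u v : ℤ, (2 : ℤ) ∣ (WF τ u v).Δ ↔ τ.2.2 = 0 := by
    intro u v
    obtain ⟨b, hb⟩ := hB
    obtain ⟨a1, a2, a3⟩ := τ
    unfold TT at hτ
    simp only [mem_product, mem_insert, mem_singleton] at hτ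
    obtain ⟨-, -, h3⟩ := hτ
    rw [WF_D, hb]
    simp only
    have e : -432 * v ^ 2 + (-(2 * b) ^ 3 - 216 * a3 ^ 2 + 36 * (2 * b) * (2 * u + a1 * a3)) * v +
        ((2 * b) ^ 2 * (a1 * a3 * u - a2 * a3 ^ 2 + u ^ 2) - 8 * (2 * u + a1 * a3) ^ 3 -
        27 * a3 ^ 4 + 9 * (2 * b) * (2 * u + a1 * a3) * a3 ^ 2) =
        2 * (-216 * v ^ 2 + (-4 * b ^ 3 - 108 * a3 ^ 2 + 36 * b * (2 * u + a1 * a3)) * v +
        (2 * b ^ 2 * (a1 * a3 * u - a2 * a3 ^ 2 + u ^ 2) - 4 * (2 * u + a1 * a3) ^ 3 +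
        9 * b * (2 * u + a1 * a3) * a3 ^ 2)) - 27 * a3 ^ 4 := by ring
    rw [e]
    generalize (-216 * v ^ 2 + (-4 * b ^ 3 - 108 * a3 ^ 2 + 36 * b * (2 * u + a1 * a3)) * v +
        (2 * b ^ 2 * (a1 * a3 * u - a2 * a3 ^ 2 + u ^ 2) - 4 * (2 * u + a1 * a3) ^ 3 +
        9 * b * (2 * u + a1 * a3) * a3 ^ 2)) = z
    rcases h3 with rfl | rfl
    · norm_num
    · norm_num
  have hc : ∀ u v, (2 : ℤ) ∣ (WF τ u v).c₄ := fun u v =>
    (c4_unit τ Nat.prime_two (by norm_num) u v).2 hB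
  split_ifs with h0
  · apply cnt_false
    intro u v h
    unfold Lp at h
    exact h.2.2 ⟨hc u v, (hpar u v).2 h0⟩
  · rw [cnt_true]
    · norm_num
    · intro u v
      unfold Lp
      have h1 : ¬ (2 : ℤ) ∣ (WF τ u v).Δ := fun h => h0 ((hpar u v).1 h)
      refine ⟨fun h => absurd h (by norm_num), fun h => h1 ?_, fun h => h1 h.2⟩
      exact (dvd_pow_self _ (by norm_num)).trans h

theorem densB3 (τ : ℤ × ℤ × ℤ) (hB : (3 : ℤ) ∣ B2 τ) :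
    cnt (3 ^ (0 + 2)) (Lp τ 3 0) = 54 := by
  have hpar : ∀ u v : ℤ, (3 : ℤ) ∣ (WF τ u v).Δ ↔ (3 : ℤ) ∣ 2 * u + τ.1 * τ.2.2 := by
    intro u v
    obtain ⟨b, hb⟩ := hB
    rw [WF_D, hb]
    have e : -432 * v ^ 2 + (-(3 * b) ^ 3 - 216 * τ.2.2 ^ 2 +
        36 * (3 * b) * (2 * u + τ.1 * τ.2.2)) * v +
        ((3 * b) ^ 2 * (τ.1 * τ.2.2 * u - τ.2.1 * τ.2.2 ^ 2 + u ^ 2) -
        8 * (2 * u + τ.1 * τ.2.2) ^ 3 - 27 * τ.2.2 ^ 4 +
        9 * (3 * b) * (2 * u + τ.1 * τ.2.2) * τ.2.2 ^ 2) =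
        3 * (-144 * v ^ 2 + (-9 * b ^ 3 - 72 * τ.2.2 ^ 2 +
        36 * b * (2 * u + τ.1 * τ.2.2)) * v +
        (3 * b ^ 2 * (τ.1 * τ.2.2 * u - τ.2.1 * τ.2.2 ^ 2 + u ^ 2) -
        3 * (2 * u + τ.1 * τ.2.2) ^ 3 - 9 * τ.2.2 ^ 4 +
        9 * b * (2 * u + τ.1 * τ.2.2) * τ.2.2 ^ 2)) + (2 * u + τ.1 * τ.2.2) ^ 3 := by ring
    rw [e, dvd_add_right (dvd_mul_right _ _)]
    constructor
    · exact fun h => Int.prime_three.dvd_of_dvd_pow h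
    · exact fun h => dvd_pow h (by norm_num)
  have hc : ∀ u v, (3 : ℤ) ∣ (WF τ u v).c₄ := fun u v =>
    (c4_unit τ Nat.prime_three (by norm_num) u v).2 hB
  have h1 := cnt_not (M := 3 ^ (0 + 2)) (Q := Lp τ 3 0)
  have h2 : cnt (3 ^ (0 + 2)) (fun u v => ¬ Lp τ 3 0 u v) = 27 := by
    have h3 : cnt (3 ^ (0 + 2)) (fun u v => ¬ Lp τ 3 0 u v) =
        cnt (3 ^ 2) (fun u _ => (3 : ℤ) ∣ 2 * u + τ.1 * τ.2.2) := by
      refine cnt_congr (fun u v => ?_)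
      unfold Lp
      rw [← hpar u v]
      have h3 : (3 : ℤ) ^ 2 ∣ (WF τ u v).Δ → (3 : ℤ) ∣ (WF τ u v).Δ :=
        fun h => (dvd_pow_self _ (by norm_num)).trans h
      have h5 := hc u v
      simp only [zero_add, Nat.cast_ofNat]
      have h4 : ¬ (1 ≤ 0) := by omega
      tauto
    rw [h3, cnt_eq_sum]
    have h4 := sum_inj (M := 3 ^ 2) (by norm_num) (fun u => 2 * u + τ.1 * τ.2.2) (by
      intro v v' h
      have h5 : (2 : ℤ) * v ≡ 2 * v' [ZMOD ((3 ^ 2 : ℕ) : ℤ)] := Int.ModEq.add_right_cancel' _ h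
      exact cancel_mod (by norm_num : IsCoprime (((3 ^ 2 : ℕ) : ℤ)) 2) h5)
      (fun w => if ((3 : ℕ) : ℤ) ∣ w then 9 else 0) (by
        intro x y hxy
        have h3 : ((3 : ℕ) : ℤ) ∣ ((3 ^ 2 : ℕ) : ℤ) := by norm_num
        simp only [dvd_congr' h3 hxy])
    have h5 := sum_dvd (d := 3) (k := 3) (by norm_num)
    have h6 : ∑ w ∈ range (3 ^ 2), (if ((3 : ℕ) : ℤ) ∣ (w : ℤ) then 9 else 0) = 27 := by
      have : ∀ w ∈ range (3 ^ 2), (if ((3 : ℕ) : ℤ) ∣ (w : ℤ) then 9 else 0) =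
          9 * (if ((3 : ℕ) : ℤ) ∣ (w : ℤ) then 1 else 0) := by
        intro w _
        split_ifs <;> norm_num
      rw [sum_congr rfl this, ← mul_sum]
      have e : (3 : ℕ) ^ 2 = 3 * 3 := by norm_num
      rw [e, h5]
      norm_num
    rw [← h6, ← h4]
    refine sum_congr rfl (fun r _ => ?_)
    simp only [Nat.cast_ofNat]
    by_cases h7 : (3 : ℤ) ∣ 2 * (r : ℤ) + τ.1 * τ.2.2
    · simp only [h7, if_true, sum_const, card_range, smul_eq_mul]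
      norm_num
    · simp only [h7, if_false, sum_const_zero]
  rw [h2] at h1
  norm_num at h1 ⊢
  omega

/-- the density -/
noncomputable def dn (τ : ℤ × ℤ × ℤ) (p e : ℕ) : ℝ :=
  if 5 ≤ p then lam p e
  else if (p : ℤ) ∣ B2 τ then
    (if e = 0 then (if p = 2 then (if τ.2.2 = 0 then 0 else 1) else 2 / 3) else 0)
  else (if e = 0 then 1 - 1 / (p : ℝ) ^ 2 else (1 - 1 / (p : ℝ)) / (p : ℝ) ^ (e + 1))

theorem dens (τ : ℤ × ℤ × ℤ) (hτ : τ ∈ TT) {p : ℕ} (e : ℕ) (hp : p.Prime) :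
    (cnt (p ^ (e + 2)) (Lp τ p e) : ℝ) / ((p ^ (e + 2) : ℕ) : ℝ) ^ 2 = dn τ p e := by
  unfold dn
  by_cases h5 : 5 ≤ p
  · rw [if_pos h5]
    exact dens5 τ e hp h5
  · rw [if_neg h5]
    have h5' : p < 5 := by omega
    by_cases hB : (p : ℤ) ∣ B2 τ
    · rw [if_pos hB]
      by_cases he : e = 0
      · rw [if_pos he]
        subst he
        have h2 := hp.two_le
        interval_cases p
        · rw [if_pos rfl, densB2 τ hτ hB]
          split_ifs <;> norm_num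
        · rw [if_neg (by norm_num), densB3 τ hB]
          norm_num
        · exact absurd hp (by norm_num)
      · rw [if_neg he, densB0 τ e hp h5' hB (by omega)]
        simp
    · rw [if_neg hB]
      exact densA τ e hp h5' hB

theorem sum_TT (f : ℤ × ℤ × ℤ → ℝ) : ∑ τ ∈ TT, f τ =
    f (0, -1, 0) + f (0, -1, 1) + f (0, 0, 0) + f (0, 0, 1) + f (0, 1, 0) + f (0, 1, 1) +
    f (1, -1, 0) + f (1, -1, 1) + f (1, 0, 0) + f (1, 0, 1) + f (1, 1, 0) + f (1, 1, 1) := by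
  unfold TT
  rw [sum_product]
  simp only [sum_product]
  rw [sum_insert (by norm_num), sum_singleton, sum_insert (by norm_num), sum_insert (by norm_num),
    sum_singleton, sum_insert (by norm_num), sum_singleton]
  rw [sum_insert (by norm_num), sum_singleton, sum_insert (by norm_num), sum_singleton]
  rw [sum_insert (by norm_num), sum_insert (by norm_num), sum_singleton]
  rw [sum_insert (by norm_num), sum_singleton, sum_insert (by norm_num), sum_singleton,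
    sum_insert (by norm_num), sum_singleton]
  ring

/-- the average over the families -/
theorem avg (e f : ℕ) : ∑ τ ∈ TT, dn τ 2 e * dn τ 3 f = 12 * (lam 2 e * lam 3 f) := by
  rw [sum_TT]
  unfold dn lam B2
  by_cases he : e = 0 <;> by_cases hf : f = 0 <;> simp [he, hf] <;> norm_num <;> field_simp <;>
    norm_num

end Pool.Agent.T2H27.Law
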