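import Mathlib

/-!
# The width of the region `|x³ - y²| ≤ D`
-/

set_option autoImplicit false

namespace Pool.Agent.T2H27.Law

open Finset

/-- half of the measure of the `y` with `|s - y²| ≤ D` -/
noncomputable def gam (D s : ℝ) : ℝ := √(s + D) - √(s - D)

theorem gam_nonneg {D : ℝ} (hD : 0 ≤ D) (s : ℝ) : 0 ≤ gam D s := by
  unfold gam
  have : √(s - D) ≤ √(s + D) := Real.sqrt_le_sqrt (by linarith)
  linarith

theorem gam_mono {D : ℝ} : MonotoneOn (gam D) (Set.Iic D) := by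
  intro s hs s' hs' h
  rw [Set.mem_Iic] at hs hs'
  unfold gam
  rw [Real.sqrt_eq_zero_of_nonpos (by linarith : s - D ≤ 0),
    Real.sqrt_eq_zero_of_nonpos (by linarith : s' - D ≤ 0)]
  have : √(s + D) ≤ √(s' + D) := Real.sqrt_le_sqrt (by linarith)
  linarith

theorem gam_anti {D : ℝ} (hD : 0 ≤ D) : AntitoneOn (gam D) (Set.Ici D) := by
  intro s hs s' hs' h
  rw [Set.mem_Ici] at hs hs'
  unfold gam
  have a1 : √(s' + D) ^ 2 = s' + D := Real.sq_sqrt (by linarith)
  have b1 : √(s + D) ^ 2 = s + D := Real.sq_sqrt (by linarith)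
  have c1 : √(s' - D) ^ 2 = s' - D := Real.sq_sqrt (by linarith)
  have d1 : √(s - D) ^ 2 = s - D := Real.sq_sqrt (by linarith)
  have a0 := Real.sqrt_nonneg (s' + D)
  have b0 := Real.sqrt_nonneg (s + D)
  have c0 := Real.sqrt_nonneg (s' - D)
  have d0 := Real.sqrt_nonneg (s - D)
  have ab : √(s + D) ≤ √(s' + D) := Real.sqrt_le_sqrt (by linarith)
  have cd : √(s - D) ≤ √(s' - D) := Real.sqrt_le_sqrt (by linarith)
  have ac : √(s' - D) ≤ √(s' + D) := Real.sqrt_le_sqrt (by linarith)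
  have bd : √(s - D) ≤ √(s + D) := Real.sqrt_le_sqrt (by linarith)
  set a := √(s' + D)
  set b := √(s + D)
  set c := √(s' - D)
  set d := √(s - D)
  have e : (a - b) * (a + b) = (c - d) * (c + d) := by nlinarith
  by_contra hcon
  push Not at hcon
  have h1 : c - d < a - b := by linarith
  rcases eq_or_lt_of_le (by positivity : 0 ≤ a + b) with h2 | h2
  · nlinarith
  · have h3 : (c - d) * (a + b) < (a - b) * (a + b) := mul_lt_mul_of_pos_right h1 h2
    have h4 : (c - d) * (c + d) ≤ (c - d) * (a + b) :=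
      mul_le_mul_of_nonneg_left (by linarith) (by linarith)
    linarith

theorem gam_le {D : ℝ} (hD : 0 ≤ D) (s : ℝ) : gam D s ≤ √(2 * D) := by
  have h0 : gam D D = √(2 * D) := by
    unfold gam
    rw [sub_self, Real.sqrt_zero, sub_zero]
    congr 1
    ring
  rw [← h0]
  rcases le_total s D with h | h
  · exact gam_mono h (Set.mem_Iic.2 le_rfl) h
  · exact gam_anti hD (Set.mem_Ici.2 le_rfl) h h

/-- for `D ≤ s`: `gam D s ≤ 2 D / √s` -/
theorem gam_le2 {D s : ℝ} (hD : 0 ≤ D) (hs : D ≤ s) (hs0 : 0 < s) : gam D s ≤ 2 * D / √s := by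
  have a1 : √(s + D) ^ 2 = s + D := Real.sq_sqrt (by linarith)
  have b1 : √(s - D) ^ 2 = s - D := Real.sq_sqrt (by linarith)
  have a0 : √s ≤ √(s + D) := Real.sqrt_le_sqrt (by linarith)
  have b0 := Real.sqrt_nonneg (s - D)
  have s0 : 0 < √s := Real.sqrt_pos.2 hs0
  have g0 := gam_nonneg hD s
  rw [le_div_iff₀ s0]
  have e : gam D s * (√(s + D) + √(s - D)) = 2 * D := by
    unfold gam
    nlinarith
  calc gam D s * √s ≤ gam D s * (√(s + D) + √(s - D)) := by
        apply mul_le_mul_of_nonneg_left _ g0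
        linarith
    _ = 2 * D := e

noncomputable def g (D x : ℝ) : ℝ := gam D (x ^ 3)

theorem g_nonneg {D : ℝ} (hD : 0 ≤ D) (x : ℝ) : 0 ≤ g D x := gam_nonneg hD _

theorem g_le {D : ℝ} (hD : 0 ≤ D) (x : ℝ) : g D x ≤ √(2 * D) := gam_le hD _

theorem cube_root {D : ℝ} (hD : 0 ≤ D) : (D ^ ((1 : ℝ) / 3)) ^ 3 = D := by
  rw [← Real.rpow_natCast, ← Real.rpow_mul hD]
  norm_num

theorem cube_mono {x y : ℝ} (h : x ≤ y) : x ^ 3 ≤ y ^ 3 := by
  have := (Odd.strictMono_pow (by decide : Odd 3)).monotone (α := ℝ) h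
  exact this

theorem g_mono {D : ℝ} (hD : 0 ≤ D) : MonotoneOn (g D) (Set.Iic (D ^ ((1 : ℝ) / 3))) := by
  intro x hx y hy h
  rw [Set.mem_Iic] at hx hy
  have hx' := cube_mono hx
  have hy' := cube_mono hy
  rw [cube_root hD] at hx' hy'
  exact gam_mono hx' hy' (cube_mono h)

theorem g_anti {D : ℝ} (hD : 0 ≤ D) : AntitoneOn (g D) (Set.Ici (D ^ ((1 : ℝ) / 3))) := by
  intro x hx y hy h
  rw [Set.mem_Ici] at hx hy
  have hx' := cube_mono hx
  have hy' := cube_mono hy
  rw [cube_root hD] at hx' hy'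
  exact gam_anti hD hx' hy' (cube_mono h)

/-- integers in a real interval -/
theorem icc_card_le {a b : ℝ} (h : a ≤ b) : ((Icc ⌈a⌉ ⌊b⌋ : Finset ℤ).card : ℝ) ≤ b - a + 1 := by
  rw [Int.card_Icc]
  have h1 : (⌊b⌋ : ℝ) ≤ b := Int.floor_le b
  have h2 : a ≤ (⌈a⌉ : ℝ) := Int.le_ceil _
  rcases le_total 0 (⌊b⌋ + 1 - ⌈a⌉) with h3 | h3
  · have h4 : (((⌊b⌋ + 1 - ⌈a⌉).toNat : ℕ) : ℝ) = ((⌊b⌋ + 1 - ⌈a⌉ : ℤ) : ℝ) := by
      have : (((⌊b⌋ + 1 - ⌈a⌉).toNat : ℕ) : ℤ) = ⌊b⌋ + 1 - ⌈a⌉ := Int.toNat_of_nonneg h3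
      exact_mod_cast this
    rw [h4]
    push_cast
    linarith
  · rw [Int.toNat_of_nonpos h3]
    push_cast
    linarith

theorem icc_card_ge (a b : ℝ) : b - a - 1 ≤ ((Icc ⌈a⌉ ⌊b⌋ : Finset ℤ).card : ℝ) := by
  rw [Int.card_Icc]
  have h1 : b < (⌊b⌋ : ℝ) + 1 := Int.lt_floor_add_one b
  have h2 : (⌈a⌉ : ℝ) < a + 1 := Int.ceil_lt_add_one _
  have h4 : ((⌊b⌋ + 1 - ⌈a⌉ : ℤ) : ℝ) ≤ (((⌊b⌋ + 1 - ⌈a⌉).toNat : ℕ) : ℝ) := by
    exact_mod_cast Int.self_le_toNat _
  push_cast at h4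
  linarith

/-- the integers `l` with `a ≤ y - h l ≤ b` -/
noncomputable def seg (y h a b : ℝ) : Finset ℤ := Icc ⌈(y - b) / h⌉ ⌊(y - a) / h⌋

theorem mem_seg {y h a b : ℝ} (hh : 0 < h) {l : ℤ} :
    l ∈ seg y h a b ↔ a ≤ y - h * l ∧ y - h * l ≤ b := by
  unfold seg
  rw [mem_Icc, Int.ceil_le, Int.le_floor, div_le_iff₀ hh, le_div_iff₀ hh]
  constructor
  · rintro ⟨h1, h2⟩
    constructor <;> linarith
  · rintro ⟨h1, h2⟩
    constructor <;> linarith

theorem seg_le {y h a b : ℝ} (hh : 0 < h) (hab : a ≤ b) : ((seg y h a b).card : ℝ) ≤ (b - a) / h + 1 := by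
  have h1 : (y - b) / h ≤ (y - a) / h := by gcongr
  have := icc_card_le h1
  unfold seg
  calc _ ≤ (y - a) / h - (y - b) / h + 1 := this
    _ = _ := by ring

theorem seg_ge {y h a b : ℝ} : (b - a) / h - 1 ≤ ((seg y h a b).card : ℝ) := by
  have := icc_card_ge ((y - b) / h) ((y - a) / h)
  unfold seg
  calc _ = (y - a) / h - (y - b) / h - 1 := by ring
    _ ≤ _ := this

/-- the integers `l` with `|s - (y - h l)²| ≤ D` -/
noncomputable def LS (D s y h : ℝ) : Finset ℤ :=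
  (seg y h (-√(s + D)) (√(s + D))).filter (fun l => |s - (y - h * l) ^ 2| ≤ D)

theorem mem_LS {D s y h : ℝ} (hh : 0 < h) {l : ℤ} :
    l ∈ LS D s y h ↔ |s - (y - h * l) ^ 2| ≤ D := by
  unfold LS
  rw [mem_filter, mem_seg hh]
  constructor
  · exact fun h => h.2
  · intro h1
    refine ⟨?_, h1⟩
    have h2 := (abs_le.1 h1).1
    have h3 : (y - h * l) ^ 2 ≤ s + D := by linarith
    have h4 := Real.abs_le_sqrt h3
    exact abs_le.1 h4

theorem LS_le {D s y h : ℝ} (hD : 0 ≤ D) (hh : 0 < h) :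
    ((LS D s y h).card : ℝ) ≤ 2 * gam D s / h + 2 := by
  classical
  have hsub : LS D s y h ⊆ seg y h (√(s - D)) (√(s + D)) ∪ seg y h (-√(s + D)) (-√(s - D)) := by
    intro l hl
    rw [mem_LS hh] at hl
    obtain ⟨h1, h2⟩ := abs_le.1 hl
    have h3 : (y - h * l) ^ 2 ≤ s + D := by linarith
    have h4 : s - D ≤ (y - h * l) ^ 2 := by linarith
    have h5 := Real.abs_le_sqrt h3
    have h6 : √(s - D) ≤ |y - h * l| := by
      rw [← Real.sqrt_sq_eq_abs]
      exact Real.sqrt_le_sqrt h4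
    rw [mem_union, mem_seg hh, mem_seg hh]
    rcases le_total 0 (y - h * l) with h7 | h7
    · left
      rw [abs_of_nonneg h7] at h5 h6
      exact ⟨h6, h5⟩
    · right
      rw [abs_of_nonpos h7] at h5 h6
      constructor <;> linarith
  have hab : √(s - D) ≤ √(s + D) := Real.sqrt_le_sqrt (by linarith)
  have h1 := card_le_card hsub
  have h2 := h1.trans (card_union_le _ _)
  have h3 : ((LS D s y h).card : ℝ) ≤ ((seg y h (√(s - D)) (√(s + D))).card : ℝ) +
      ((seg y h (-√(s + D)) (-√(s - D))).card : ℝ) := by exact_mod_cast h2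
  have h4 := seg_le (y := y) (h := h) hh hab
  have h5 := seg_le (y := y) (h := h) (a := -√(s + D)) (b := -√(s - D)) hh (by linarith)
  unfold gam
  have e : 2 * (√(s + D) - √(s - D)) / h + 2 =
      ((√(s + D) - √(s - D)) / h + 1) + ((-√(s - D) - -√(s + D)) / h + 1) := by ring
  rw [e]
  linarith

theorem LS_ge {D s y h : ℝ} (hD : 0 ≤ D) (hh : 0 < h) :
    2 * gam D s / h - 2 ≤ ((LS D s y h).card : ℝ) := by
  classical
  rcases lt_or_ge (s + D) 0 with h0 | h0
  · have : gam D s = 0 := by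
      unfold gam
      rw [Real.sqrt_eq_zero_of_nonpos (by linarith), Real.sqrt_eq_zero_of_nonpos (by linarith),
        sub_zero]
    rw [this]
    have h1 : (0 : ℝ) ≤ ((LS D s y h).card : ℝ) := Nat.cast_nonneg _
    rw [mul_zero, zero_div]
    linarith
  rcases le_or_gt s D with h1 | h1
  · -- one interval
    have hsub : seg y h (-√(s + D)) (√(s + D)) ⊆ LS D s y h := by
      intro l hl
      rw [mem_LS hh]
      rw [mem_seg hh, ← abs_le] at hl
      have h2 : (y - h * l) ^ 2 ≤ s + D := by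
        rw [← sq_abs]
        calc |y - h * l| ^ 2 ≤ √(s + D) ^ 2 := by gcongr
          _ = s + D := Real.sq_sqrt h0
      rw [abs_le]
      constructor <;> nlinarith [sq_nonneg (y - h * l)]
    have h2 : ((seg y h (-√(s + D)) (√(s + D))).card : ℝ) ≤ ((LS D s y h).card : ℝ) := by
      exact_mod_cast card_le_card hsub
    have h3 := seg_ge (y := y) (h := h) (a := -√(s + D)) (b := √(s + D))
    unfold gam
    rw [Real.sqrt_eq_zero_of_nonpos (by linarith : s - D ≤ 0), sub_zero]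
    have e : 2 * √(s + D) / h = (√(s + D) - -√(s + D)) / h := by ring
    rw [e]
    linarith
  · -- two intervals
    have hs : 0 < √(s - D) := Real.sqrt_pos.2 (by linarith)
    have key : ∀ l : ℤ, √(s - D) ≤ |y - h * l| → |y - h * l| ≤ √(s + D) → l ∈ LS D s y h := by
      intro l h2 h3
      rw [mem_LS hh]
      have h4 : (y - h * l) ^ 2 ≤ s + D := by
        rw [← sq_abs]
        calc |y - h * l| ^ 2 ≤ √(s + D) ^ 2 := by gcongr
          _ = s + D := Real.sq_sqrt h0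
      have h5 : s - D ≤ (y - h * l) ^ 2 := by
        rw [← sq_abs]
        calc s - D = √(s - D) ^ 2 := (Real.sq_sqrt (by linarith)).symm
          _ ≤ |y - h * l| ^ 2 := by gcongr
      rw [abs_le]
      constructor <;> linarith
    have hsub : seg y h (√(s - D)) (√(s + D)) ∪ seg y h (-√(s + D)) (-√(s - D)) ⊆ LS D s y h := by
      intro l hl
      rw [mem_union, mem_seg hh, mem_seg hh] at hl
      rcases hl with ⟨h2, h3⟩ | ⟨h2, h3⟩
      · have : 0 ≤ y - h * l := by linarith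
        exact key l (by rwa [abs_of_nonneg this]) (by rwa [abs_of_nonneg this])
      · have : y - h * l ≤ 0 := by linarith
        exact key l (by rw [abs_of_nonpos this]; linarith) (by rw [abs_of_nonpos this]; linarith)
    have hdisj : Disjoint (seg y h (√(s - D)) (√(s + D))) (seg y h (-√(s + D)) (-√(s - D))) := by
      rw [disjoint_left]
      intro l h2 h3
      rw [mem_seg hh] at h2 h3
      linarith [h2.1, h3.2]
    have h2 := card_le_card hsub
    rw [card_union_of_disjoint hdisj] at h2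
    have h3 : ((seg y h (√(s - D)) (√(s + D))).card : ℝ) +
      ((seg y h (-√(s + D)) (-√(s - D))).card : ℝ) ≤ ((LS D s y h).card : ℝ) := by exact_mod_cast h2
    have h4 := seg_ge (y := y) (h := h) (a := √(s - D)) (b := √(s + D))
    have h5 := seg_ge (y := y) (h := h) (a := -√(s + D)) (b := -√(s - D))
    unfold gam
    have e : 2 * (√(s + D) - √(s - D)) / h - 2 =
      ((√(s + D) - √(s - D)) / h - 1) + ((-√(s - D) - -√(s + D)) / h - 1) := by ring
    rw [e]
    linarith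

end Pool.Agent.T2H27.Law
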