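import Mathlib

/-!
# Sums and integrals of unimodal functions
-/

set_option autoImplicit false

namespace Pool.Agent.T2H27.Law

open Finset MeasureTheory intervalIntegral

/-- a function with values in `[0, B]`, increasing up to `c` and decreasing after `c` -/
structure Uni (f : ℝ → ℝ) (c B : ℝ) : Prop where
  h0 : ∀ x, 0 ≤ f x
  hB : ∀ x, f x ≤ B
  hm : MonotoneOn f (Set.Iic c)
  ha : AntitoneOn f (Set.Ici c)

variable {f : ℝ → ℝ} {c B : ℝ}

theorem Uni.B_nonneg (h : Uni f c B) : 0 ≤ B := (h.h0 0).trans (h.hB 0)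

theorem Uni.integrable (h : Uni f c B) (a b : ℝ) : IntervalIntegrable f volume a b := by
  have key : ∀ x : ℝ, IntervalIntegrable f volume x c := by
    intro x
    rcases le_total x c with hx | hx
    · apply MonotoneOn.intervalIntegrable
      rw [Set.uIcc_of_le hx]
      exact h.hm.mono (fun y hy => hy.2)
    · apply AntitoneOn.intervalIntegrable
      rw [Set.uIcc_of_ge hx]
      exact h.ha.mono (fun y hy => hy.1)
  exact (key a).trans (key b).symm

theorem Uni.int_nonneg (h : Uni f c B) {a b : ℝ} (hab : a ≤ b) : 0 ≤ ∫ x in a..b, f x :=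
  intervalIntegral.integral_nonneg hab (fun x _ => h.h0 x)

theorem Uni.int_le (h : Uni f c B) {a b : ℝ} (hab : a ≤ b) : ∫ x in a..b, f x ≤ B * (b - a) := by
  have h1 : ∫ x in a..b, f x ≤ ∫ _ in a..b, B :=
    intervalIntegral.integral_mono_on hab (h.integrable a b) (by simp) (fun x _ => h.hB x)
  refine h1.trans (le_of_eq ?_)
  rw [intervalIntegral.integral_const, smul_eq_mul]
  ring

theorem Uni.monoN (h : Uni f c B) (x : ℝ) (N : ℕ) (hx : x + N ≤ c) :
    |∑ i ∈ range N, f (x + i) - ∫ t in x..x + N, f t| ≤ B := by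
  have hm : MonotoneOn f (Set.Icc x (x + N)) :=
    h.hm.mono (fun y hy => hy.2.trans hx)
  have h1 := hm.sum_le_integral
  have h2 := hm.integral_le_sum
  have h3 : ∑ i ∈ range N, f (x + ((i + 1 : ℕ) : ℝ)) =
      ∑ i ∈ range N, f (x + i) + (f (x + N) - f x) := by
    have e1 := Finset.sum_range_succ (fun i : ℕ => f (x + i)) N
    have e2 := Finset.sum_range_succ' (fun i : ℕ => f (x + i)) N
    simp only [Nat.cast_zero, add_zero] at e2
    linarith
  rw [h3] at h2
  have h4 := h.h0 x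
  have h5 := h.hB (x + N)
  rw [abs_le]
  constructor <;> linarith

theorem Uni.antiN (h : Uni f c B) (x : ℝ) (N : ℕ) (hx : c ≤ x) :
    |∑ i ∈ range N, f (x + i) - ∫ t in x..x + N, f t| ≤ B := by
  have hm : AntitoneOn f (Set.Icc x (x + N)) :=
    h.ha.mono (fun y hy => hx.trans hy.1)
  have h1 := hm.sum_le_integral
  have h2 := hm.integral_le_sum
  have h3 : ∑ i ∈ range N, f (x + ((i + 1 : ℕ) : ℝ)) =
      ∑ i ∈ range N, f (x + i) + (f (x + N) - f x) := by
    have e1 := Finset.sum_range_succ (fun i : ℕ => f (x + i)) N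
    have e2 := Finset.sum_range_succ' (fun i : ℕ => f (x + i)) N
    simp only [Nat.cast_zero, add_zero] at e2
    linarith
  rw [h3] at h1
  have h4 := h.hB x
  have h5 := h.h0 (x + N)
  rw [abs_le]
  constructor <;> linarith

theorem Uni.sumN (h : Uni f c B) (x : ℝ) (N : ℕ) :
    |∑ i ∈ range N, f (x + i) - ∫ t in x..x + N, f t| ≤ 3 * B := by
  have hB0 := h.B_nonneg
  rcases le_or_gt c x with h1 | h1
  · exact (h.antiN x N h1).trans (by linarith)
  rcases le_or_gt (x + N) c with h2 | h2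
  · exact (h.monoN x N h2).trans (by linarith)
  set M : ℕ := ⌊c - x⌋₊ with hM
  have hM1 : (M : ℝ) ≤ c - x := Nat.floor_le (by linarith)
  have hM2 : c - x < M + 1 := Nat.lt_floor_add_one _
  have hMN : M + 1 ≤ N := by
    have : (M : ℝ) < N := by linarith
    exact_mod_cast this
  obtain ⟨K, hK⟩ := Nat.exists_eq_add_of_le hMN
  have a1 := h.monoN x M (by linarith)
  have a2 := h.antiN (x + (M + 1 : ℕ)) K (by push_cast; linarith)
  have a3 := h.int_nonneg (a := x + M) (b := x + (M + 1 : ℕ)) (by push_cast; linarith)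
  have a4 := h.int_le (a := x + M) (b := x + (M + 1 : ℕ)) (by push_cast; linarith)
  have a5 : B * (x + ((M + 1 : ℕ) : ℝ) - (x + M)) = B := by push_cast; ring
  rw [a5] at a4
  have e1 : ∑ i ∈ range N, f (x + i) = ∑ i ∈ range M, f (x + i) + f (x + M) +
      ∑ i ∈ range K, f (x + (M + 1 : ℕ) + i) := by
    rw [hK, sum_range_add, sum_range_succ]
    congr 1
    refine sum_congr rfl (fun i _ => ?_)
    congr 1
    push_cast
    ring
  have e2 : ∫ t in x..x + N, f t = (∫ t in x..x + M, f t) +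
      (∫ t in (x + M)..(x + (M + 1 : ℕ)), f t) +
      ∫ t in (x + (M + 1 : ℕ))..(x + (M + 1 : ℕ) + K), f t := by
    rw [intervalIntegral.integral_add_adjacent_intervals (h.integrable _ _) (h.integrable _ _),
      intervalIntegral.integral_add_adjacent_intervals (h.integrable _ _) (h.integrable _ _)]
    congr 1
    rw [hK]
    push_cast
    ring
  have b1 := h.h0 (x + M)
  have b2 := h.hB (x + M)
  rw [abs_le] at a1 a2
  rw [e1, e2, abs_le]
  constructor <;> linarith

theorem sum_Icc_int (m n : ℤ) (hmn : m ≤ n) (F : ℤ → ℝ) :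
    ∑ k ∈ Icc m n, F k = ∑ i ∈ range ((n - m).toNat), F (m + i) + F n := by
  have hN : ((n - m).toNat : ℤ) = n - m := Int.toNat_of_nonneg (by linarith)
  have h1 : Icc m n = (range ((n - m).toNat + 1)).image (fun i : ℕ => m + (i : ℤ)) := by
    ext k
    rw [mem_Icc, mem_image]
    constructor
    · rintro ⟨h1, h2⟩
      refine ⟨(k - m).toNat, ?_, ?_⟩
      · rw [mem_range]
        omega
      · have : ((k - m).toNat : ℤ) = k - m := Int.toNat_of_nonneg (by linarith)
        linarith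
    · rintro ⟨i, hi, rfl⟩
      rw [mem_range] at hi
      constructor <;> omega
  rw [h1, sum_image, sum_range_succ, hN]
  · congr 2
    ring
  · intro i _ j _ hij
    simp only at hij
    omega

theorem Uni.sum (h : Uni f c B) {a b : ℝ} (hab : a ≤ b) :
    |∑ k ∈ Icc ⌈a⌉ ⌊b⌋, f k - ∫ t in a..b, f t| ≤ 6 * B := by
  have hB0 := h.B_nonneg
  have ha1 : a ≤ (⌈a⌉ : ℝ) := Int.le_ceil a
  have ha2 : (⌈a⌉ : ℝ) < a + 1 := Int.ceil_lt_add_one a
  have hb1 : (⌊b⌋ : ℝ) ≤ b := Int.floor_le b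
  have hb2 : b < (⌊b⌋ : ℝ) + 1 := Int.lt_floor_add_one b
  rcases lt_or_ge ⌊b⌋ ⌈a⌉ with h1 | h1
  · rw [Icc_eq_empty (by omega), sum_empty]
    have h2 : (⌊b⌋ : ℝ) + 1 ≤ ⌈a⌉ := by exact_mod_cast h1
    have h3 := h.int_nonneg hab
    have h4 := h.int_le hab
    have h5 : B * (b - a) ≤ B * 1 := mul_le_mul_of_nonneg_left (by linarith) hB0
    rw [abs_le]
    constructor <;> linarith
  · have h2 : (⌈a⌉ : ℝ) ≤ ⌊b⌋ := by exact_mod_cast h1
    set N : ℕ := (⌊b⌋ - ⌈a⌉).toNat with hN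
    have hN1 : (N : ℤ) = ⌊b⌋ - ⌈a⌉ := Int.toNat_of_nonneg (by linarith)
    have hN2 : (N : ℝ) = (⌊b⌋ : ℝ) - ⌈a⌉ := by exact_mod_cast hN1
    have e1 : ∑ k ∈ Icc ⌈a⌉ ⌊b⌋, f k = ∑ i ∈ range N, f ((⌈a⌉ : ℝ) + i) + f (⌊b⌋ : ℝ) := by
      rw [sum_Icc_int _ _ h1 (fun k : ℤ => f (k : ℝ))]
      congr 1
      refine sum_congr rfl (fun i _ => ?_)
      push_cast
      rfl
    have e2 : ∫ t in a..b, f t = (∫ t in a..(⌈a⌉ : ℝ), f t) +
        (∫ t in (⌈a⌉ : ℝ)..((⌈a⌉ : ℝ) + N), f t) + ∫ t in ((⌈a⌉ : ℝ) + N)..b, f t := by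
      rw [intervalIntegral.integral_add_adjacent_intervals (h.integrable _ _) (h.integrable _ _),
        intervalIntegral.integral_add_adjacent_intervals (h.integrable _ _) (h.integrable _ _)]
    have hend : (⌈a⌉ : ℝ) + N = ⌊b⌋ := by rw [hN2]; ring
    have a1 := h.sumN (⌈a⌉ : ℝ) N
    have a2 := h.int_nonneg ha1
    have a3 := h.int_le ha1
    have a4 : B * ((⌈a⌉ : ℝ) - a) ≤ B * 1 := mul_le_mul_of_nonneg_left (by linarith) hB0
    have a5 := h.int_nonneg (a := (⌈a⌉ : ℝ) + N) (b := b) (by rw [hend]; exact hb1)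
    have a6 := h.int_le (a := (⌈a⌉ : ℝ) + N) (b := b) (by rw [hend]; exact hb1)
    have a7 : B * (b - ((⌈a⌉ : ℝ) + N)) ≤ B * 1 :=
      mul_le_mul_of_nonneg_left (by rw [hend]; linarith) hB0
    have b1 := h.h0 (⌊b⌋ : ℝ)
    have b2 := h.hB (⌊b⌋ : ℝ)
    rw [abs_le] at a1
    rw [e1, e2, abs_le]
    constructor <;> linarith

/-- composition with a decreasing affine map -/
theorem Uni.comp (h : Uni f c B) (l m : ℝ) (hm : 0 < m) :
    Uni (fun t => f (l - m * t)) ((l - c) / m) B := by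
  refine ⟨fun t => h.h0 _, fun t => h.hB _, ?_, ?_⟩
  · intro s hs t ht hst
    rw [Set.mem_Iic, le_div_iff₀ hm] at hs ht
    simp only
    apply h.ha
    · rw [Set.mem_Ici]; linarith
    · rw [Set.mem_Ici]; linarith
    · nlinarith
  · intro s hs t ht hst
    rw [Set.mem_Ici, div_le_iff₀ hm] at hs ht
    simp only
    apply h.hm
    · rw [Set.mem_Iic]; linarith
    · rw [Set.mem_Iic]; linarith
    · nlinarith

/-- the sum over the integers `k` with `|l - m k| ≤ Y` -/
theorem Uni.sum_ap (h : Uni f c B) (l m Y : ℝ) (hm : 0 < m) (hY : 0 ≤ Y) :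
    |∑ k ∈ Icc ⌈(l - Y) / m⌉ ⌊(l + Y) / m⌋, f (l - m * k) - (1 / m) * ∫ x in (-Y)..Y, f x| ≤
      6 * B := by
  have hab : (l - Y) / m ≤ (l + Y) / m := by
    apply div_le_div_of_nonneg_right _ hm.le
    linarith
  have h1 := (h.comp l m hm).sum hab
  have h2 : ∫ t in ((l - Y) / m)..((l + Y) / m), f (l - m * t) = (1 / m) * ∫ x in (-Y)..Y, f x := by
    rw [intervalIntegral.integral_comp_sub_mul _ hm.ne', smul_eq_mul, one_div]
    congr 2
    · field_simp
      ring
    · field_simp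
      ring
  rw [h2] at h1
  exact h1

end Pool.Agent.T2H27.Law
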