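import Pool.Agent.T2H27.Law.G
import Pool.Agent.T2H27.Law.Uni

/-!
# The area of the region `|x³ - y²| ≤ D`
-/

set_option autoImplicit false

namespace Pool.Agent.T2H27.Law

open MeasureTheory intervalIntegral Filter Topology Set

theorem g_uni {D : ℝ} (hD : 0 ≤ D) : Uni (g D) (D ^ ((1 : ℝ) / 3)) (√(2 * D)) :=
  ⟨g_nonneg hD, g_le hD, g_mono hD, g_anti hD⟩

theorem g_cont (D : ℝ) : Continuous (g D) := by
  unfold g gam
  fun_prop

theorem g_scale {t : ℝ} (ht : 0 < t) (x : ℝ) : g (t ^ 6) (t ^ 2 * x) = t ^ 3 * g 1 x := by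
  unfold g gam
  have h3 : 0 ≤ t ^ 3 := by positivity
  have e1 : (t ^ 2 * x) ^ 3 + t ^ 6 = (t ^ 3) ^ 2 * (x ^ 3 + 1) := by ring
  have e2 : (t ^ 2 * x) ^ 3 - t ^ 6 = (t ^ 3) ^ 2 * (x ^ 3 - 1) := by ring
  rw [e1, e2, Real.sqrt_mul (by positivity), Real.sqrt_mul (by positivity), Real.sqrt_sq h3]
  ring

theorem int_g {D : ℝ} (hD : 0 < D) (Y : ℝ) :
    ∫ x in (-Y)..Y, g D x = D ^ ((5 : ℝ) / 6) *
      ∫ x in (-(Y / D ^ ((1 : ℝ) / 3)))..(Y / D ^ ((1 : ℝ) / 3)), g 1 x := by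
  set t : ℝ := D ^ ((1 : ℝ) / 6) with ht
  have ht0 : 0 < t := by positivity
  have h6 : t ^ 6 = D := by
    rw [ht, ← Real.rpow_natCast, ← Real.rpow_mul hD.le]
    norm_num
  have h2 : D ^ ((1 : ℝ) / 3) = t ^ 2 := by
    rw [ht, ← Real.rpow_natCast, ← Real.rpow_mul hD.le]
    norm_num
  have h5 : D ^ ((5 : ℝ) / 6) = t ^ 5 := by
    rw [ht, ← Real.rpow_natCast, ← Real.rpow_mul hD.le]
    norm_num
  rw [h2, h5]
  have e1 : ∫ x in (-(Y / t ^ 2))..(Y / t ^ 2), g 1 x =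
      (t ^ 3)⁻¹ * ∫ x in (-(Y / t ^ 2))..(Y / t ^ 2), g D (t ^ 2 * x) := by
    rw [← intervalIntegral.integral_const_mul]
    refine intervalIntegral.integral_congr (fun x _ => ?_)
    change g 1 x = (t ^ 3)⁻¹ * g D (t ^ 2 * x)
    rw [← h6, g_scale ht0]
    field_simp
  rw [e1, intervalIntegral.integral_comp_mul_left _ (by positivity : t ^ 2 ≠ 0), smul_eq_mul]
  have e2 : t ^ 2 * -(Y / t ^ 2) = -Y := by field_simp
  have e3 : t ^ 2 * (Y / t ^ 2) = Y := by field_simp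
  rw [e2, e3]
  field_simp

theorem g1_integrable : Integrable (g 1) := by
  have hA : IntegrableOn (g 1) (Iic (-1)) := by
    have hz : IntegrableOn (fun _ : ℝ => (0 : ℝ)) (Iic (-1 : ℝ)) := integrableOn_zero
    refine hz.congr_fun ?_ measurableSet_Iic
    intro x hx
    rw [mem_Iic] at hx
    have hx' := cube_mono hx
    norm_num at hx'
    change (0 : ℝ) = g 1 x
    unfold g gam
    rw [Real.sqrt_eq_zero_of_nonpos (by linarith), Real.sqrt_eq_zero_of_nonpos (by linarith),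
      sub_zero]
  have hB : IntegrableOn (g 1) (Ioc (-1) 1) :=
    ((g_cont 1).integrableOn_Icc (a := -1) (b := 1)).mono_set Ioc_subset_Icc_self
  have hC : IntegrableOn (g 1) (Ioi 1) := by
    have h1 : IntegrableOn (fun x : ℝ => 2 * x ^ (-(3 : ℝ) / 2)) (Ioi 1) :=
      (integrableOn_Ioi_rpow_of_lt (by norm_num) (by norm_num)).const_mul 2
    refine Integrable.mono' h1 (g_cont 1).aestronglyMeasurable ?_
    refine (ae_restrict_iff' measurableSet_Ioi).2 (Eventually.of_forall ?_)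
    intro x hx
    rw [mem_Ioi] at hx
    rw [Real.norm_of_nonneg (g_nonneg zero_le_one x)]
    have hx0 : 0 < x := by linarith
    have hx3 : (1 : ℝ) ≤ x ^ 3 := one_le_pow₀ hx.le
    have h2 := gam_le2 (D := 1) (s := x ^ 3) zero_le_one hx3 (by positivity)
    have h3 : √(x ^ 3) = x ^ ((3 : ℝ) / 2) := by
      rw [Real.sqrt_eq_rpow, ← Real.rpow_natCast, ← Real.rpow_mul hx0.le]
      norm_num
    rw [h3] at h2
    have h4 : x ^ (-(3 : ℝ) / 2) = (x ^ ((3 : ℝ) / 2))⁻¹ := by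
      rw [← Real.rpow_neg hx0.le]
      congr 1
      ring
    rw [h4]
    calc g 1 x ≤ 2 * 1 / x ^ ((3 : ℝ) / 2) := h2
      _ = _ := by ring
  have h1 : (Iic (-1 : ℝ)) ∪ (Ioc (-1) 1 ∪ Ioi 1) = univ := by
    ext x
    simp only [mem_union, mem_Iic, mem_Ioc, mem_Ioi, mem_univ, iff_true]
    rcases le_or_gt x (-1) with h | h
    · exact Or.inl h
    · rcases le_or_gt x 1 with h' | h'
      · exact Or.inr (Or.inl ⟨h, h'⟩)
      · exact Or.inr (Or.inr h')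
  rw [← integrableOn_univ, ← h1]
  exact hA.union (hB.union hC)

/-- half of the area of `|x³ - y²| ≤ 1` -/
noncomputable def I0 : ℝ := ∫ x : ℝ, g 1 x

theorem I0_nonneg : 0 ≤ I0 := integral_nonneg (fun x => g_nonneg zero_le_one x)

theorem int_g1_le (Z : ℝ) (hZ : 0 ≤ Z) : ∫ x in (-Z)..Z, g 1 x ≤ I0 := by
  rw [intervalIntegral.integral_of_le (by linarith)]
  exact setIntegral_le_integral g1_integrable
    (Eventually.of_forall (fun x => g_nonneg zero_le_one x))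

theorem int_g_le {D : ℝ} (hD : 0 < D) (Y : ℝ) (hY : 0 ≤ Y) :
    ∫ x in (-Y)..Y, g D x ≤ D ^ ((5 : ℝ) / 6) * I0 := by
  rw [int_g hD]
  have h := int_g1_le (Y / D ^ ((1 : ℝ) / 3)) (by positivity)
  gcongr

theorem int_g_nonneg {D : ℝ} (hD : 0 ≤ D) (Y : ℝ) (hY : 0 ≤ Y) :
    0 ≤ ∫ x in (-Y)..Y, g D x :=
  (g_uni hD).int_nonneg (by linarith)

theorem int_g_tendsto {D Y : ℝ → ℝ} (hD : ∀ᶠ X in atTop, 0 < D X)
    (hY : Tendsto (fun X => Y X / D X ^ ((1 : ℝ) / 3)) atTop atTop) :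
    Tendsto (fun X => (∫ x in (-(Y X))..(Y X), g (D X) x) / D X ^ ((5 : ℝ) / 6)) atTop (𝓝 I0) := by
  have h1 := intervalIntegral_tendsto_integral g1_integrable (tendsto_neg_atTop_atBot.comp hY) hY
  refine h1.congr' ?_
  filter_upwards [hD] with X hX
  simp only [Function.comp_apply]
  rw [int_g hX]
  have : D X ^ ((5 : ℝ) / 6) ≠ 0 := by positivity
  field_simp

end Pool.Agent.T2H27.Law
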