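import Pool.Agent.T2H27.Law.Dens2

/-!
# Products of local densities
-/

set_option autoImplicit false

namespace Pool.Agent.T2H27.Law

open Finset Filter Topology

/-- the modulus -/
def Md (S : Finset ℕ) (e : ℕ → ℕ) : ℕ := ∏ p ∈ S, p ^ (e p + 2)

theorem Md_pos {S : Finset ℕ} (hS : ∀ p ∈ S, p.Prime) (e : ℕ → ℕ) : 0 < Md S e :=
  prod_pos (fun p hp => pow_pos (hS p hp).pos _)

theorem prod_dens (τ : ℤ × ℤ × ℤ) (hτ : τ ∈ TT) (e : ℕ → ℕ) (S : Finset ℕ)
    (hS : ∀ p ∈ S, p.Prime) :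
    Per (Md S e) (fun u v => ∀ p ∈ S, Lp τ p (e p) u v) ∧
    (cnt (Md S e) (fun u v => ∀ p ∈ S, Lp τ p (e p) u v) : ℝ) / ((Md S e : ℕ) : ℝ) ^ 2 =
      ∏ p ∈ S, dn τ p (e p) := by
  classical
  induction S using Finset.induction_on with
  | empty =>
    constructor
    · intro u v u' v' _ _
      simp
    · rw [prod_empty, cnt_true (fun u v p hp => absurd hp (notMem_empty p))]
      unfold Md
      simp
  | insert p S hp ih =>
    obtain ⟨ih1, ih2⟩ := ih (fun q hq => hS q (mem_insert_of_mem hq))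
    have hpp := hS p (mem_insert_self _ _)
    have hMd : Md (insert p S) e = p ^ (e p + 2) * Md S e := by
      unfold Md
      rw [prod_insert hp]
    have hcop : Nat.Coprime (p ^ (e p + 2)) (Md S e) := by
      unfold Md
      apply Nat.Coprime.prod_right
      intro q hq
      apply Nat.Coprime.pow
      rw [Nat.coprime_primes hpp (hS q (mem_insert_of_mem hq))]
      rintro rfl
      exact hp hq
    have hset : ∀ u v, (∀ q ∈ insert p S, Lp τ q (e q) u v) ↔
        (Lp τ p (e p) u v ∧ ∀ q ∈ S, Lp τ q (e q) u v) := by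
      intro u v
      rw [forall_mem_insert]
    have hPos := Md_pos (S := S) (fun q hq => hS q (mem_insert_of_mem hq)) e
    constructor
    · intro u v u' v' hu hv
      rw [hMd] at hu hv
      have h1 : ((p ^ (e p + 2) : ℕ) : ℤ) ∣ ((p ^ (e p + 2) * Md S e : ℕ) : ℤ) := by
        rw [Nat.cast_mul]
        exact dvd_mul_right _ _
      have h2 : ((Md S e : ℕ) : ℤ) ∣ ((p ^ (e p + 2) * Md S e : ℕ) : ℤ) := by
        rw [Nat.cast_mul]
        exact dvd_mul_left _ _
      exact (hset u v).trans ((and_congr (Per_Lp τ p (e p) u v u' v' (hu.of_dvd h1) (hv.of_dvd h1))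
        (ih1 u v u' v' (hu.of_dvd h2) (hv.of_dvd h2))).trans (hset u' v').symm)
    · rw [cnt_congr hset, hMd, cnt_mul hcop (pow_pos hpp.pos _) hPos (Per_Lp τ p (e p)) ih1,
        prod_insert hp, ← ih2, ← dens τ hτ (e p) hpp]
      rw [Nat.cast_mul, Nat.cast_mul, mul_pow, mul_div_mul_comm]

/-- the large primes -/
def Sb (w : ℕ) : Finset ℕ := w.primesBelow.filter (fun p => 5 ≤ p)

theorem primesBelow_eq {w : ℕ} (hw : 4 ≤ w) : w.primesBelow = insert 2 (insert 3 (Sb w)) := by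
  ext p
  rw [mem_insert, mem_insert]
  unfold Sb
  rw [mem_filter, Nat.mem_primesBelow]
  constructor
  · rintro ⟨h1, h2⟩
    by_cases h5 : 5 ≤ p
    · exact Or.inr (Or.inr ⟨⟨h1, h2⟩, h5⟩)
    · have := h2.two_le
      have h6 : p < 5 := by omega
      interval_cases p
      · exact Or.inl rfl
      · exact Or.inr (Or.inl rfl)
      · exact absurd h2 (by norm_num)
  · rintro (rfl | rfl | ⟨h, -⟩)
    · exact ⟨by omega, Nat.prime_two⟩
    · exact ⟨by omega, Nat.prime_three⟩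
    · exact h

theorem two_notMem (w : ℕ) : 2 ∉ insert 3 (Sb w) := by
  unfold Sb
  simp

theorem three_notMem (w : ℕ) : 3 ∉ Sb w := by
  unfold Sb
  simp

theorem avg_prod {w : ℕ} (hw : 4 ≤ w) (e : ℕ → ℕ) :
    ∑ τ ∈ TT, ∏ p ∈ w.primesBelow, dn τ p (e p) = 12 * ∏ p ∈ w.primesBelow, lam p (e p) := by
  rw [primesBelow_eq hw]
  have h1 : ∀ τ ∈ TT, ∏ p ∈ insert 2 (insert 3 (Sb w)), dn τ p (e p) =
      (dn τ 2 (e 2) * dn τ 3 (e 3)) * ∏ p ∈ Sb w, lam p (e p) := by
    intro τ _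
    rw [prod_insert (two_notMem w), prod_insert (three_notMem w), ← mul_assoc]
    congr 1
    refine prod_congr rfl (fun p hp => ?_)
    unfold Sb at hp
    rw [mem_filter] at hp
    unfold dn
    rw [if_pos hp.2]
  rw [sum_congr rfl h1, ← sum_mul, avg, prod_insert (two_notMem w), prod_insert (three_notMem w)]
  ring

/-! ### The infinite product -/

/-- the partial products -/
noncomputable def EW (w : ℕ) : ℝ := ∏ p ∈ w.primesBelow, lam p 0

theorem lam0 (p : ℕ) : lam p 0 = 1 - 2 / (p : ℝ) ^ 2 + 1 / (p : ℝ) ^ 3 := by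
  unfold lam
  rw [if_pos rfl]

theorem lam0_pos {p : ℕ} (hp : 2 ≤ p) : 0 < lam p 0 := by
  rw [lam0]
  have h1 : (2 : ℝ) ≤ p := by exact_mod_cast hp
  have h2 : 2 / (p : ℝ) ^ 2 ≤ 1 / 2 := by
    rw [div_le_div_iff₀ (by positivity) (by norm_num)]
    nlinarith
  have h3 : 0 < 1 / (p : ℝ) ^ 3 := by positivity
  linarith

theorem lam0_le_one {p : ℕ} (hp : 1 ≤ p) : lam p 0 ≤ 1 := by
  rw [lam0]
  have h1 : (1 : ℝ) ≤ p := by exact_mod_cast hp
  have h2 : 1 / (p : ℝ) ^ 3 ≤ 2 / (p : ℝ) ^ 2 := by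
    rw [div_le_div_iff₀ (by positivity) (by positivity)]
    have : (p : ℝ) ^ 2 ≤ (p : ℝ) ^ 3 := pow_le_pow_right₀ h1 (by norm_num)
    nlinarith
  linarith

theorem EW_pos (w : ℕ) : 0 < EW w :=
  prod_pos (fun p hp => lam0_pos (Nat.prime_of_mem_primesBelow hp).two_le)

theorem EW_anti : Antitone EW := by
  intro a b hab
  unfold EW
  have hsub : a.primesBelow ⊆ b.primesBelow := by
    intro p hp
    rw [Nat.mem_primesBelow] at hp ⊢
    exact ⟨by omega, hp.2⟩
  rw [← prod_sdiff hsub]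
  have h1 : ∏ p ∈ b.primesBelow \ a.primesBelow, lam p 0 ≤ 1 := by
    apply prod_le_one
    · intro p hp
      rw [Finset.mem_sdiff] at hp
      exact (lam0_pos (Nat.prime_of_mem_primesBelow hp.1).two_le).le
    · intro p hp
      rw [Finset.mem_sdiff] at hp
      exact lam0_le_one (Nat.prime_of_mem_primesBelow hp.1).one_lt.le
  have h2 : 0 ≤ ∏ p ∈ a.primesBelow, lam p 0 := (EW_pos a).le
  nlinarith

theorem one_sub_sum_le (S : Finset ℕ) (a : ℕ → ℝ) (h0 : ∀ i ∈ S, 0 ≤ a i) (h1 : ∀ i ∈ S, a i ≤ 1) :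
    1 - ∑ i ∈ S, a i ≤ ∏ i ∈ S, (1 - a i) := by
  classical
  have key : 1 - ∑ i ∈ S, a i ≤ ∏ i ∈ S, (1 - a i) ∧ 0 ≤ ∏ i ∈ S, (1 - a i) ∧
      ∏ i ∈ S, (1 - a i) ≤ 1 := by
    induction S using Finset.induction_on with
    | empty => simp
    | insert p S hp ih =>
      obtain ⟨i1, i2, i3⟩ := ih (fun i hi => h0 i (mem_insert_of_mem hi))
        (fun i hi => h1 i (mem_insert_of_mem hi))
      have a0 := h0 p (mem_insert_self _ _)
      have a1 := h1 p (mem_insert_self _ _)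
      rw [sum_insert hp, prod_insert hp]
      refine ⟨?_, ?_, ?_⟩
      · nlinarith
      · exact mul_nonneg (by linarith) i2
      · nlinarith
  exact key.1

theorem EW_lower {w : ℕ} (hw : 4 ≤ w) : 1 / 4 ≤ EW w := by
  unfold EW
  rw [primesBelow_eq hw, prod_insert (two_notMem w), prod_insert (three_notMem w)]
  have h1 : 1 / 2 ≤ ∏ p ∈ Sb w, lam p 0 := by
    have h2 := one_sub_sum_le (Sb w) (fun p => 1 - lam p 0)
      (fun p hp => by
        unfold Sb at hp
        rw [mem_filter] at hp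
        have := lam0_le_one (p := p) (by omega)
        linarith)
      (fun p hp => by
        unfold Sb at hp
        rw [mem_filter] at hp
        have := lam0_pos (p := p) (by omega)
        linarith)
    have h3 : ∑ p ∈ Sb w, (1 - lam p 0) ≤ 1 / 2 := by
      calc ∑ p ∈ Sb w, (1 - lam p 0) ≤ ∑ p ∈ Sb w, 2 * ((p : ℝ) ^ 2)⁻¹ := by
            refine sum_le_sum (fun p hp => ?_)
            unfold Sb at hp
            rw [mem_filter] at hp
            rw [lam0]
            have : 0 ≤ 1 / (p : ℝ) ^ 3 := by positivity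
            rw [div_eq_mul_inv]
            linarith
        _ ≤ ∑ p ∈ Ioc 4 w, 2 * ((p : ℝ) ^ 2)⁻¹ := by
            apply sum_le_sum_of_subset_of_nonneg
            · intro p hp
              unfold Sb at hp
              rw [mem_filter, Nat.mem_primesBelow] at hp
              rw [mem_Ioc]
              omega
            · intro p _ _
              positivity
        _ = 2 * ∑ p ∈ Ioc 4 w, ((p : ℝ) ^ 2)⁻¹ := by rw [mul_sum]
        _ ≤ 2 * (((4 : ℕ) : ℝ)⁻¹ - (w : ℝ)⁻¹) := by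
            have := sum_Ioc_inv_sq_le_sub (α := ℝ) (k := 4) (n := w) (by norm_num) hw
            linarith
        _ ≤ 1 / 2 := by
            have : 0 ≤ (w : ℝ)⁻¹ := by positivity
            push_cast
            linarith
    have h4 : ∏ p ∈ Sb w, (1 - (1 - lam p 0)) = ∏ p ∈ Sb w, lam p 0 :=
      prod_congr rfl (fun p _ => by ring)
    rw [h4] at h2
    linarith
  have e2 : lam 2 0 = 5 / 8 := by rw [lam0]; norm_num
  have e3 : lam 3 0 = 22 / 27 := by rw [lam0]; norm_num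
  rw [e2, e3]
  linarith

/-- the infinite product -/
noncomputable def E0 : ℝ := ⨅ w, EW w

theorem EW_tendsto : Tendsto EW atTop (𝓝 E0) :=
  tendsto_atTop_ciInf EW_anti ⟨0, by rintro _ ⟨w, rfl⟩; exact (EW_pos w).le⟩

theorem E0_pos : 0 < E0 := by
  have h : 1 / 4 ≤ E0 := by
    refine ge_of_tendsto EW_tendsto ?_
    filter_upwards [eventually_ge_atTop 4] with w hw
    exact EW_lower hw
  linarith

/-! ### The weights -/

/-- the local factor -/
noncomputable def wl (p : ℕ) : ℝ := ((p : ℝ) - 1) / ((p : ℝ) ^ 2 + p - 1)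

/-- the multiplicative factor -/
noncomputable def w0 (n : ℕ) : ℝ := ∏ p ∈ n.primeFactors, wl p

theorem lam_ratio {p e : ℕ} (hp : p.Prime) (he : e ≠ 0) :
    lam p e = lam p 0 * (((p : ℝ) ^ e)⁻¹ * wl p) := by
  have h2 : (2 : ℝ) ≤ p := by exact_mod_cast hp.two_le
  rw [lam0]
  unfold lam wl
  rw [if_neg he]
  have h3 : (p : ℝ) ^ 2 + p - 1 ≠ 0 := by nlinarith
  have h4 : (p : ℝ) ^ e ≠ 0 := by positivity
  have h5 : (p : ℝ) ≠ 0 := by positivity
  have hkey : 1 - 2 / (p : ℝ) ^ 2 + 1 / (p : ℝ) ^ 3 =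
      ((p : ℝ) - 1) * ((p : ℝ) ^ 2 + p - 1) / (p : ℝ) ^ 3 := by
    field_simp
    ring
  rw [hkey, pow_succ (p : ℝ) e]
  generalize (p : ℝ) ^ 2 + p - 1 = q at h3
  field_simp

theorem prod_lam {n w : ℕ} (hn : n ≠ 0) (hw : n < w) :
    ∏ p ∈ w.primesBelow, lam p (n.factorization p) = EW w * ((n : ℝ)⁻¹ * w0 n) := by
  have h1 : ∀ p ∈ w.primesBelow, lam p (n.factorization p) = lam p 0 *
      (if p ∈ n.primeFactors then (((p : ℝ) ^ (n.factorization p))⁻¹ * wl p) else 1) := by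
    intro p hp
    have hpp := Nat.prime_of_mem_primesBelow hp
    split_ifs with h
    · apply lam_ratio hpp
      have := hpp.factorization_pos_of_dvd hn (Nat.dvd_of_mem_primeFactors h)
      omega
    · have : n.factorization p = 0 := by
        rw [← Finsupp.notMem_support_iff, Nat.support_factorization]
        exact h
      rw [this, mul_one]
  rw [prod_congr rfl h1, prod_mul_distrib]
  unfold EW w0
  congr 1
  rw [prod_ite_mem]
  have hsub : w.primesBelow ∩ n.primeFactors = n.primeFactors := by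
    apply inter_eq_right.2
    intro p hp
    rw [Nat.mem_primesBelow]
    exact ⟨lt_of_le_of_lt (Nat.le_of_dvd (Nat.pos_of_ne_zero hn) (Nat.dvd_of_mem_primeFactors hp)) hw,
      Nat.prime_of_mem_primeFactors hp⟩
  rw [hsub, prod_mul_distrib]
  congr 1
  rw [prod_inv_distrib]
  congr 1
  have h2 : n = ∏ p ∈ n.primeFactors, p ^ n.factorization p := by
    conv_lhs => rw [← Nat.prod_factorization_pow_eq_self hn]
    rw [Nat.prod_factorization_eq_prod_primeFactors]
  conv_rhs => rw [h2]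
  push_cast
  rfl

/-- the number of the points with the conditions at the primes below `w` -/
noncomputable def sw (n w : ℕ) (A X : ℝ) : ℕ :=
  ∑ τ ∈ TT, (CC τ (Md w.primesBelow n.factorization)
    (fun u v => ∀ p ∈ w.primesBelow, Lp τ p (n.factorization p) u v)
    ((1728 * n) * X) (X ^ A)).card

theorem sw_tendsto {n w : ℕ} {A : ℝ} (hn : n ≠ 0) (hw4 : 4 ≤ w) (hw : n < w) (h1 : 1 < A)
    (h2 : A < 5 / 2) :
    Tendsto (fun X : ℝ => (sw n w A X : ℝ) / X ^ ((5 : ℝ) / 6)) atTop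
      (𝓝 (12 * (EW w * ((n : ℝ)⁻¹ * w0 n)) *
        (2 / 41472 * ((1728 * (n : ℝ)) ^ ((5 : ℝ) / 6) * I0)))) := by
  have hn0 : (0 : ℝ) < 1728 * n := by
    have : (0 : ℝ) < n := by exact_mod_cast Nat.pos_of_ne_zero hn
    linarith
  have hP : ∀ p ∈ w.primesBelow, p.Prime := fun p hp => Nat.prime_of_mem_primesBelow hp
  have h3 : Tendsto (fun X : ℝ => ∑ τ ∈ TT, ((CC τ (Md w.primesBelow n.factorization)
      (fun u v => ∀ p ∈ w.primesBelow, Lp τ p (n.factorization p) u v)
      ((1728 * n) * X) (X ^ A)).card : ℝ) / X ^ ((5 : ℝ) / 6)) atTop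
      (𝓝 (∑ τ ∈ TT, (∏ p ∈ w.primesBelow, dn τ p (n.factorization p)) *
        (2 / 41472 * ((1728 * (n : ℝ)) ^ ((5 : ℝ) / 6) * I0)))) := by
    refine tendsto_finsetSum _ (fun τ hτ => ?_)
    rw [← (prod_dens τ hτ n.factorization w.primesBelow hP).2]
    exact CC_tendsto hn0 h1 h2 τ (Md_pos hP _) _
  rw [← sum_mul, avg_prod hw4, prod_lam hn hw] at h3
  refine h3.congr (fun X => ?_)
  unfold sw
  rw [← sum_div]
  push_cast
  rfl

end Pool.Agent.T2H27.Law
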