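import Pool.Agent.T2H27.Law.IntG

/-!
# Points of a residue class in the region
-/

set_option autoImplicit false

namespace Pool.Agent.T2H27.Law

open Finset Filter Topology

/-- the `k` with `|l - q k| ≤ Y` -/
noncomputable def Ks (l q Y : ℝ) : Finset ℤ := Icc ⌈(l - Y) / q⌉ ⌊(l + Y) / q⌋

theorem mem_Ks {l q Y : ℝ} (hq : 0 < q) {k : ℤ} : k ∈ Ks l q Y ↔ |l - q * k| ≤ Y := by
  unfold Ks
  rw [mem_Icc, Int.ceil_le, Int.le_floor, div_le_iff₀ hq, le_div_iff₀ hq, abs_le]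
  constructor
  · rintro ⟨h1, h2⟩
    constructor <;> linarith
  · rintro ⟨h1, h2⟩
    constructor <;> linarith

theorem Ks_le {l q Y : ℝ} (hq : 0 < q) (hY : 0 ≤ Y) : ((Ks l q Y).card : ℝ) ≤ 2 * Y / q + 1 := by
  have h1 : (l - Y) / q ≤ (l + Y) / q := by
    apply div_le_div_of_nonneg_right _ hq.le
    linarith
  have := icc_card_le h1
  unfold Ks
  calc _ ≤ (l + Y) / q - (l - Y) / q + 1 := this
    _ = _ := by ring

/-- the points `(k, j)` with `|l - q k| ≤ Y` and `|(l - q k)³ - (y k - h j)²| ≤ D` -/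
noncomputable def PP (D Y l q h : ℝ) (y : ℤ → ℝ) : Finset (ℤ × ℤ) :=
  (Ks l q Y).biUnion (fun k => (LS D ((l - q * k) ^ 3) (y k) h).image (fun j => (k, j)))

theorem mem_PP {D Y l q h : ℝ} {y : ℤ → ℝ} (hq : 0 < q) (hh : 0 < h) {p : ℤ × ℤ} :
    p ∈ PP D Y l q h y ↔ |l - q * p.1| ≤ Y ∧ |(l - q * p.1) ^ 3 - (y p.1 - h * p.2) ^ 2| ≤ D := by
  unfold PP
  rw [mem_biUnion]
  constructor
  · rintro ⟨k, hk, hp⟩
    rw [mem_image] at hp
    obtain ⟨j, hj, rfl⟩ := hp
    exact ⟨(mem_Ks hq).1 hk, (mem_LS hh).1 hj⟩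
  · rintro ⟨h1, h2⟩
    exact ⟨p.1, (mem_Ks hq).2 h1, mem_image.2 ⟨p.2, (mem_LS hh).2 h2, rfl⟩⟩

theorem card_PP (D Y l q h : ℝ) (y : ℤ → ℝ) :
    (PP D Y l q h y).card = ∑ k ∈ Ks l q Y, (LS D ((l - q * k) ^ 3) (y k) h).card := by
  unfold PP
  rw [card_biUnion]
  · refine sum_congr rfl (fun k _ => ?_)
    rw [card_image_of_injective]
    intro a b hab
    simpa using hab
  · intro k _ k' _ hkk
    rw [Function.onFun, disjoint_left]
    intro p hp hp'
    rw [mem_image] at hp hp'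
    obtain ⟨j, _, rfl⟩ := hp
    obtain ⟨j', _, h⟩ := hp'
    rw [Prod.mk.injEq] at h
    exact hkk h.1.symm

/-- the number of these points -/
theorem PP_est {D Y l q h : ℝ} (y : ℤ → ℝ) (hD : 0 ≤ D) (hY : 0 ≤ Y) (hq : 0 < q) (hh : 0 < h) :
    |((PP D Y l q h y).card : ℝ) - 2 / (h * q) * ∫ x in (-Y)..Y, g D x| ≤
      12 * √(2 * D) / h + 2 * (2 * Y / q + 1) := by
  have h1 := (g_uni hD).sum_ap l q Y hq hY
  have hK := Ks_le (l := l) hq hY
  rw [card_PP]
  push_cast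
  have h2 : |∑ k ∈ Ks l q Y, ((LS D ((l - q * k) ^ 3) (y k) h).card : ℝ) -
      ∑ k ∈ Ks l q Y, 2 * g D (l - q * k) / h| ≤ 2 * (2 * Y / q + 1) := by
    rw [← sum_sub_distrib]
    refine (abs_sum_le_sum_abs _ _).trans ?_
    calc ∑ k ∈ Ks l q Y, |((LS D ((l - q * k) ^ 3) (y k) h).card : ℝ) - 2 * g D (l - q * k) / h|
        ≤ ∑ k ∈ Ks l q Y, (2 : ℝ) := by
          refine sum_le_sum (fun k _ => ?_)
          have a1 := LS_le (s := (l - q * k) ^ 3) (y := y k) hD hh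
          have a2 := LS_ge (s := (l - q * k) ^ 3) (y := y k) hD hh
          unfold g
          rw [abs_le]
          constructor <;> linarith
      _ = (Ks l q Y).card * 2 := by rw [sum_const, nsmul_eq_mul]
      _ ≤ _ := by linarith
  have h3 : ∑ k ∈ Ks l q Y, 2 * g D (l - q * k) / h = 2 / h * ∑ k ∈ Ks l q Y, g D (l - q * k) := by
    rw [mul_sum]
    refine sum_congr rfl (fun k _ => ?_)
    ring
  rw [h3] at h2
  have h4 : |2 / h * ∑ k ∈ Ks l q Y, g D (l - q * k) - 2 / (h * q) * ∫ x in (-Y)..Y, g D x| ≤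
      12 * √(2 * D) / h := by
    have e : 2 / h * ∑ k ∈ Ks l q Y, g D (l - q * k) - 2 / (h * q) * ∫ x in (-Y)..Y, g D x =
        2 / h * (∑ k ∈ Ks l q Y, g D (l - q * k) - 1 / q * ∫ x in (-Y)..Y, g D x) := by
      rw [mul_sub]
      congr 1
      rw [← mul_assoc]
      congr 1
      field_simp
    rw [e, abs_mul, abs_of_pos (by positivity : 0 < 2 / h)]
    calc 2 / h * _ ≤ 2 / h * (6 * √(2 * D)) := by
          apply mul_le_mul_of_nonneg_left _ (by positivity)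
          exact h1
      _ = _ := by ring
  have h5 := abs_add_le (∑ k ∈ Ks l q Y, ((LS D ((l - q * k) ^ 3) (y k) h).card : ℝ) -
    2 / h * ∑ k ∈ Ks l q Y, g D (l - q * k)) (2 / h * ∑ k ∈ Ks l q Y, g D (l - q * k) -
    2 / (h * q) * ∫ x in (-Y)..Y, g D x)
  have e : (∑ k ∈ Ks l q Y, ((LS D ((l - q * k) ^ 3) (y k) h).card : ℝ) -
    2 / h * ∑ k ∈ Ks l q Y, g D (l - q * k)) + (2 / h * ∑ k ∈ Ks l q Y, g D (l - q * k) -
    2 / (h * q) * ∫ x in (-Y)..Y, g D x) =
    ∑ k ∈ Ks l q Y, ((LS D ((l - q * k) ^ 3) (y k) h).card : ℝ) -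
    2 / (h * q) * ∫ x in (-Y)..Y, g D x := by ring
  rw [e] at h5
  linarith

/-- the points of height at most `T` -/
noncomputable def RR (D T l q h : ℝ) (y : ℤ → ℝ) : Finset (ℤ × ℤ) :=
  (PP D (T ^ ((1 : ℝ) / 3)) l q h y).filter (fun p => (y p.1 - h * p.2) ^ 2 ≤ T)

theorem abs_le_root {x T : ℝ} (hT : 0 ≤ T) : |x| ≤ T ^ ((1 : ℝ) / 3) ↔ |x| ^ 3 ≤ T := by
  constructor
  · intro h
    calc |x| ^ 3 ≤ (T ^ ((1 : ℝ) / 3)) ^ 3 := by gcongr
      _ = T := cube_root hT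
  · intro h
    have h1 : |x| ^ 3 ≤ (T ^ ((1 : ℝ) / 3)) ^ 3 := by rwa [cube_root hT]
    exact le_of_pow_le_pow_left₀ (by norm_num) (by positivity) h1

theorem mem_RR {D T l q h : ℝ} {y : ℤ → ℝ} (hT : 0 ≤ T) (hq : 0 < q) (hh : 0 < h) {p : ℤ × ℤ} :
    p ∈ RR D T l q h y ↔ |l - q * p.1| ^ 3 ≤ T ∧ (y p.1 - h * p.2) ^ 2 ≤ T ∧
      |(l - q * p.1) ^ 3 - (y p.1 - h * p.2) ^ 2| ≤ D := by
  unfold RR
  rw [mem_filter, mem_PP hq hh, abs_le_root hT]
  tauto

theorem PP_sub_RR {D T l q h : ℝ} {y : ℤ → ℝ} (hD : 0 ≤ D) (hT : D ≤ T) (hq : 0 < q) (hh : 0 < h) :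
    PP D ((T - D) ^ ((1 : ℝ) / 3)) l q h y ⊆ RR D T l q h y := by
  intro p hp
  rw [mem_PP hq hh, abs_le_root (by linarith)] at hp
  rw [mem_RR (by linarith) hq hh]
  obtain ⟨h1, h2⟩ := hp
  refine ⟨by linarith, ?_, h2⟩
  have h3 := (abs_le.1 h2).1
  have h4 : (l - q * p.1) ^ 3 ≤ |l - q * p.1| ^ 3 := cube_mono (le_abs_self _)
  linarith

theorem tendsto_rpow_neg' {b : ℝ} (hb : 0 < b) : Tendsto (fun X : ℝ => X ^ (-b)) atTop (𝓝 0) :=
  tendsto_rpow_neg_atTop hb

/-- **The number of the points of a class.** -/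
theorem RR_tendsto {n A : ℝ} (hn : 0 < n) (h1 : 1 < A) (h2 : A < 5 / 2) {q h : ℝ} (hq : 0 < q)
    (hh : 0 < h) (l : ℝ) (y : ℤ → ℝ) :
    Tendsto (fun X : ℝ => ((RR (n * X) (X ^ A) l q h y).card : ℝ) / X ^ ((5 : ℝ) / 6)) atTop
      (𝓝 (2 / (h * q) * (n ^ ((5 : ℝ) / 6) * I0))) := by
  -- for a function `Y` with `c X ^ (A/3) ≤ Y ≤ X ^ (A/3)`
  have key : ∀ Y : ℝ → ℝ, (∀ᶠ X in atTop, 0 ≤ Y X ∧ Y X ≤ X ^ (A / 3)) →
      Tendsto (fun X => Y X / (n * X) ^ ((1 : ℝ) / 3)) atTop atTop →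
      Tendsto (fun X : ℝ => ((PP (n * X) (Y X) l q h y).card : ℝ) / X ^ ((5 : ℝ) / 6)) atTop
      (𝓝 (2 / (h * q) * (n ^ ((5 : ℝ) / 6) * I0))) := by
    intro Y hY hYt
    have hD : ∀ᶠ X : ℝ in atTop, 0 < n * X := by
      filter_upwards [eventually_gt_atTop 0] with X hX
      positivity
    have hmain := int_g_tendsto hD hYt
    have hmain2 : Tendsto (fun X : ℝ => (2 / (h * q) * ∫ x in (-(Y X))..(Y X), g (n * X) x) /
        X ^ ((5 : ℝ) / 6)) atTop (𝓝 (2 / (h * q) * (n ^ ((5 : ℝ) / 6) * I0))) := by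
      have h3 := (hmain.const_mul (n ^ ((5 : ℝ) / 6))).const_mul (2 / (h * q))
      refine h3.congr' ?_
      filter_upwards [eventually_gt_atTop 0] with X hX
      rw [Real.mul_rpow hn.le hX.le]
      have : n ^ ((5 : ℝ) / 6) ≠ 0 := by positivity
      have : X ^ ((5 : ℝ) / 6) ≠ 0 := by positivity
      field_simp
    have herr : Tendsto (fun X : ℝ => (12 * √(2 * n) / h) * X ^ (-(1 / 3 : ℝ)) +
        (4 / q) * X ^ (-(5 / 6 - A / 3)) + 2 * X ^ (-(5 / 6 : ℝ))) atTop (𝓝 0) := by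
      have e1 := (tendsto_rpow_neg' (b := 1 / 3) (by norm_num)).const_mul (12 * √(2 * n) / h)
      have e2 := (tendsto_rpow_neg' (b := 5 / 6 - A / 3) (by linarith)).const_mul (4 / q)
      have e3 := (tendsto_rpow_neg' (b := 5 / 6) (by norm_num)).const_mul 2
      have := (e1.add e2).add e3
      simpa using this
    have hdiff : Tendsto (fun X : ℝ => ((PP (n * X) (Y X) l q h y).card : ℝ) / X ^ ((5 : ℝ) / 6) -
        (2 / (h * q) * ∫ x in (-(Y X))..(Y X), g (n * X) x) / X ^ ((5 : ℝ) / 6)) atTop (𝓝 0) := by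
      refine squeeze_zero_norm' ?_ herr
      filter_upwards [hY, eventually_ge_atTop 1] with X hYX hX
      have hX0 : 0 < X := by linarith
      have h3 := PP_est (D := n * X) (Y := Y X) (l := l) (q := q) (h := h) y (by positivity) hYX.1
        hq hh
      rw [← sub_div, Real.norm_eq_abs, abs_div, abs_of_pos (by positivity : 0 < X ^ ((5 : ℝ) / 6)),
        div_le_iff₀ (by positivity)]
      refine h3.trans ?_
      have e1 : √(2 * (n * X)) = √(2 * n) * X ^ ((1 : ℝ) / 2) := by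
        rw [← Real.sqrt_eq_rpow, ← Real.sqrt_mul (by positivity)]
        congr 1
        ring
      have e2 : X ^ (-(1 / 3 : ℝ)) * X ^ ((5 : ℝ) / 6) = X ^ ((1 : ℝ) / 2) := by
        rw [← Real.rpow_add hX0]
        congr 1
        norm_num
      have e3 : X ^ (-(5 / 6 - A / 3)) * X ^ ((5 : ℝ) / 6) = X ^ (A / 3) := by
        rw [← Real.rpow_add hX0]
        congr 1
        ring
      have e4 : X ^ (-(5 / 6 : ℝ)) * X ^ ((5 : ℝ) / 6) = 1 := by
        rw [← Real.rpow_add hX0]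
        norm_num
      have e5 : ((12 * √(2 * n) / h) * X ^ (-(1 / 3 : ℝ)) +
        (4 / q) * X ^ (-(5 / 6 - A / 3)) + 2 * X ^ (-(5 / 6 : ℝ))) * X ^ ((5 : ℝ) / 6) =
        (12 * √(2 * n) / h) * (X ^ (-(1 / 3 : ℝ)) * X ^ ((5 : ℝ) / 6)) +
        (4 / q) * (X ^ (-(5 / 6 - A / 3)) * X ^ ((5 : ℝ) / 6)) +
        2 * (X ^ (-(5 / 6 : ℝ)) * X ^ ((5 : ℝ) / 6)) := by ring
      rw [e5, e2, e3, e4, e1]
      have h4 : 2 * (2 * Y X / q + 1) ≤ 4 / q * X ^ (A / 3) + 2 * 1 := by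
        have : 2 * (2 * Y X / q + 1) = 4 / q * Y X + 2 * 1 := by ring
        rw [this]
        have : 4 / q * Y X ≤ 4 / q * X ^ (A / 3) := by
          apply mul_le_mul_of_nonneg_left hYX.2 (by positivity)
        linarith
      have h5 : 12 * (√(2 * n) * X ^ ((1 : ℝ) / 2)) / h = 12 * √(2 * n) / h * X ^ ((1 : ℝ) / 2) := by
        ring
      rw [h5]
      linarith
    have := hdiff.add hmain2
    simpa using this
  -- the two functions
  have hA : ∀ X : ℝ, 0 < X → (X ^ A) ^ ((1 : ℝ) / 3) = X ^ (A / 3) := by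
    intro X hX
    rw [← Real.rpow_mul hX.le]
    congr 1
    ring
  have hbig : Tendsto (fun X : ℝ => X ^ (A - 1)) atTop atTop := tendsto_rpow_atTop (by linarith)
  have hup := key (fun X => (X ^ A) ^ ((1 : ℝ) / 3)) (by
    filter_upwards [eventually_gt_atTop 0] with X hX
    rw [hA X hX]
    exact ⟨by positivity, le_rfl⟩) (by
    have h3 : Tendsto (fun X : ℝ => (1 / n * X ^ (A - 1)) ^ ((1 : ℝ) / 3)) atTop atTop :=
      (tendsto_rpow_atTop (by norm_num)).comp (hbig.const_mul_atTop (by positivity))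
    refine h3.congr' ?_
    filter_upwards [eventually_gt_atTop 0] with X hX
    rw [← Real.div_rpow (by positivity) (by positivity)]
    congr 1
    rw [Real.rpow_sub hX, Real.rpow_one]
    field_simp)
  have hlo := key (fun X => (X ^ A - n * X) ^ ((1 : ℝ) / 3)) (by
    filter_upwards [eventually_gt_atTop 0, hbig.eventually_ge_atTop n] with X hX hX2
    have h4 : n * X ≤ X ^ A := by
      have : X ^ A = X ^ (A - 1) * X := by
        rw [Real.rpow_sub hX, Real.rpow_one]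
        field_simp
      rw [this]
      gcongr
    refine ⟨Real.rpow_nonneg (by linarith) _, ?_⟩
    rw [← hA X hX]
    apply Real.rpow_le_rpow (by linarith) _ (by norm_num)
    have : 0 < n * X := by positivity
    linarith) (by
    have h3 : Tendsto (fun X : ℝ => (1 / n * X ^ (A - 1) - 1) ^ ((1 : ℝ) / 3)) atTop atTop := by
      refine (tendsto_rpow_atTop (by norm_num)).comp ?_
      exact tendsto_atTop_add_const_right _ _ (hbig.const_mul_atTop (by positivity))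
    refine h3.congr' ?_
    filter_upwards [eventually_gt_atTop 0, hbig.eventually_ge_atTop n] with X hX hX2
    have h4 : n * X ≤ X ^ A := by
      have : X ^ A = X ^ (A - 1) * X := by
        rw [Real.rpow_sub hX, Real.rpow_one]
        field_simp
      rw [this]
      gcongr
    rw [← Real.div_rpow (by linarith) (by positivity)]
    congr 1
    rw [Real.rpow_sub hX, Real.rpow_one]
    field_simp)
  refine tendsto_of_tendsto_of_tendsto_of_le_of_le' hlo hup ?_ ?_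
  · filter_upwards [eventually_gt_atTop 0, hbig.eventually_ge_atTop n] with X hX hX2
    have h4 : n * X ≤ X ^ A := by
      have : X ^ A = X ^ (A - 1) * X := by
        rw [Real.rpow_sub hX, Real.rpow_one]
        field_simp
      rw [this]
      gcongr
    apply div_le_div_of_nonneg_right _ (by positivity)
    exact_mod_cast card_le_card (PP_sub_RR (y := y) (by positivity) h4 hq hh)
  · filter_upwards [eventually_gt_atTop 0] with X hX
    apply div_le_div_of_nonneg_right _ (by positivity)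
    exact_mod_cast card_le_card (filter_subset _ _)

end Pool.Agent.T2H27.Law
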