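import Pool.Agent.T2H27.Law.Strip
import Pool.Agent.T2H27.Pairs

/-!
# Tails
-/

set_option autoImplicit false

namespace Pool.Agent.T2H27.Law

open Finset Filter Topology Pool.Agent.T2H27.Szp

/-- points with `y` in few classes modulo `m` -/
theorem cntA {D Y : ℝ} (hD : 0 < D) (hY : 0 ≤ Y) {m : ℕ} (hm : 0 < m) {ρ : ℝ}
    (R : ℤ → Finset ℤ) (hR : ∀ x, ((R x).card : ℝ) ≤ ρ) (S : Finset (ℤ × ℤ))
    (hS : ∀ q ∈ S, |(q.1 : ℝ)| ≤ Y ∧ |(q.1 : ℝ) ^ 3 - (q.2 : ℝ) ^ 2| ≤ D ∧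
      ∃ r ∈ R q.1, (m : ℤ) ∣ r - q.2) :
    (S.card : ℝ) ≤ ρ * (2 / m * (D ^ ((5 : ℝ) / 6) * I0 + 6 * √(2 * D)) + 2 * (2 * Y + 1)) := by
  classical
  have hm' : (0 : ℝ) < m := by exact_mod_cast hm
  have hρ : 0 ≤ ρ := (Nat.cast_nonneg _).trans (hR 0)
  have hsub : S ⊆ (Ks 0 1 Y).biUnion (fun k => (R (-k)).biUnion (fun r =>
      (LS D ((0 - 1 * (k : ℝ)) ^ 3) r m).image (fun j => (-k, r - m * j)))) := by
    intro q hq
    obtain ⟨h1, h2, r, hr, j, hj⟩ := hS q hq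
    rw [mem_biUnion]
    refine ⟨-q.1, ?_, ?_⟩
    · rw [mem_Ks one_pos]
      push_cast
      rw [zero_sub, mul_neg, neg_neg, one_mul]
      exact h1
    · rw [mem_biUnion]
      refine ⟨r, by rwa [neg_neg], ?_⟩
      rw [mem_image]
      have e : r - m * j = q.2 := by linarith
      refine ⟨j, ?_, ?_⟩
      · rw [mem_LS hm']
        have e2 : (r : ℝ) - m * j = q.2 := by exact_mod_cast e
        rw [e2]
        push_cast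
        rw [zero_sub, mul_neg, neg_neg, one_mul]
        exact h2
      · rw [e, neg_neg]
  have h1 : (S.card : ℝ) ≤ ∑ k ∈ Ks 0 1 Y, ∑ r ∈ R (-k),
      ((LS D ((0 - 1 * (k : ℝ)) ^ 3) r m).card : ℝ) := by
    have h2 := (card_le_card hsub).trans card_biUnion_le
    have h3 : ∑ k ∈ Ks 0 1 Y, ((R (-k)).biUnion (fun r =>
      (LS D ((0 - 1 * (k : ℝ)) ^ 3) r m).image (fun j => (-k, r - m * j)))).card ≤
      ∑ k ∈ Ks 0 1 Y, ∑ r ∈ R (-k), (LS D ((0 - 1 * (k : ℝ)) ^ 3) r m).card := by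
      refine sum_le_sum (fun k _ => card_biUnion_le.trans ?_)
      exact sum_le_sum (fun r _ => card_image_le)
    exact_mod_cast h2.trans h3
  have h2 : ∀ k ∈ Ks 0 1 Y, ∑ r ∈ R (-k), ((LS D ((0 - 1 * (k : ℝ)) ^ 3) r m).card : ℝ) ≤
      ρ * (2 * g D (0 - 1 * k) / m + 2) := by
    intro k _
    calc ∑ r ∈ R (-k), ((LS D ((0 - 1 * (k : ℝ)) ^ 3) r m).card : ℝ)
        ≤ ∑ r ∈ R (-k), (2 * g D (0 - 1 * k) / m + 2) :=
          sum_le_sum (fun r _ => LS_le hD.le hm')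
      _ = (R (-k)).card * (2 * g D (0 - 1 * k) / m + 2) := by rw [sum_const, nsmul_eq_mul]
      _ ≤ _ := by
          have := g_nonneg hD.le (0 - 1 * (k : ℝ))
          exact mul_le_mul_of_nonneg_right (hR _) (by positivity)
  have h3 := h1.trans (sum_le_sum h2)
  rw [← mul_sum, sum_add_distrib] at h3
  have h4 := (g_uni hD.le).sum_ap 0 1 Y one_pos hY
  have h5 := int_g_le hD Y hY
  have h6 := (abs_le.1 h4).2
  have h7 : ∑ k ∈ Ks 0 1 Y, 2 * g D (0 - 1 * k) / m =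
      2 / m * ∑ k ∈ Ks 0 1 Y, g D (0 - 1 * k) := by
    rw [mul_sum]
    refine sum_congr rfl (fun k _ => ?_)
    ring
  have h8 : ∑ k ∈ Ks 0 1 Y, g D (0 - 1 * k) ≤ D ^ ((5 : ℝ) / 6) * I0 + 6 * √(2 * D) := by
    unfold Ks
    have e : (1 : ℝ) / 1 * ∫ x in (-Y)..Y, g D x = ∫ x in (-Y)..Y, g D x := by ring
    rw [e] at h6
    linarith
  have h9 : ∑ _k ∈ Ks 0 1 Y, (2 : ℝ) ≤ 2 * (2 * Y + 1) := by
    rw [sum_const, nsmul_eq_mul]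
    have := Ks_le (l := 0) (q := 1) one_pos hY
    have e : 2 * Y / 1 + 1 = 2 * Y + 1 := by ring
    rw [e] at this
    linarith
  rw [h7] at h3
  refine h3.trans (mul_le_mul_of_nonneg_left ?_ hρ)
  have h10 : 2 / (m : ℝ) * ∑ k ∈ Ks 0 1 Y, g D (0 - 1 * k) ≤
      2 / m * (D ^ ((5 : ℝ) / 6) * I0 + 6 * √(2 * D)) :=
    mul_le_mul_of_nonneg_left h8 (by positivity)
  linarith

/-- points divisible by `m` -/
theorem cntP {D Y : ℝ} (hD : 0 < D) (hY : 0 ≤ Y) {m : ℕ} (hm : 0 < m) (S : Finset (ℤ × ℤ))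
    (hS : ∀ q ∈ S, |(q.1 : ℝ)| ≤ Y ∧ |(q.1 : ℝ) ^ 3 - (q.2 : ℝ) ^ 2| ≤ D ∧
      (m : ℤ) ∣ q.1 ∧ (m : ℤ) ∣ q.2) :
    (S.card : ℝ) ≤ 2 * (D ^ ((5 : ℝ) / 6) * I0) * ((m : ℝ) ^ 2)⁻¹ +
      (12 * √(2 * D) + 4 * Y) * (m : ℝ)⁻¹ + 2 := by
  classical
  have hm' : (0 : ℝ) < m := by exact_mod_cast hm
  have h1 := PP_est (D := D) (Y := Y) (l := 0) (q := m) (h := m) (fun _ => 0) hD.le hY hm' hm'
  have h2 := int_g_le hD Y hY
  have hsub : S ⊆ (PP D Y 0 m m (fun _ => 0)).image (fun p => (-(m * p.1), -(m * p.2))) := by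
    intro q hq
    obtain ⟨h3, h4, ⟨a, ha⟩, b, hb⟩ := hS q hq
    rw [mem_image]
    refine ⟨(-a, -b), ?_, ?_⟩
    · rw [mem_PP hm' hm']
      simp only
      have e1 : (0 : ℝ) - m * ((-a : ℤ) : ℝ) = q.1 := by
        rw [ha]; push_cast; ring
      have e2 : (0 : ℝ) - m * ((-b : ℤ) : ℝ) = q.2 := by
        rw [hb]; push_cast; ring
      rw [e1, e2]
      exact ⟨h3, h4⟩
    · apply Prod.ext
      · simp only; rw [ha]; ring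
      · simp only; rw [hb]; ring
  have h3 : (S.card : ℝ) ≤ ((PP D Y 0 m m (fun _ => 0)).card : ℝ) := by
    exact_mod_cast (card_le_card hsub).trans card_image_le
  have h4 := (abs_le.1 h1).2
  have h5 : 2 / ((m : ℝ) * m) * ∫ x in (-Y)..Y, g D x ≤ 2 / ((m : ℝ) * m) * (D ^ ((5 : ℝ) / 6) * I0) :=
    mul_le_mul_of_nonneg_left h2 (by positivity)
  have e : 2 * (D ^ ((5 : ℝ) / 6) * I0) * ((m : ℝ) ^ 2)⁻¹ +
      (12 * √(2 * D) + 4 * Y) * (m : ℝ)⁻¹ + 2 = 2 / ((m : ℝ) * m) * (D ^ ((5 : ℝ) / 6) * I0) +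
      (12 * √(2 * D) / m + 2 * (2 * Y / m + 1)) := by
    field_simp
    ring
  rw [e]
  linarith

theorem sum_sq_le (a b : ℕ) (ha : a ≠ 0) : ∑ i ∈ Ioc a b, ((i : ℝ) ^ 2)⁻¹ ≤ (a : ℝ)⁻¹ := by
  rcases le_total a b with h | h
  · have := sum_Ioc_inv_sq_le_sub (α := ℝ) ha h
    have h2 : 0 ≤ (b : ℝ)⁻¹ := by positivity
    linarith
  · rw [Ioc_eq_empty (by omega), sum_empty]
    positivity

theorem sum_inv_le (a b : ℕ) (hb : 1 ≤ b) : ∑ i ∈ Ioc a b, (i : ℝ)⁻¹ ≤ 1 + Real.log b := by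
  have h1 := harmonic_le_one_add_log b
  rw [harmonic_eq_sum_Icc] at h1
  push_cast at h1
  refine le_trans ?_ h1
  apply sum_le_sum_of_subset_of_nonneg
  · intro i hi
    rw [mem_Ioc] at hi
    rw [mem_Icc]
    omega
  · intro i _ _
    positivity

/-- **Additive reduction at a large prime.** -/
theorem tail1 {D Y : ℝ} (hD : 0 < D) (hY : 1 ≤ Y) {m : ℕ} (hm : m ≠ 0) (S : Finset (ℤ × ℤ))
    (hS : ∀ q ∈ S, |(q.1 : ℝ)| ≤ Y ∧ |(q.1 : ℝ) ^ 3 - (q.2 : ℝ) ^ 2| ≤ D ∧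
      ∃ p : ℕ, m < p ∧ (p : ℤ) ∣ q.1 ∧ (p : ℤ) ∣ q.2) :
    (S.card : ℝ) ≤ 2 * (D ^ ((5 : ℝ) / 6) * I0) * (m : ℝ)⁻¹ +
      (12 * √(2 * D) + 4 * Y) * (1 + Real.log Y) + 2 * Y + (2 * √D + 1) := by
  classical
  have hI := I0_nonneg
  -- split by `x = 0`
  have h1 : (S.card : ℝ) ≤ ((S.filter (fun q => q.1 = 0)).card : ℝ) +
      ((S.filter (fun q => ¬ q.1 = 0)).card : ℝ) := by
    exact_mod_cast (card_filter_add_card_filter_not (s := S) (fun q => q.1 = 0)).ge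
  have h2 : ((S.filter (fun q => q.1 = 0)).card : ℝ) ≤ 2 * √D + 1 := by
    have h3 : (S.filter (fun q => q.1 = 0)) ⊆ (Icc ⌈-√D⌉ ⌊√D⌋).image (fun y : ℤ => ((0 : ℤ), y)) := by
      intro q hq
      rw [mem_filter] at hq
      obtain ⟨hq1, hq2⟩ := hq
      obtain ⟨-, h4, -⟩ := hS q hq1
      rw [mem_image]
      refine ⟨q.2, ?_, Prod.ext hq2.symm rfl⟩
      rw [hq2] at h4
      rw [Int.cast_zero, zero_pow (by norm_num), zero_sub, abs_neg, abs_of_nonneg (sq_nonneg _)] at h4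
      have h5 := Real.abs_le_sqrt h4
      rw [mem_Icc, Int.ceil_le, Int.le_floor]
      exact abs_le.1 h5
    have h4 := (card_le_card h3).trans card_image_le
    have h5 := icc_card_le (a := -√D) (b := √D) (by
      have := Real.sqrt_nonneg D
      linarith)
    have h6 : ((S.filter (fun q => q.1 = 0)).card : ℝ) ≤ ((Icc ⌈-√D⌉ ⌊√D⌋ : Finset ℤ).card : ℝ) := by
      exact_mod_cast h4
    linarith
  have h3 : ((S.filter (fun q => ¬ q.1 = 0)).card : ℝ) ≤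
      2 * (D ^ ((5 : ℝ) / 6) * I0) * (m : ℝ)⁻¹ +
      (12 * √(2 * D) + 4 * Y) * (1 + Real.log Y) + 2 * Y := by
    have hcov := card_le_cover (S.filter (fun q => ¬ q.1 = 0)) (Ioc m ⌊Y⌋₊)
      (fun p q => (p : ℤ) ∣ q.1 ∧ (p : ℤ) ∣ q.2)
      (fun p => 2 * (D ^ ((5 : ℝ) / 6) * I0) * ((p : ℝ) ^ 2)⁻¹ +
        (12 * √(2 * D) + 4 * Y) * (p : ℝ)⁻¹ + 2) ?_ ?_
    · refine hcov.trans ?_
      rw [sum_add_distrib, sum_add_distrib, ← mul_sum, ← mul_sum, sum_const, nsmul_eq_mul]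
      have a1 := sum_sq_le m ⌊Y⌋₊ hm
      have hY1 : 1 ≤ ⌊Y⌋₊ := Nat.le_floor (by exact_mod_cast hY)
      have a2 := sum_inv_le m ⌊Y⌋₊ hY1
      have a3 : Real.log ⌊Y⌋₊ ≤ Real.log Y :=
        Real.log_le_log (by exact_mod_cast hY1) (Nat.floor_le (by linarith))
      have a4 : ((Ioc m ⌊Y⌋₊).card : ℝ) ≤ Y := by
        rw [Nat.card_Ioc]
        calc ((⌊Y⌋₊ - m : ℕ) : ℝ) ≤ (⌊Y⌋₊ : ℝ) := by exact_mod_cast Nat.sub_le _ _
          _ ≤ Y := Nat.floor_le (by linarith)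
      have b1 : 2 * (D ^ ((5 : ℝ) / 6) * I0) * ∑ i ∈ Ioc m ⌊Y⌋₊, ((i : ℝ) ^ 2)⁻¹ ≤
          2 * (D ^ ((5 : ℝ) / 6) * I0) * (m : ℝ)⁻¹ := mul_le_mul_of_nonneg_left a1 (by positivity)
      have b2 : (12 * √(2 * D) + 4 * Y) * ∑ i ∈ Ioc m ⌊Y⌋₊, (i : ℝ)⁻¹ ≤
          (12 * √(2 * D) + 4 * Y) * (1 + Real.log Y) :=
        mul_le_mul_of_nonneg_left (by linarith) (by positivity)
      linarith
    · intro q hq
      rw [mem_filter] at hq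
      obtain ⟨h4, -, p, hp1, hp2, hp3⟩ := hS q hq.1
      refine ⟨p, ?_, hp2, hp3⟩
      rw [mem_Ioc]
      refine ⟨hp1, ?_⟩
      apply Nat.le_floor
      have h5 : (p : ℤ) ≤ |q.1| := Int.le_of_dvd (abs_pos.2 hq.2) ((dvd_abs _ _).2 hp2)
      have h6 : ((p : ℤ) : ℝ) ≤ ((|q.1| : ℤ) : ℝ) := by exact_mod_cast h5
      push_cast at h6
      linarith
    · intro p hp T hT hT2
      rw [mem_Ioc] at hp
      apply cntP hD (by linarith) (by omega)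
      intro q hq
      have h4 := hS q (mem_filter.1 (hT hq)).1
      exact ⟨h4.1, h4.2.1, hT2 q hq⟩
  linarith

theorem two_roots (p : ℕ) (hp : p.Prime) (h2 : p ≠ 2) (x : ℤ) (hx : ¬ (p : ℤ) ∣ x) :
    ∃ R : Finset ℤ, R.card ≤ 2 ∧ ∀ y : ℤ, (p : ℤ) ^ 2 ∣ x ^ 3 - y ^ 2 →
      ∃ r ∈ R, ((p ^ 2 : ℕ) : ℤ) ∣ r - y := by
  classical
  have hpp := Nat.prime_iff_prime_int.1 hp
  by_cases h : ∃ y0 : ℤ, (p : ℤ) ^ 2 ∣ x ^ 3 - y0 ^ 2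
  · obtain ⟨y0, hy0⟩ := h
    refine ⟨{y0, -y0}, card_le_two, ?_⟩
    intro y hy
    have h3 : (p : ℤ) ^ 2 ∣ (y0 - y) * (y0 + y) := by
      have := dvd_sub hy hy0
      have e : x ^ 3 - y ^ 2 - (x ^ 3 - y0 ^ 2) = (y0 - y) * (y0 + y) := by ring
      rwa [e] at this
    have hy0' : ¬ (p : ℤ) ∣ y0 := by
      intro h4
      apply hx
      have h5 : (p : ℤ) ∣ x ^ 3 - y0 ^ 2 := (dvd_pow_self _ (by norm_num)).trans hy0
      have h6 := dvd_add h5 (dvd_pow h4 (by norm_num : (2 : ℕ) ≠ 0))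
      rw [sub_add_cancel] at h6
      exact hpp.dvd_of_dvd_pow h6
    have hnot : ¬ ((p : ℤ) ∣ y0 - y ∧ (p : ℤ) ∣ y0 + y) := by
      rintro ⟨h4, h5⟩
      have h6 := dvd_add h4 h5
      have e : y0 - y + (y0 + y) = 2 * y0 := by ring
      rw [e] at h6
      rcases hpp.dvd_or_dvd h6 with h7 | h7
      · have h8 : p ∣ 2 := by exact_mod_cast h7
        rcases (Nat.dvd_prime Nat.prime_two).1 h8 with h9 | h9
        · exact hp.one_lt.ne' h9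
        · exact h2 h9
      · exact hy0' h7
    push_cast
    by_cases h4 : (p : ℤ) ∣ y0 - y
    · have h5 : ¬ (p : ℤ) ∣ y0 + y := fun h => hnot ⟨h4, h⟩
      refine ⟨y0, by simp, ?_⟩
      have hc : IsCoprime ((p : ℤ) ^ 2) (y0 + y) :=
        IsCoprime.pow_left (hpp.coprime_iff_not_dvd.2 h5)
      exact hc.dvd_of_dvd_mul_right h3
    · refine ⟨-y0, by simp, ?_⟩
      have hc : IsCoprime ((p : ℤ) ^ 2) (y0 - y) :=
        IsCoprime.pow_left (hpp.coprime_iff_not_dvd.2 h4)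
      have h5 := hc.dvd_of_dvd_mul_left h3
      have e : -y0 - y = -(y0 + y) := by ring
      rw [e]
      exact (dvd_neg).2 h5
  · exact ⟨∅, by simp, fun y hy => absurd ⟨y, hy⟩ h⟩

/-- **Multiplicative reduction with `p ^ 2 ∣ Δ` at a large prime.** -/
theorem tail2 {D Y Z : ℝ} (hD : 0 < D) (hY : 1 ≤ Y) (hZ : 0 ≤ Z) {m : ℕ} (hm : 2 ≤ m)
    (S : Finset (ℤ × ℤ))
    (hS : ∀ q ∈ S, |(q.1 : ℝ)| ≤ Y ∧ |(q.1 : ℝ) ^ 3 - (q.2 : ℝ) ^ 2| ≤ D ∧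
      ∃ p : ℕ, p.Prime ∧ m < p ∧ (p : ℝ) ≤ Z ∧ ¬ (p : ℤ) ∣ q.1 ∧
        (p : ℤ) ^ 2 ∣ q.1 ^ 3 - q.2 ^ 2) :
    (S.card : ℝ) ≤ 4 * (D ^ ((5 : ℝ) / 6) * I0 + 6 * √(2 * D)) * (m : ℝ)⁻¹ +
      4 * (2 * Y + 1) * Z := by
  classical
  have hI := I0_nonneg
  have hcov := card_le_cover S ((Ioc m ⌊Z⌋₊).filter Nat.Prime)
      (fun p q => ¬ (p : ℤ) ∣ q.1 ∧ (p : ℤ) ^ 2 ∣ q.1 ^ 3 - q.2 ^ 2)
      (fun p => 4 * (D ^ ((5 : ℝ) / 6) * I0 + 6 * √(2 * D)) * ((p : ℝ) ^ 2)⁻¹ +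
        4 * (2 * Y + 1)) ?_ ?_
  · refine hcov.trans ?_
    have h1 : ∑ p ∈ (Ioc m ⌊Z⌋₊).filter Nat.Prime,
        (4 * (D ^ ((5 : ℝ) / 6) * I0 + 6 * √(2 * D)) * ((p : ℝ) ^ 2)⁻¹ + 4 * (2 * Y + 1)) ≤
        ∑ p ∈ Ioc m ⌊Z⌋₊,
        (4 * (D ^ ((5 : ℝ) / 6) * I0 + 6 * √(2 * D)) * ((p : ℝ) ^ 2)⁻¹ + 4 * (2 * Y + 1)) := by
      apply sum_le_sum_of_subset_of_nonneg (filter_subset _ _)
      intro i _ _
      positivity
    refine h1.trans ?_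
    rw [sum_add_distrib, ← mul_sum, sum_const, nsmul_eq_mul]
    have a1 := sum_sq_le m ⌊Z⌋₊ (by omega)
    have a4 : ((Ioc m ⌊Z⌋₊).card : ℝ) ≤ Z := by
      rw [Nat.card_Ioc]
      calc ((⌊Z⌋₊ - m : ℕ) : ℝ) ≤ (⌊Z⌋₊ : ℝ) := by exact_mod_cast Nat.sub_le _ _
        _ ≤ Z := Nat.floor_le hZ
    have b1 : 4 * (D ^ ((5 : ℝ) / 6) * I0 + 6 * √(2 * D)) * ∑ i ∈ Ioc m ⌊Z⌋₊, ((i : ℝ) ^ 2)⁻¹ ≤
        4 * (D ^ ((5 : ℝ) / 6) * I0 + 6 * √(2 * D)) * (m : ℝ)⁻¹ :=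
      mul_le_mul_of_nonneg_left a1 (by positivity)
    have b2 : ((Ioc m ⌊Z⌋₊).card : ℝ) * (4 * (2 * Y + 1)) ≤ Z * (4 * (2 * Y + 1)) :=
      mul_le_mul_of_nonneg_right a4 (by positivity)
    linarith
  · intro q hq
    obtain ⟨-, -, p, hp0, hp1, hp2, hp3, hp4⟩ := hS q hq
    refine ⟨p, ?_, hp3, hp4⟩
    rw [mem_filter, mem_Ioc]
    exact ⟨⟨hp1, Nat.le_floor hp2⟩, hp0⟩
  · intro p hp T hT hT2
    rw [mem_filter, mem_Ioc] at hp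
    have hp0 := hp.2
    have hR : ∀ x : ℤ, ∃ R : Finset ℤ, R.card ≤ 2 ∧ (¬ (p : ℤ) ∣ x → ∀ y : ℤ,
        (p : ℤ) ^ 2 ∣ x ^ 3 - y ^ 2 → ∃ r ∈ R, ((p ^ 2 : ℕ) : ℤ) ∣ r - y) := by
      intro x
      by_cases hx : (p : ℤ) ∣ x
      · exact ⟨∅, by simp, fun h => absurd hx h⟩
      · obtain ⟨R, hR1, hR2⟩ := two_roots p hp0 (by omega) x hx
        exact ⟨R, hR1, fun _ => hR2⟩
    choose R hR1 hR2 using hR
    have h1 := cntA hD (Y := Y) (by linarith) (m := p ^ 2) (pow_pos hp0.pos 2) (ρ := 2) R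
      (fun x => by exact_mod_cast hR1 x) T (by
        intro q hq
        have h4 := hS q (hT hq)
        obtain ⟨h5, h6⟩ := hT2 q hq
        exact ⟨h4.1, h4.2.1, hR2 q.1 h5 q.2 h6⟩)
    refine h1.trans (le_of_eq ?_)
    push_cast
    have : (p : ℝ) ≠ 0 := by exact_mod_cast hp0.ne_zero
    field_simp
    ring

end Pool.Agent.T2H27.Law
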